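import Pool.Agent.Q236.GB.Sup

set_option autoImplicit false

/-!
# Exponential sums of the primes minus the model over arithmetic progressions
-/

namespace Pool.Agent.Q236.LG

open Finset Filter Pool.Agent.H807R2.Dav
open Pool.Agent.H373R2.T7 (orth)
open Pool.Agent.Q236.RP (ev_log_ge)
open Pool.Agent.Q236.CG (dz di)
open Pool.Agent.Q236.GB (sup_dz)

/-- the residue class by additive characters -/
lemma ap_pre (y : ℕ) (g : ℕ → ℂ) (S : ℝ) (hS : ∀ α : ℝ, ‖∑ n ∈ Icc 1 y, g n * ee ((n : ℝ) * α)‖ ≤ S) (E b : ℕ) (hE : 1 ≤ E)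
    (α : ℝ) : ‖∑ n ∈ (Icc 1 y).filter (fun n => n ≡ b [MOD E]), g n * ee ((n : ℝ) * α)‖ ≤ S := by
  have hE0 : (0 : ℝ) < E := by exact_mod_cast hE
  have h1 : (E : ℂ) * ∑ n ∈ (Icc 1 y).filter (fun n => n ≡ b [MOD E]), g n * ee ((n : ℝ) * α) =
      ∑ j ∈ range E, ee (-((j : ℝ) * (b / E))) * ∑ n ∈ Icc 1 y, g n * ee ((n : ℝ) * (α + j / E)) := by
    rw [Finset.sum_filter, Finset.mul_sum]
    have h2 : ∀ n ∈ Icc 1 y, (E : ℂ) * (if n ≡ b [MOD E] then g n * ee ((n : ℝ) * α) else 0) =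
        ∑ j ∈ range E, ee (-((j : ℝ) * (b / E))) * (g n * ee ((n : ℝ) * (α + j / E))) := by
      intro n _
      have h3 := orth E hE ((n : ℤ) - b)
      have h4 : ∑ j ∈ range E, ee (-((j : ℝ) * (b / E))) * (g n * ee ((n : ℝ) * (α + j / E))) =
          g n * ee ((n : ℝ) * α) * ∑ j ∈ range E, ee ((j : ℝ) * ((((n : ℤ) - b : ℤ) : ℝ) / E)) := by
        rw [Finset.mul_sum]
        apply Finset.sum_congr rfl
        intro j _
        have e1 : (n : ℝ) * (α + j / E) = n * α + (j * (n / E)) := by ring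
        have e2 : (j : ℝ) * ((((n : ℤ) - b : ℤ) : ℝ) / E) = j * (n / E) + -((j : ℝ) * (b / E)) := by
          push_cast
          ring
        rw [e1, e2, ee_add, ee_add]
        ring
      rw [h4, h3]
      have h5 : ((E : ℤ) ∣ (n : ℤ) - b) ↔ n ≡ b [MOD E] := by
        rw [Nat.modEq_iff_dvd, ← dvd_neg]
        rw [neg_sub]
      by_cases h6 : n ≡ b [MOD E]
      · rw [if_pos h6, if_pos (h5.2 h6)]
        ring
      · rw [if_neg h6, if_neg (fun h => h6 (h5.1 h))]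
        ring
    rw [Finset.sum_congr rfl h2, Finset.sum_comm]
    apply Finset.sum_congr rfl
    intro j _
    rw [Finset.mul_sum]
  have h2 : (E : ℝ) * ‖∑ n ∈ (Icc 1 y).filter (fun n => n ≡ b [MOD E]), g n * ee ((n : ℝ) * α)‖ ≤ E * S := by
    have h3 : ‖(E : ℂ) * ∑ n ∈ (Icc 1 y).filter (fun n => n ≡ b [MOD E]), g n * ee ((n : ℝ) * α)‖ ≤ ∑ _j ∈ range E, S := by
      rw [h1]
      refine (norm_sum_le _ _).trans (Finset.sum_le_sum ?_)
      intro j _
      rw [norm_mul, norm_ee, one_mul]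
      exact hS _
    rw [norm_mul, Complex.norm_natCast, Finset.sum_const, card_range, nsmul_eq_mul] at h3
    exact h3
  exact le_of_mul_le_mul_left h2 hE0

lemma line_natC (F : ℕ → ℂ) (D a N : ℕ) (hD : 1 ≤ D) (ha : 1 ≤ a) (hN : 1 ≤ N) :
    ∑ t ∈ range N, F (a + t * D) =
      ∑ n ∈ (Icc 1 (a + (N - 1) * D)).filter (fun n => n ≡ a [MOD D]), F n - ∑ n ∈ (Icc 1 (a - 1)).filter (fun n => n ≡ a [MOD D]), F n := by
  rw [eq_sub_iff_add_eq]
  have hsplit : (Icc 1 (a + (N - 1) * D)).filter (fun n => n ≡ a [MOD D]) =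
      (Icc a (a + (N - 1) * D)).filter (fun n => n ≡ a [MOD D]) ∪ (Icc 1 (a - 1)).filter (fun n => n ≡ a [MOD D]) := by
    ext n
    rw [mem_union, mem_filter, mem_filter, mem_filter, mem_Icc, mem_Icc, mem_Icc]
    constructor
    · rintro ⟨⟨h1, h2⟩, h3⟩
      rcases Nat.lt_or_ge n a with h4 | h4
      · exact Or.inr ⟨⟨h1, by omega⟩, h3⟩
      · exact Or.inl ⟨⟨h4, h2⟩, h3⟩
    · rintro (⟨⟨h1, h2⟩, h3⟩ | ⟨⟨h1, h2⟩, h3⟩)
      · exact ⟨⟨by omega, h2⟩, h3⟩
      · have := Nat.zero_le ((N - 1) * D)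
        exact ⟨⟨h1, by omega⟩, h3⟩
  have hdisj : Disjoint ((Icc a (a + (N - 1) * D)).filter (fun n => n ≡ a [MOD D])) ((Icc 1 (a - 1)).filter (fun n => n ≡ a [MOD D])) := by
    rw [disjoint_left]
    intro n hn hn'
    rw [mem_filter, mem_Icc] at hn hn'
    omega
  rw [hsplit, Finset.sum_union hdisj]
  congr 1
  apply Finset.sum_bij (fun t _ => a + t * D)
  · intro t ht
    rw [mem_range] at ht
    rw [mem_filter, mem_Icc]
    have h1 : t * D ≤ (N - 1) * D := Nat.mul_le_mul_right D (by omega)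
    refine ⟨⟨?_, by omega⟩, ?_⟩
    · have := Nat.zero_le (t * D)
      omega
    · unfold Nat.ModEq
      rw [Nat.add_mul_mod_self_right]
  · intro t ht s hs h
    exact Nat.eq_of_mul_eq_mul_right (by omega : 0 < D) (by omega)
  · intro n hn
    rw [mem_filter, mem_Icc] at hn
    obtain ⟨⟨h1, h2⟩, h3⟩ := hn
    obtain ⟨q, hq⟩ := (Nat.modEq_iff_dvd' (show a ≤ n by omega)).1 h3.symm
    refine ⟨q, ?_, ?_⟩
    · rw [mem_range]
      by_contra hcon
      push Not at hcon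
      have h4 : N * D ≤ q * D := Nat.mul_le_mul_right D hcon
      have h5 : D * q = q * D := Nat.mul_comm _ _
      have h6 : (N - 1) * D + D = N * D := by
        rw [← Nat.succ_mul]
        congr 1
        omega
      have h7 : a + q * D = n := by omega
      omega
    · have h5 : D * q = q * D := Nat.mul_comm _ _
      omega
  · intro t _
    rfl

/-- **Exponential sums over progressions of integers** -/
theorem ap_sup (V C : ℕ) : ∃ A0 : ℕ, ∀ A : ℕ, ∀ᶠ X : ℕ in atTop, ∀ z : ℕ, Real.log X ^ A0 ≤ z → (z : ℝ) ≤ Real.log X ^ A →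
    ∀ (D a : ℤ) (M : ℕ), D ≠ 0 → (∀ t : ℕ, t < M → 1 ≤ a + t * D ∧ ((a + t * D : ℤ) : ℝ) ≤ X * Real.log X ^ C) → ∀ θ : ℝ,
    ‖∑ t ∈ range M, ((di z (a + t * D) : ℝ) : ℂ) * ee ((t : ℝ) * θ)‖ ≤ X / Real.log X ^ V := by
  obtain ⟨A0, hA0⟩ := sup_dz (V + 1) C
  refine ⟨A0, ?_⟩
  intro A
  filter_upwards [hA0 A, ev_log_ge 2] with X hsup hL2 z hz1 hz2
  have hsup := hsup z hz1 hz2
  obtain ⟨L, hL⟩ : ∃ L, L = Real.log (X : ℝ) := ⟨_, rfl⟩
  rw [← hL] at hsup hL2 ⊢
  have hL0 : 0 < L := by linarith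
  have hpos : ∀ (D a : ℤ) (M : ℕ), 0 < D → (∀ t : ℕ, t < M → 1 ≤ a + t * D ∧ ((a + t * D : ℤ) : ℝ) ≤ X * L ^ C) → ∀ θ : ℝ,
      ‖∑ t ∈ range M, ((di z (a + t * D) : ℝ) : ℂ) * ee ((t : ℝ) * θ)‖ ≤ X / L ^ V := by
    intro D a M hD hr θ
    rcases Nat.eq_zero_or_pos M with h0 | h0
    · rw [h0]
      simp
      positivity
    obtain ⟨E, hE⟩ : ∃ E : ℕ, E = D.natAbs := ⟨_, rfl⟩
    have hEz : (E : ℤ) = D := by rw [hE]; omega
    have hE1 : 1 ≤ E := by omega
    have hE0 : (0 : ℝ) < E := by exact_mod_cast hE1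
    have ha := (hr 0 h0).1
    simp only [Nat.cast_zero, zero_mul, add_zero] at ha
    obtain ⟨b, hb⟩ : ∃ b : ℕ, b = a.toNat := ⟨_, rfl⟩
    have hbz : (b : ℤ) = a := by rw [hb]; exact Int.toNat_of_nonneg (by omega)
    have hb1 : 1 ≤ b := by omega
    obtain ⟨F, hF⟩ : ∃ F : ℕ → ℂ, F = fun n => ((dz z n : ℝ) : ℂ) * ee ((n : ℝ) * (θ / E)) := ⟨_, rfl⟩
    have hsum : ∑ t ∈ range M, ((di z (a + t * D) : ℝ) : ℂ) * ee ((t : ℝ) * θ) = ee (-((b : ℝ) * (θ / E))) * ∑ t ∈ range M, F (b + t * E) := by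
      rw [Finset.mul_sum]
      apply Finset.sum_congr rfl
      intro t _
      rw [hF]
      unfold di
      have e0 : (a + (t : ℤ) * D).toNat = b + t * E := by
        rw [← hbz, ← hEz]
        have : ((b : ℤ) + t * E) = ((b + t * E : ℕ) : ℤ) := by push_cast; ring
        rw [this, Int.toNat_natCast]
      rw [e0]
      have e1 : (t : ℝ) * θ = -((b : ℝ) * (θ / E)) + ((b + t * E : ℕ) : ℝ) * (θ / E) := by
        push_cast
        field_simp
        ring
      simp only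
      rw [e1, ee_add]
      ring
    rw [hsum, norm_mul, norm_ee, one_mul, line_natC F E b M hE1 hb1 h0]
    have hend := (hr (M - 1) (by omega)).2
    have hend' : ((b + (M - 1) * E : ℕ) : ℝ) ≤ X * L ^ C := by
      refine le_trans (le_of_eq ?_) hend
      rw [← hbz, ← hEz]
      push_cast
      rfl
    have h1 : ‖∑ n ∈ (Icc 1 (b + (M - 1) * E)).filter (fun n => n ≡ b [MOD E]), F n‖ ≤ X / L ^ (V + 1) := by
      rw [hF]
      exact ap_pre _ (fun n => ((dz z n : ℝ) : ℂ)) _ (fun α => hsup _ hend' α) E b hE1 _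
    have h2 : ‖∑ n ∈ (Icc 1 (b - 1)).filter (fun n => n ≡ b [MOD E]), F n‖ ≤ X / L ^ (V + 1) := by
      rw [hF]
      refine ap_pre _ (fun n => ((dz z n : ℝ) : ℂ)) _ (fun α => hsup _ ?_ α) E b hE1 _
      refine le_trans ?_ hend'
      have : b - 1 ≤ b + (M - 1) * E := (Nat.sub_le _ _).trans (Nat.le_add_right _ _)
      exact_mod_cast this
    refine (norm_sub_le _ _).trans ((add_le_add h1 h2).trans ?_)
    rw [pow_succ, ← two_mul, mul_div_assoc', div_le_div_iff₀ (by positivity) (by positivity)]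
    have h3 : (0 : ℝ) ≤ X * L ^ V := by positivity
    nlinarith
  intro D a M hD hr θ
  rcases lt_or_gt_of_ne hD with hneg | hpos'
  · have h1 := hpos (-D) (a + ((M : ℤ) - 1) * D) M (by omega) (by
      intro t ht
      have h2 := hr (M - 1 - t) (by omega)
      have e : a + ((M : ℤ) - 1) * D + t * -D = a + ((M - 1 - t : ℕ) : ℤ) * D := by
        have : ((M - 1 - t : ℕ) : ℤ) = (M : ℤ) - 1 - t := by omega
        rw [this]
        ring
      rw [e]
      exact h2) (-θ)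
    have e : ∑ t ∈ range M, ((di z (a + t * D) : ℝ) : ℂ) * ee ((t : ℝ) * θ) =
        ee (((M : ℝ) - 1) * θ) * ∑ t ∈ range M, ((di z (a + ((M : ℤ) - 1) * D + t * -D) : ℝ) : ℂ) * ee ((t : ℝ) * -θ) := by
      rw [← Finset.sum_range_reflect, Finset.mul_sum]
      apply Finset.sum_congr rfl
      intro t ht
      rw [mem_range] at ht
      have e1 : ((M - 1 - t : ℕ) : ℤ) = (M : ℤ) - 1 - t := by omega
      have e2 : ((M - 1 - t : ℕ) : ℝ) = (M : ℝ) - 1 - t := by exact_mod_cast e1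
      rw [e1, e2]
      have e3 : a + ((M : ℤ) - 1 - t) * D = a + ((M : ℤ) - 1) * D + t * -D := by ring
      have e4 : ((M : ℝ) - 1 - t) * θ = ((M : ℝ) - 1) * θ + (t : ℝ) * -θ := by ring
      rw [e3, e4, ee_add]
      ring
    rw [e, norm_mul, norm_ee, one_mul]
    exact h1
  · exact hpos D a M hpos' hr θ

end Pool.Agent.Q236.LG
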