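import Pool.Agent.Q236.LG.Mach
import Pool.Agent.Q236.MR.Marg

set_option autoImplicit false

/-!
# All systems of complexity one over a random family, all intervals, all progressions
-/

namespace Pool.Agent.Q236.LG

open Finset Filter Polynomial
open Pool.Agent.Q236.RP (Box mem_Box card_Box ev_log_ge ev_pow_log)
open Pool.Agent.Q236.CG (BA mem_BA)
open Pool.Agent.Q236.MR (pv ap mem_ap sum_ap marg_count)
open Pool.Agent.H373R2.T7 (pz mem_pz Vz)

section Gen

variable {V T : Type*} [DecidableEq V] {n m : ℕ}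

/-- proportions for some of the coordinates of a product set, with parameters -/
lemma margP (B : Fin m → Finset V) (σ : Fin n → Fin m) (hσ : Function.Injective σ) (R : Finset T) (P : (Fin n → V) → T → Prop) (θ : ℝ)
    [DecidablePred fun ω : (Fin n → V) × T => P ω.1 ω.2] [DecidablePred fun ω : (Fin m → V) × T => P (fun t => ω.1 (σ t)) ω.2]
    (h : (((Fintype.piFinset (fun t => B (σ t)) ×ˢ R).filter (fun ω => P ω.1 ω.2)).card : ℝ) ≤
      θ * (Fintype.piFinset (fun t => B (σ t)) ×ˢ R).card) :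
    (((Fintype.piFinset B ×ˢ R).filter (fun ω => P (fun t => ω.1 (σ t)) ω.2)).card : ℝ) ≤ θ * (Fintype.piFinset B ×ˢ R).card := by
  classical
  obtain ⟨K, hK⟩ : ∃ K : ℕ, K = ∏ i ∈ univ \ univ.image σ, (B i).card := ⟨_, rfl⟩
  have h1 : ((Fintype.piFinset B ×ˢ R).filter (fun ω => P (fun t => ω.1 (σ t)) ω.2)).card =
      ((Fintype.piFinset (fun t => B (σ t)) ×ˢ R).filter (fun ω => P ω.1 ω.2)).card * K := by
    rw [Finset.card_filter, Finset.sum_product_right, Finset.card_filter, Finset.sum_product_right, Finset.sum_mul]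
    apply Finset.sum_congr rfl
    intro N _
    have h2 := marg_count B σ hσ (fun c => P c N)
    rw [← hK, Finset.card_filter, Finset.card_filter] at h2
    refine (le_of_eq ?_).antisymm (le_of_eq ?_)
    · refine Eq.trans ?_ (h2.trans ?_)
      · apply Finset.sum_congr rfl
        intro c _
        congr
      · congr 1
        apply Finset.sum_congr rfl
        intro c _
        congr
    · refine Eq.symm (Eq.trans ?_ (h2.trans ?_))
      · apply Finset.sum_congr rfl
        intro c _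
        congr
      · congr 1
        apply Finset.sum_congr rfl
        intro c _
        congr
  have h2 := marg_count B σ hσ (fun _ => True)
  rw [Finset.filter_true, Finset.filter_true, ← hK] at h2
  rw [h1, card_product, h2]
  rw [card_product] at h
  push_cast at h ⊢
  have h3 : (0 : ℝ) ≤ K := Nat.cast_nonneg _
  calc (((Fintype.piFinset (fun t => B (σ t)) ×ˢ R).filter (fun ω => P ω.1 ω.2)).card : ℝ) * K ≤
      (θ * ((Fintype.piFinset (fun t => B (σ t))).card * R.card)) * K := mul_le_mul_of_nonneg_right h h3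
    _ = _ := by ring

end Gen

variable {m μ d e : ℕ}

/-- the value of a form in the members of the family and the parameters -/
def fvl (F : Fin m → ℤ[X]) (c : Fin m → Fin d → ℤ) (N : Fin μ → ℤ) (s : Fin e → Fin m → ℤ) (g : Fin e → Fin μ → ℤ) (r : Fin e → ℤ)
    (k : ℕ) (t : Fin e) : ℤ := ∑ i, s t i * pv F c k i + ∑ j, g t j * N j + r t

open Classical in
/-- the number of the prime points with index in `(a, a + h]` -/
noncomputable def cntL (F : Fin m → ℤ[X]) (c : Fin m → Fin d → ℤ) (N : Fin μ → ℤ) (s : Fin e → Fin m → ℤ) (g : Fin e → Fin μ → ℤ)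
    (r : Fin e → ℤ) (b q a h : ℕ) : ℕ :=
  ((Ioc a (a + h)).filter (fun k => ∀ t, (fvl F c N s g r (b + q * k) t).toNat.Prime)).card

open Classical in
/-- the number of the bad residues -/
noncomputable def omL (F : Fin m → ℤ[X]) (c : Fin m → Fin d → ℤ) (N : Fin μ → ℤ) (s : Fin e → Fin m → ℤ) (g : Fin e → Fin μ → ℤ)
    (r : Fin e → ℤ) (b q p : ℕ) : ℕ :=
  ((range p).filter (fun k => ∃ t, (p : ℤ) ∣ fvl F c N s g r (b + q * k) t)).card

/-- the singular series -/
noncomputable def sgL (F : Fin m → ℤ[X]) (c : Fin m → Fin d → ℤ) (N : Fin μ → ℤ) (s : Fin e → Fin m → ℤ) (g : Fin e → Fin μ → ℤ)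
    (r : Fin e → ℤ) (b q z : ℕ) : ℝ :=
  ∏ p ∈ pz z, ((1 - (omL F c N s g r b q p : ℝ) / p) / (1 - 1 / (p : ℝ)) ^ e)

/-- sums over the support -/
lemma sum_supp (J : Finset (Fin m)) (x : Fin m → ℤ) (hx : ∀ i, i ∉ J → x i = 0) :
    ∑ i, x i = ∑ j : Fin J.card, x (J.orderEmbOfFin rfl j) := by
  have h1 : ∑ i, x i = ∑ i ∈ J, x i := by
    symm
    apply Finset.sum_subset (subset_univ J)
    intro i _ hi
    exact hx i hi
  rw [h1]
  conv_lhs => rw [← Finset.map_orderEmbOfFin_univ J rfl]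
  rw [Finset.sum_map]
  rfl

/-- the restriction of a family -/
def rsF (J : Finset (Fin m)) (F : Fin m → ℤ[X]) : Fin J.card → ℤ[X] := fun t => F (J.orderEmbOfFin rfl t)

lemma fvl_supp (J : Finset (Fin m)) (F : Fin m → ℤ[X]) (c : Fin m → Fin d → ℤ) (N : Fin μ → ℤ) (s : Fin e → Fin m → ℤ)
    (g : Fin e → Fin μ → ℤ) (r : Fin e → ℤ) (hs : ∀ t, ∀ i, i ∉ J → s t i = 0) (k : ℕ) (t : Fin e) :
    fvl F c N s g r k t = lvp (LP.mk (fun t j => s t (J.orderEmbOfFin rfl j)) g r) (pv (rsF J F) (fun j => c (J.orderEmbOfFin rfl j)) k) N t := by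
  unfold fvl lvp
  simp only
  congr 2
  rw [sum_supp J (fun i => s t i * pv F c k i) (fun i hi => by rw [hs t i hi, zero_mul])]
  rfl

lemma CO_supp (J : Finset (Fin m)) (s : Fin e → Fin m → ℤ) (g : Fin e → Fin μ → ℤ) (hs : ∀ t, ∀ i, i ∉ J → s t i = 0)
    (h : CO s g) : CO (fun t (j : Fin J.card) => s t (J.orderEmbOfFin rfl j)) g := by
  have key : ∀ (t : Fin e) (u : Fin m → ℤ), ∑ j : Fin J.card, s t (J.orderEmbOfFin rfl j) * u (J.orderEmbOfFin rfl j) = ∑ i, s t i * u i := by
    intro t u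
    rw [sum_supp J (fun i => s t i * u i) (fun i hi => by rw [hs t i hi, zero_mul])]
  intro t
  obtain ⟨u, w, w', h1, h2, h3⟩ := h t
  refine ⟨fun j => u (J.orderEmbOfFin rfl j), fun j => w (J.orderEmbOfFin rfl j), w', ?_, ?_, ?_⟩
  · rw [key t u]
    exact h1
  · rw [key t w]
    exact h2
  · intro t' ht'
    rw [key t' u, key t' w]
    exact h3 t' ht'

/-- the singular series of the restricted system -/
lemma sg_supp (J : Finset (Fin m)) (F : Fin m → ℤ[X]) (c : Fin m → Fin d → ℤ) (N : Fin μ → ℤ) (s : Fin e → Fin m → ℤ)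
    (g : Fin e → Fin μ → ℤ) (r : Fin e → ℤ) (hs : ∀ t, ∀ i, i ∉ J → s t i = 0) (b q z : ℕ) :
    PQ b q (toLF (LP.mk (fun t (j : Fin J.card) => s t (J.orderEmbOfFin rfl j)) g r) N) (rsF J F) z
      (fun j => c (J.orderEmbOfFin rfl j)) / Vz z ^ e = sgL F c N s g r b q z := by
  unfold PQ sgL Vz
  rw [← Finset.prod_pow, ← Finset.prod_div_distrib]
  apply Finset.prod_congr rfl
  intro p _
  congr 4
  unfold omb omL
  congr 1
  ext k
  simp only [mem_filter]
  apply and_congr_right
  intro _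
  unfold gd good
  push Not
  apply exists_congr
  intro t
  rw [lv_toLF, ← fvl_supp J F c N s g r hs]

lemma cnt_supp (J : Finset (Fin m)) (F : Fin m → ℤ[X]) (c : Fin m → Fin d → ℤ) (N : Fin μ → ℤ) (s : Fin e → Fin m → ℤ)
    (g : Fin e → Fin μ → ℤ) (r : Fin e → ℤ) (hs : ∀ t, ∀ i, i ∉ J → s t i = 0) (b q a h : ℕ)
    [DecidablePred fun k => ∀ t, (lvp (LP.mk (fun t (j : Fin J.card) => s t (J.orderEmbOfFin rfl j)) g r) (pv (rsF J F)
      (fun j => c (J.orderEmbOfFin rfl j)) (b + q * k)) N t).toNat.Prime] :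
    ((Ioc a (a + h)).filter (fun k => ∀ t, (lvp (LP.mk (fun t (j : Fin J.card) => s t (J.orderEmbOfFin rfl j)) g r) (pv (rsF J F)
      (fun j => c (J.orderEmbOfFin rfl j)) (b + q * k)) N t).toNat.Prime)).card = cntL F c N s g r b q a h := by
  classical
  unfold cntL
  congr 1
  ext k
  simp only [mem_filter]
  apply and_congr_right
  intro _
  apply forall_congr'
  intro t
  rw [fvl_supp J F c N s g r hs]

end Pool.Agent.Q236.LG
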