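import Pool.Agent.Q236.LG.AllL

set_option autoImplicit false

/-!
# The union over all systems, intervals and progressions
-/

namespace Pool.Agent.Q236.LG

open Finset Filter Polynomial
open Pool.Agent.Q236.RP (Box mem_Box card_Box ev_log_ge ev_pow_log)
open Pool.Agent.Q236.CG (BA mem_BA)
open Pool.Agent.Q236.MR (pv ap mem_ap sum_ap marg_count)
open Pool.Agent.H373R2.T7 (pz mem_pz Vz)

variable {m μ d e : ℕ}

/-- extension of an array -/
lemma ext_BA (J : Finset (Fin m)) (Z : Fin m → Fin d → ℤ) (Y : Fin m → Fin d → ℕ) (hY : ∀ i j, 1 ≤ Y i j) (c' : Fin J.card → Fin d → ℤ)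
    (hc' : c' ∈ BA (fun j => Z (J.orderEmbOfFin rfl j)) (fun j => Y (J.orderEmbOfFin rfl j))) :
    ∃ c ∈ BA Z Y, (fun j => c (J.orderEmbOfFin rfl j)) = c' := by
  classical
  refine ⟨fun i => if h : ∃ j, J.orderEmbOfFin rfl j = i then c' h.choose else fun l => Z i l + 1, ?_, ?_⟩
  · rw [mem_BA]
    intro i
    split_ifs with h
    · have h1 := (mem_BA _ _ _).1 hc' h.choose
      rw [h.choose_spec] at h1
      exact h1
    · rw [mem_Box]
      intro j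
      have : (1 : ℤ) ≤ Y i j := by exact_mod_cast hY i j
      exact ⟨by linarith, by linarith⟩
  · funext j
    have hex : ∃ j', J.orderEmbOfFin rfl j' = J.orderEmbOfFin rfl j := ⟨j, rfl⟩
    simp only
    rw [dif_pos hex]
    congr 1
    exact (J.orderEmbOfFin rfl).injective hex.choose_spec

open Classical in
/-- the bad pairs for one system, one interval and one progression -/
noncomputable def bad (C E X z : ℕ) (η ε : ℝ) (F : Fin m → ℤ[X]) (Z : Fin m → Fin d → ℤ) (Y : Fin m → Fin d → ℕ) (Z' : Fin μ → ℤ)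
    (Y' : Fin μ → ℕ) (J : Finset (Fin m)) (e : ℕ) (s' : Fin e → Fin J.card → ℤ) (g : Fin e → Fin μ → ℤ) (r : Fin e → ℤ)
    (b q a h : ℕ) : Finset ((Fin m → Fin d → ℤ) × (Fin μ → ℤ)) :=
  (BA Z Y ×ˢ Box Z' Y').filter (fun ω => CO s' g ∧
    (∀ c' ∈ BA (fun j => Z (J.orderEmbOfFin rfl j)) (fun j => Y (J.orderEmbOfFin rfl j)), ∀ N' ∈ Box Z' Y', ∀ k : ℕ, 1 ≤ k →
      (k : ℝ) ≤ Real.log X ^ E → ∀ t, (X : ℝ) / Real.log X ^ C ≤ lvp (LP.mk s' g r) (pv (rsF J F) c' k) N' t ∧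
      (lvp (LP.mk s' g r) (pv (rsF J F) c' k) N' t : ℝ) ≤ X * Real.log X ^ C) ∧
    1 ≤ q ∧ ((b + q * (a + h) : ℕ) : ℝ) ≤ Real.log X ^ E ∧ Real.log X ^ ((e : ℝ) + η) ≤ h ∧
    ¬ |(((Ioc a (a + h)).filter (fun k => ∀ t,
      (lvp (LP.mk s' g r) (pv (rsF J F) (fun j => ω.1 (J.orderEmbOfFin rfl j)) (b + q * k)) ω.2 t).toNat.Prime)).card : ℝ) -
      PQ b q (toLF (LP.mk s' g r) ω.2) (rsF J F) z (fun j => ω.1 (J.orderEmbOfFin rfl j)) / Vz z ^ e * (h / Real.log X ^ e)| ≤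
      ε * (PQ b q (toLF (LP.mk s' g r) ω.2) (rsF J F) z (fun j => ω.1 (J.orderEmbOfFin rfl j)) / Vz z ^ e * (h / Real.log X ^ e)))

/-- the finite set of matrices -/
noncomputable def MS (K e n : ℕ) : Finset (Fin e → Fin n → ℤ) := Fintype.piFinset fun _ => Fintype.piFinset fun _ => Icc (-(K : ℤ)) K

lemma mem_MS (K e n : ℕ) (s : Fin e → Fin n → ℤ) : s ∈ MS K e n ↔ ∀ t i, |s t i| ≤ K := by
  unfold MS
  simp only [Fintype.mem_piFinset, mem_Icc, abs_le]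

lemma card_MS (K e n N : ℕ) (he : e ≤ N) (hn : n ≤ N) : (MS K e n).card ≤ (2 * K + 1) ^ (N * N) := by
  unfold MS
  rw [Fintype.card_piFinset, Finset.prod_const, Fintype.card_piFinset, Finset.prod_const, card_univ, card_univ, Fintype.card_fin,
    Fintype.card_fin, Int.card_Icc]
  have e1 : ((K : ℤ) + 1 - -(K : ℤ)).toNat = 2 * K + 1 := by omega
  rw [e1, ← pow_mul]
  apply Nat.pow_le_pow_right (by omega)
  exact Nat.mul_le_mul hn he

/-- the size of a union -/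
lemma cbu {α β : Type*} [DecidableEq β] (S : Finset α) (f : α → Finset β) (b c : ℝ) (hS : (S.card : ℝ) ≤ b) (hc : 0 ≤ c)
    (h : ∀ a ∈ S, ((f a).card : ℝ) ≤ c) : ((S.biUnion f).card : ℝ) ≤ b * c := by
  calc ((S.biUnion f).card : ℝ) ≤ ∑ a ∈ S, ((f a).card : ℝ) := by exact_mod_cast card_biUnion_le
    _ ≤ ∑ _a ∈ S, c := Finset.sum_le_sum h
    _ = S.card * c := by rw [Finset.sum_const, nsmul_eq_mul]
    _ ≤ b * c := mul_le_mul_of_nonneg_right hS hc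

open Classical in
/-- **All systems, all intervals, all progressions.** -/
theorem all_lin (N K μ B E : ℕ) (η : ℝ) (hη : 0 < η) : ∃ d0 : ℕ, ∀ C d : ℕ, d0 ≤ d → ∃ A0 : ℕ, ∀ (A D : ℕ) (ε : ℝ), 0 < ε →
    ∀ᶠ X : ℕ in atTop, ∀ z : ℕ, Real.log X ^ A0 ≤ z → (z : ℝ) ≤ Real.log X ^ A → ∀ m : ℕ, (m : ℝ) ≤ Real.log X ^ E →
    ∀ R : Finset ℤ, (R.card : ℝ) ≤ Real.log X ^ E →
    ∀ (F : Fin m → ℤ[X]) (Z : Fin m → Fin d → ℤ) (Y : Fin m → Fin d → ℕ) (Z' : Fin μ → ℤ) (Y' : Fin μ → ℕ), (∀ i, (F i).natDegree ≤ D) →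
    (∀ i j, (X : ℝ) / Real.log X ^ C ≤ Y i j) → (∀ j, (X : ℝ) / Real.log X ^ C ≤ Y' j) →
    (((BA Z Y ×ˢ Box Z' Y').filter (fun ω => ∃ (J : Finset (Fin m)) (e : ℕ) (s : Fin e → Fin m → ℤ) (g : Fin e → Fin μ → ℤ)
      (r : Fin e → ℤ), J.card ≤ N ∧ 1 ≤ e ∧ e ≤ N ∧ (∀ t i, |s t i| ≤ K) ∧ (∀ t j, |g t j| ≤ K) ∧ (∀ t, ∀ i, i ∉ J → s t i = 0) ∧
      (∀ t, r t ∈ R) ∧ CO s g ∧
      (∀ c ∈ BA Z Y, ∀ N' ∈ Box Z' Y', ∀ k : ℕ, 1 ≤ k → (k : ℝ) ≤ Real.log X ^ E → ∀ t,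
        (X : ℝ) / Real.log X ^ C ≤ fvl F c N' s g r k t ∧ (fvl F c N' s g r k t : ℝ) ≤ X * Real.log X ^ C) ∧
      ∃ b q a h : ℕ, 1 ≤ q ∧ ((b + q * (a + h) : ℕ) : ℝ) ≤ Real.log X ^ E ∧ Real.log X ^ ((e : ℝ) + η) ≤ h ∧
      ¬ |(cntL F ω.1 ω.2 s g r b q a h : ℝ) - sgL F ω.1 ω.2 s g r b q z * (h / Real.log X ^ e)| ≤
        ε * (sgL F ω.1 ω.2 s g r b q z * (h / Real.log X ^ e)))).card : ℝ) ≤
      (BA Z Y ×ˢ Box Z' Y').card / Real.log X ^ B := by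
  obtain ⟨B', hB'⟩ : ∃ B', B' = B + 1 + E * N + E * N + 4 * (E + 1) := ⟨_, rfl⟩
  have hm : ∀ n e : ℕ, ∃ d0 : ℕ, 1 ≤ e → ∀ (s : Fin e → Fin n → ℤ) (g : Fin e → Fin μ → ℤ), CO s g →
    ∀ C d : ℕ, d0 ≤ d → ∃ A0 : ℕ, ∀ D A' : ℕ, d ≤ D + 1 → ∀ ε : ℝ, 0 < ε → ∀ᶠ X : ℕ in atTop, ∀ b q z a h : ℕ, 1 ≤ q →
    Real.log X ^ A0 ≤ z → (z : ℝ) ≤ Real.log X ^ A' → Real.log X ^ ((e : ℝ) + η) ≤ h →
    ∀ (r : Fin e → ℤ) (F : Fin n → ℤ[X]) (Z : Fin n → Fin d → ℤ) (Y : Fin n → Fin d → ℕ) (Z' : Fin μ → ℤ) (Y' : Fin μ → ℕ),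
    (∀ i, (F i).natDegree ≤ D) → SZ C X (LP.mk s g r) (fun i k => (F i).eval (k : ℤ)) Z Y Z' Y' (ap b q a h) →
    (((BA Z Y ×ˢ Box Z' Y').filter (fun ω => ¬ |(((Ioc a (a + h)).filter (fun k => ∀ t,
      (lvp (LP.mk s g r) (pv F ω.1 (b + q * k)) ω.2 t).toNat.Prime)).card : ℝ) -
      PQ b q (toLF (LP.mk s g r) ω.2) F z ω.1 / Vz z ^ e * (h / Real.log X ^ e)| ≤
      ε * (PQ b q (toLF (LP.mk s g r) ω.2) F z ω.1 / Vz z ^ e * (h / Real.log X ^ e)))).card : ℝ) ≤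
      (BA Z Y ×ˢ Box Z' Y').card / Real.log X ^ B' := by
    intro n e
    by_cases he : 1 ≤ e
    · obtain ⟨d0, h⟩ := machL n μ e B' he η hη
      exact ⟨d0, fun _ => h⟩
    · exact ⟨0, fun h => absurd h he⟩
  choose d0 hd0 using hm
  refine ⟨(range (N + 1)).sup (fun n => (range (N + 1)).sup (fun e => d0 n e)), ?_⟩
  intro C d hd
  have hdd : ∀ n e : ℕ, n ≤ N → e ≤ N → d0 n e ≤ d := by
    intro n e hn he
    have h1 : d0 n e ≤ (range (N + 1)).sup (fun e => d0 n e) := Finset.le_sup (f := fun e => d0 n e) (mem_range.2 (by omega))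
    have h2 : (range (N + 1)).sup (fun e => d0 n e) ≤ (range (N + 1)).sup (fun n => (range (N + 1)).sup (fun e => d0 n e)) :=
      Finset.le_sup (f := fun n => (range (N + 1)).sup (fun e => d0 n e)) (mem_range.2 (by omega))
    omega
  obtain ⟨C', hC'⟩ : ∃ C', C' = C + E + 1 := ⟨_, rfl⟩
  have hA : ∀ (n e : ℕ) (s : Fin e → Fin n → ℤ) (g : Fin e → Fin μ → ℤ), ∃ A0 : ℕ, n ≤ N → 1 ≤ e → e ≤ N → CO s g →
    ∀ D A' : ℕ, d ≤ D + 1 → ∀ ε : ℝ, 0 < ε → ∀ᶠ X : ℕ in atTop, ∀ b q z a h : ℕ, 1 ≤ q →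
    Real.log X ^ A0 ≤ z → (z : ℝ) ≤ Real.log X ^ A' → Real.log X ^ ((e : ℝ) + η) ≤ h →
    ∀ (r : Fin e → ℤ) (F : Fin n → ℤ[X]) (Z : Fin n → Fin d → ℤ) (Y : Fin n → Fin d → ℕ) (Z' : Fin μ → ℤ) (Y' : Fin μ → ℕ),
    (∀ i, (F i).natDegree ≤ D) → SZ C' X (LP.mk s g r) (fun i k => (F i).eval (k : ℤ)) Z Y Z' Y' (ap b q a h) →
    (((BA Z Y ×ˢ Box Z' Y').filter (fun ω => ¬ |(((Ioc a (a + h)).filter (fun k => ∀ t,
      (lvp (LP.mk s g r) (pv F ω.1 (b + q * k)) ω.2 t).toNat.Prime)).card : ℝ) -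
      PQ b q (toLF (LP.mk s g r) ω.2) F z ω.1 / Vz z ^ e * (h / Real.log X ^ e)| ≤
      ε * (PQ b q (toLF (LP.mk s g r) ω.2) F z ω.1 / Vz z ^ e * (h / Real.log X ^ e)))).card : ℝ) ≤
      (BA Z Y ×ˢ Box Z' Y').card / Real.log X ^ B' := by
    intro n e s g
    by_cases hcond : n ≤ N ∧ 1 ≤ e ∧ e ≤ N ∧ CO s g
    · obtain ⟨hn, he1, heN, hCO⟩ := hcond
      obtain ⟨A0, h⟩ := hd0 n e he1 s g hCO C' d (hdd n e hn heN)
      exact ⟨A0, fun _ _ _ _ => h⟩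
    · exact ⟨0, fun h1 h2 h3 h4 => absurd ⟨h1, h2, h3, h4⟩ hcond⟩
  choose A0 hA0 using hA
  refine ⟨(range (N + 1)).sup (fun n => (range (N + 1)).sup (fun e => (MS K e n).sup (fun s => (MS K e μ).sup (fun g => A0 n e s g)))), ?_⟩
  intro A D ε hε
  obtain ⟨A1, hA1⟩ : ∃ A1 : ℕ, A1 = (range (N + 1)).sup (fun n => (range (N + 1)).sup (fun e => (MS K e n).sup (fun s =>
    (MS K e μ).sup (fun g => A0 n e s g)))) := ⟨_, rfl⟩
  rw [← hA1]
  have hAle : ∀ n e : ℕ, n ≤ N → e ≤ N → ∀ s ∈ MS K e n, ∀ g ∈ MS K e μ, A0 n e s g ≤ A1 := by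
    intro n e hn he s hs g hg
    rw [hA1]
    refine le_trans ?_ (Finset.le_sup (f := fun n => (range (N + 1)).sup (fun e => (MS K e n).sup (fun s =>
      (MS K e μ).sup (fun g => A0 n e s g)))) (mem_range.2 (by omega : n < N + 1)))
    refine le_trans ?_ (Finset.le_sup (f := fun e => (MS K e n).sup (fun s => (MS K e μ).sup (fun g => A0 n e s g)))
      (mem_range.2 (by omega : e < N + 1)))
    refine le_trans ?_ (Finset.le_sup (f := fun s => (MS K e μ).sup (fun g => A0 n e s g)) hs)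
    exact Finset.le_sup (f := fun g => A0 n e s g) hg
  have hall : ∀ᶠ X : ℕ in atTop, ∀ n ∈ range (N + 1), ∀ e ∈ Icc 1 N, ∀ s ∈ (MS K e n).filter (fun _ => True), ∀ g ∈ MS K e μ, CO s g →
    ∀ b q z a h : ℕ, 1 ≤ q →
    Real.log X ^ (A0 n e s g) ≤ z → (z : ℝ) ≤ Real.log X ^ A → Real.log X ^ ((e : ℝ) + η) ≤ h →
    ∀ (r : Fin e → ℤ) (F : Fin n → ℤ[X]) (Z : Fin n → Fin d → ℤ) (Y : Fin n → Fin d → ℕ) (Z' : Fin μ → ℤ) (Y' : Fin μ → ℕ),
    (∀ i, (F i).natDegree ≤ max D d) → SZ C' X (LP.mk s g r) (fun i k => (F i).eval (k : ℤ)) Z Y Z' Y' (ap b q a h) →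
    (((BA Z Y ×ˢ Box Z' Y').filter (fun ω => ¬ |(((Ioc a (a + h)).filter (fun k => ∀ t,
      (lvp (LP.mk s g r) (pv F ω.1 (b + q * k)) ω.2 t).toNat.Prime)).card : ℝ) -
      PQ b q (toLF (LP.mk s g r) ω.2) F z ω.1 / Vz z ^ e * (h / Real.log X ^ e)| ≤
      ε * (PQ b q (toLF (LP.mk s g r) ω.2) F z ω.1 / Vz z ^ e * (h / Real.log X ^ e)))).card : ℝ) ≤
      (BA Z Y ×ˢ Box Z' Y').card / Real.log X ^ B' := by
    rw [Filter.eventually_all_finset]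
    intro n hn
    rw [Filter.eventually_all_finset]
    intro e he
    rw [Filter.eventually_all_finset]
    intro s _
    rw [Filter.eventually_all_finset]
    intro g _
    rw [mem_range] at hn
    rw [mem_Icc] at he
    by_cases hCO : CO s g
    · filter_upwards [hA0 n e s g (by omega) he.1 he.2 hCO (max D d) A (by have := le_max_right D d; omega) ε hε] with X hX _
      exact hX
    · exact Filter.Eventually.of_forall fun X h => absurd h hCO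
  obtain ⟨R0, hR0⟩ : ∃ R0 : ℕ, R0 = (N + 1) * (N * ((2 * K + 1) ^ (N * N) * (2 * K + 1) ^ ((N + μ) * (N + μ)))) := ⟨_, rfl⟩
  filter_upwards [hall, ev_log_ge 2, ev_log_ge R0] with X hall hL2 hLR0 z hzlow hzup m hm R hR F Z Y Z' Y' hF hside hside'
  obtain ⟨L, hL⟩ : ∃ L, L = Real.log (X : ℝ) := ⟨_, rfl⟩
  have hX0 : (0 : ℝ) ≤ X := Nat.cast_nonneg _
  have hXpos : (0 : ℝ) < X := by
    rcases hX0.lt_or_eq with h | h
    · exact h
    · exfalso
      rw [← h, Real.log_zero] at hL2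
      norm_num at hL2
  rw [← hL] at hall hL2 hLR0 hzlow hzup hm hR hside hside' ⊢
  have hL0 : 0 < L := by linarith
  have hL1 : 1 ≤ L := by linarith
  have hYpos : ∀ i j, 1 ≤ Y i j := by
    intro i j
    have h1 := hside i j
    have h2 : (0 : ℝ) < X / L ^ C := by positivity
    have : (0 : ℝ) < Y i j := lt_of_lt_of_le h2 h1
    exact_mod_cast this
  obtain ⟨W, hW⟩ : ∃ W, W = BA Z Y ×ˢ Box Z' Y' := ⟨_, rfl⟩
  obtain ⟨T, hT⟩ : ∃ T : ℕ, T = ⌊L ^ E⌋₊ := ⟨_, rfl⟩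
  have hLE : (0 : ℝ) < L ^ E := by positivity
  have hTle : (T : ℝ) ≤ L ^ E := by rw [hT]; exact Nat.floor_le hLE.le
  obtain ⟨Q4, hQ4⟩ : ∃ Q4 : Finset (ℕ × ℕ × ℕ × ℕ), Q4 = range (T + 1) ×ˢ range (T + 1) ×ˢ range (T + 1) ×ˢ range (T + 1) := ⟨_, rfl⟩
  obtain ⟨U, hU⟩ : ∃ U : Finset ((Fin m → Fin d → ℤ) × (Fin μ → ℤ)), U = (range (N + 1)).biUnion (fun n =>
    (powersetCard n (univ : Finset (Fin m))).biUnion (fun J => (Icc 1 N).biUnion (fun e => (MS K e J.card).biUnion (fun s' =>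
    (MS K e μ).biUnion (fun g => (Fintype.piFinset fun _ : Fin e => R).biUnion (fun r => Q4.biUnion (fun x =>
      bad C E X z η ε F Z Y Z' Y' J e s' g r x.1 x.2.1 x.2.2.1 x.2.2.2))))))) := ⟨_, rfl⟩
  rw [← hW]
  have hsub : W.filter (fun ω => ∃ (J : Finset (Fin m)) (e : ℕ) (s : Fin e → Fin m → ℤ) (g : Fin e → Fin μ → ℤ)
      (r : Fin e → ℤ), J.card ≤ N ∧ 1 ≤ e ∧ e ≤ N ∧ (∀ t i, |s t i| ≤ K) ∧ (∀ t j, |g t j| ≤ K) ∧ (∀ t, ∀ i, i ∉ J → s t i = 0) ∧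
      (∀ t, r t ∈ R) ∧ CO s g ∧
      (∀ c ∈ BA Z Y, ∀ N' ∈ Box Z' Y', ∀ k : ℕ, 1 ≤ k → (k : ℝ) ≤ L ^ E → ∀ t,
        (X : ℝ) / L ^ C ≤ fvl F c N' s g r k t ∧ (fvl F c N' s g r k t : ℝ) ≤ X * L ^ C) ∧
      ∃ b q a h : ℕ, 1 ≤ q ∧ ((b + q * (a + h) : ℕ) : ℝ) ≤ L ^ E ∧ L ^ ((e : ℝ) + η) ≤ h ∧
      ¬ |(cntL F ω.1 ω.2 s g r b q a h : ℝ) - sgL F ω.1 ω.2 s g r b q z * (h / L ^ e)| ≤
        ε * (sgL F ω.1 ω.2 s g r b q z * (h / L ^ e))) ⊆ U := by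
    intro ω hω
    rw [mem_filter] at hω
    obtain ⟨hωW, J, e, s, g, r, hJN, he1, heN, hsK, hgK, hsJ, hrR, hCO, hrange, b, q, a, h, hq, hbq, hh, hbadω⟩ := hω
    have hle : b + q * (a + h) ≤ T := by
      rw [hT]
      exact Nat.le_floor hbq
    have h1 : a + h ≤ q * (a + h) := Nat.le_mul_of_pos_left _ (by omega)
    have hh0 : 1 ≤ h := by
      have h2 : (0 : ℝ) < h := lt_of_lt_of_le (Real.rpow_pos_of_pos hL0 _) hh
      exact_mod_cast h2
    have h3 : q ≤ q * (a + h) := Nat.le_mul_of_pos_right _ (by omega)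
    rw [hU]
    simp only [mem_biUnion]
    refine ⟨J.card, mem_range.2 (by omega), J, mem_powersetCard.2 ⟨subset_univ _, rfl⟩, e, mem_Icc.2 ⟨he1, heN⟩,
      fun t j => s t (J.orderEmbOfFin rfl j), (mem_MS K e _ _).2 (fun t j => hsK t _), g, (mem_MS K e _ _).2 hgK, r,
      Fintype.mem_piFinset.2 hrR, (b, q, a, h), ?_, ?_⟩
    · rw [hQ4, mem_product, mem_product, mem_product, mem_range, mem_range, mem_range, mem_range]
      simp only
      exact ⟨by omega, by omega, by omega, by omega⟩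
    · unfold bad
      rw [mem_filter, ← hW, ← hL]
      refine ⟨hωW, CO_supp J s g hsJ hCO, ?_, hq, hbq, hh, ?_⟩
      · intro c' hc' N' hN' k hk1 hk2 t
        obtain ⟨c, hc, rfl⟩ := ext_BA J Z Y hYpos c' hc'
        have h4 := hrange c hc N' hN' k hk1 hk2 t
        rw [fvl_supp J F c N' s g r hsJ] at h4
        exact h4
      · rw [cnt_supp J F ω.1 ω.2 s g r hsJ b q a h, sg_supp J F ω.1 ω.2 s g r hsJ b q z]
        exact hbadω
  have hone : ∀ n ∈ range (N + 1), ∀ J ∈ powersetCard n (univ : Finset (Fin m)), ∀ e ∈ Icc 1 N, ∀ s' ∈ MS K e J.card,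
      ∀ g ∈ MS K e μ, ∀ r ∈ (Fintype.piFinset fun _ : Fin e => R), ∀ x ∈ Q4,
      ((bad C E X z η ε F Z Y Z' Y' J e s' g r x.1 x.2.1 x.2.2.1 x.2.2.2).card : ℝ) ≤ W.card / L ^ B' := by
    intro n hn J hJ e he s' hs' g hg r _ x _
    obtain ⟨b, q, a, h⟩ := x
    rw [mem_powersetCard] at hJ
    rw [mem_range] at hn
    rw [mem_Icc] at he
    simp only
    by_cases hx : CO s' g ∧ (∀ c' ∈ BA (fun j => Z (J.orderEmbOfFin rfl j)) (fun j => Y (J.orderEmbOfFin rfl j)), ∀ N' ∈ Box Z' Y', ∀ k : ℕ, 1 ≤ k →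
      (k : ℝ) ≤ L ^ E → ∀ t, (X : ℝ) / L ^ C ≤ lvp (LP.mk s' g r) (pv (rsF J F) c' k) N' t ∧
      (lvp (LP.mk s' g r) (pv (rsF J F) c' k) N' t : ℝ) ≤ X * L ^ C) ∧
      1 ≤ q ∧ ((b + q * (a + h) : ℕ) : ℝ) ≤ L ^ E ∧ L ^ ((e : ℝ) + η) ≤ h
    · obtain ⟨hCO, hrange, hq, hbq, hh⟩ := hx
      have hCC : L ^ C ≤ L ^ C' := pow_le_pow_right₀ hL1 (by omega)
      have hEC : L ^ E ≤ L ^ C' := pow_le_pow_right₀ hL1 (by omega)
      have hdiv : (X : ℝ) / L ^ C' ≤ X / L ^ C := div_le_div_of_nonneg_left hX0 (by positivity) hCC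
      have hpt : ∀ k ∈ ap b q a h, 1 ≤ k ∧ (k : ℝ) ≤ L ^ E := by
        intro k hk
        unfold ap at hk
        rw [mem_image] at hk
        obtain ⟨l, hl, rfl⟩ := hk
        rw [mem_Ioc] at hl
        have h1 : l ≤ q * l := Nat.le_mul_of_pos_left _ (by omega)
        refine ⟨by omega, ?_⟩
        refine le_trans ?_ hbq
        have h2 : b + q * l ≤ b + q * (a + h) := Nat.add_le_add_left (Nat.mul_le_mul_left q hl.2) b
        exact_mod_cast h2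
      have hSZ : SZ C' X (LP.mk s' g r) (fun i k => (rsF J F i).eval (k : ℤ)) (fun j => Z (J.orderEmbOfFin rfl j))
          (fun j => Y (J.orderEmbOfFin rfl j)) Z' Y' (ap b q a h) := by
        constructor
        · intro i j
          rw [← hL]
          exact hdiv.trans (hside _ j)
        · intro j
          rw [← hL]
          exact hdiv.trans (hside' j)
        · intro k hk
          rw [← hL]
          exact (hpt k hk).2.trans hEC
        · intro k hk c hc N' hN' t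
          rw [← hL, ev_pv]
          exact hdiv.trans (hrange c hc N' hN' k (hpt k hk).1 (hpt k hk).2 t).1
        · intro k hk c hc N' hN' t
          rw [← hL, ev_pv]
          exact (hrange c hc N' hN' k (hpt k hk).1 (hpt k hk).2 t).2.trans (mul_le_mul_of_nonneg_left hCC hX0)
      have hzl : L ^ (A0 J.card e s' g) ≤ z :=
        (pow_le_pow_right₀ hL1 (hAle J.card e (by omega) he.2 s' hs' g hg)).trans hzlow
      have h1 := hall J.card (mem_range.2 (by omega)) e (mem_Icc.2 he) s' (mem_filter.2 ⟨hs', trivial⟩) g hg hCO b q z a h hq hzl hzup hh r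
        (rsF J F) (fun j => Z (J.orderEmbOfFin rfl j)) (fun j => Y (J.orderEmbOfFin rfl j)) Z' Y'
        (fun i => (hF _).trans (le_max_left _ _)) hSZ
      have h2 := margP (V := Fin d → ℤ) (fun i => Box (Z i) (Y i)) (J.orderEmbOfFin rfl) (J.orderEmbOfFin rfl).injective (Box Z' Y')
        (fun c N' => ¬ |(((Ioc a (a + h)).filter (fun k => ∀ t, (lvp (LP.mk s' g r) (pv (rsF J F) c (b + q * k)) N' t).toNat.Prime)).card : ℝ) -
          PQ b q (toLF (LP.mk s' g r) N') (rsF J F) z c / Vz z ^ e * (h / L ^ e)| ≤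
          ε * (PQ b q (toLF (LP.mk s' g r) N') (rsF J F) z c / Vz z ^ e * (h / L ^ e))) (1 / L ^ B') (by
          unfold BA at h1
          refine le_trans h1 (le_of_eq ?_)
          ring)
      rw [one_div_mul_eq_div] at h2
      rw [hW]
      unfold BA
      refine le_trans ?_ h2
      unfold bad BA
      rw [← hL]
      exact_mod_cast card_le_card (fun ω hω => by
        rw [mem_filter] at hω ⊢
        exact ⟨hω.1, hω.2.2.2.2.2.2⟩)
    · have : bad C E X z η ε F Z Y Z' Y' J e s' g r b q a h = ∅ := by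
        unfold bad
        rw [filter_eq_empty_iff]
        rintro ω _ ⟨h1, h2, h3, h4, h5, _⟩
        rw [← hL] at h2 h4 h5
        exact hx ⟨h1, h2, h3, h4, h5⟩
      rw [this, card_empty, Nat.cast_zero]
      positivity
  have hW0 : (0 : ℝ) ≤ W.card / L ^ B' := by positivity
  have hQc : (Q4.card : ℝ) ≤ (L ^ (E + 1)) ^ 4 := by
    have h2 : Q4.card = (T + 1) ^ 4 := by
      rw [hQ4]
      simp only [card_product, card_range]
      ring
    rw [h2]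
    push_cast
    apply pow_le_pow_left₀ (by positivity)
    have h3 : (1 : ℝ) ≤ L ^ E := one_le_pow₀ hL1
    rw [pow_succ]
    nlinarith
  have hsum : (U.card : ℝ) ≤ ((N + 1 : ℕ) : ℝ) * ((L ^ E) ^ N * ((N : ℝ) * (((2 * K + 1) ^ (N * N) : ℕ) * ((((2 * K + 1) ^ ((N + μ) * (N + μ)) : ℕ) : ℝ) *
      ((L ^ E) ^ N * ((L ^ (E + 1)) ^ 4 * (W.card / L ^ B'))))))) := by
    rw [hU]
    apply cbu
    · rw [card_range]
    · positivity
    intro n hn
    apply cbu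
    · rw [card_powersetCard, card_univ, Fintype.card_fin]
      have h2 : ((m.choose n : ℕ) : ℝ) ≤ (m : ℝ) ^ n := by exact_mod_cast Nat.choose_le_pow m n
      have h3 : (m : ℝ) ^ n ≤ (L ^ E) ^ n := pow_le_pow_left₀ (Nat.cast_nonneg _) hm n
      rw [mem_range] at hn
      have h4 : (L ^ E) ^ n ≤ (L ^ E) ^ N := pow_le_pow_right₀ (one_le_pow₀ hL1) (by omega)
      linarith
    · positivity
    intro J hJ
    have hJN : J.card ≤ N := by
      rw [mem_powersetCard] at hJ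
      rw [mem_range] at hn
      omega
    apply cbu
    · rw [Nat.card_Icc, Nat.add_sub_cancel]
    · positivity
    intro e he
    have heN : e ≤ N := (mem_Icc.1 he).2
    apply cbu
    · exact_mod_cast card_MS K e J.card N heN hJN
    · positivity
    intro s' hs'
    apply cbu
    · exact_mod_cast card_MS K e μ (N + μ) (by omega) (by omega)
    · positivity
    intro g hg
    apply cbu
    · rw [Fintype.card_piFinset, Finset.prod_const, card_univ, Fintype.card_fin]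
      push_cast
      calc (R.card : ℝ) ^ e ≤ (L ^ E) ^ e := pow_le_pow_left₀ (Nat.cast_nonneg _) hR e
        _ ≤ (L ^ E) ^ N := pow_le_pow_right₀ (one_le_pow₀ hL1) heN
    · positivity
    intro r hr
    apply cbu
    · exact hQc
    · exact hW0
    intro x hx
    exact hone n hn J hJ e he s' hs' g hg r hr x hx
  have h5 := (Nat.cast_le (α := ℝ)).2 (card_le_card hsub)
  refine h5.trans (hsum.trans ?_)
  have hW0 : (0 : ℝ) ≤ W.card := Nat.cast_nonneg _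
  have e1 : L ^ B' = L ^ B * (L * ((L ^ E) ^ N * ((L ^ E) ^ N * (L ^ (E + 1)) ^ 4))) := by
    rw [hB', ← pow_mul, ← pow_mul, ← pow_add, ← pow_add, ← pow_succ', ← pow_add]
    congr 1
    ring
  have e2 : ((N + 1 : ℕ) : ℝ) * ((L ^ E) ^ N * ((N : ℝ) * (((2 * K + 1) ^ (N * N) : ℕ) * ((((2 * K + 1) ^ ((N + μ) * (N + μ)) : ℕ) : ℝ) *
      ((L ^ E) ^ N * ((L ^ (E + 1)) ^ 4 * (W.card / L ^ B'))))))) = (R0 / L) * (W.card / L ^ B) := by
    rw [e1, hR0]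
    push_cast
    field_simp
  rw [e2]
  calc ((R0 : ℝ) / L) * (W.card / L ^ B) ≤ 1 * (W.card / L ^ B) := by
        apply mul_le_mul_of_nonneg_right _ (by positivity)
        rw [div_le_one hL0]
        exact hLR0
    _ = W.card / L ^ B := one_mul _

end Pool.Agent.Q236.LG
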