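import Pool.Agent.Q236.LG.Avg

set_option autoImplicit false

/-!
# Systems of complexity one: the primes minus the model are weakly orthogonal
-/

namespace Pool.Agent.Q236.LG

open Finset Filter
open Pool.Agent.Q236.RP (ev_log_ge ev_pow_log Box mem_Box card_Box)
open Pool.Agent.Q236.CG (BA mem_BA di pri pri_nonneg pri_le mi mi_small cl cl_abs cl_eq DD PP MM DD_sum Orth)

variable {n m d e : ℕ}

/-- complexity one: every form is separated from the others by a direction of the values and a direction of the values and the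
parameters -/
def CO (s : Fin e → Fin n → ℤ) (g : Fin e → Fin m → ℤ) : Prop := ∀ t, ∃ (u w : Fin n → ℤ) (w' : Fin m → ℤ),
  ∑ i, s t i * u i ≠ 0 ∧ ∑ i, s t i * w i + ∑ j, g t j * w' j ≠ 0 ∧
  ∀ t', t' ≠ t → ∑ i, s t' i * u i = 0 ∨ ∑ i, s t' i * w i + ∑ j, g t' j * w' j = 0

/-- **Weak orthogonality** -/
theorem orth_lin (n m e d B C : ℕ) (s : Fin e → Fin n → ℤ) (g : Fin e → Fin m → ℤ) (hCO : CO s g) : ∃ A0 : ℕ, ∀ A : ℕ,
    ∀ᶠ X : ℕ in atTop, ∀ z : ℕ, Real.log X ^ A0 ≤ z → (z : ℝ) ≤ Real.log X ^ A →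
    ∀ (r : Fin e → ℤ) (f : Fin n → ℕ → ℤ) (Z : Fin n → Fin d → ℤ) (Y : Fin n → Fin d → ℕ) (Z' : Fin m → ℤ) (Y' : Fin m → ℕ)
    (S : Finset ℕ), SZ C X (LP.mk s g r) f Z Y Z' Y' S →
    Orth (BA Z Y ×ˢ Box Z' Y') (fun ω k => (ev f ω.1 k, ω.2)) (fun p => DD z (lvp (LP.mk s g r) p.1 p.2)) S d (1 / Real.log X ^ B) := by
  choose u w w' hu hw hk using hCO
  obtain ⟨K, hK⟩ : ∃ K : ℕ, K = ∑ t, (∑ i, ((u t i).natAbs + (w t i).natAbs) + ∑ j, (w' t j).natAbs +
    ((∑ i, s t i * u t i).natAbs + (∑ i, s t i * w t i + ∑ j, g t j * w' t j).natAbs)) := ⟨_, rfl⟩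
  have hKt : ∀ t, ∑ i, ((u t i).natAbs + (w t i).natAbs) + ∑ j, (w' t j).natAbs +
      ((∑ i, s t i * u t i).natAbs + (∑ i, s t i * w t i + ∑ j, g t j * w' t j).natAbs) ≤ K := by
    intro t
    rw [hK]
    exact Finset.single_le_sum (f := fun t => ∑ i, ((u t i).natAbs + (w t i).natAbs) + ∑ j, (w' t j).natAbs +
      ((∑ i, s t i * u t i).natAbs + (∑ i, s t i * w t i + ∑ j, g t j * w' t j).natAbs)) (fun _ _ => Nat.zero_le _) (mem_univ t)
  have hK1 : ∀ t i, |u t i| + |w t i| ≤ K := by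
    intro t i
    have h1 := hKt t
    have h2 : (u t i).natAbs + (w t i).natAbs ≤ ∑ i, ((u t i).natAbs + (w t i).natAbs) :=
      Finset.single_le_sum (f := fun i => (u t i).natAbs + (w t i).natAbs) (fun _ _ => Nat.zero_le _) (mem_univ i)
    rw [← Int.natCast_natAbs, ← Int.natCast_natAbs]
    exact_mod_cast (by omega : (u t i).natAbs + (w t i).natAbs ≤ K)
  have hK2 : ∀ t j, |w' t j| ≤ K := by
    intro t j
    have h1 := hKt t
    have h2 : (w' t j).natAbs ≤ ∑ j, (w' t j).natAbs :=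
      Finset.single_le_sum (f := fun j => (w' t j).natAbs) (fun _ _ => Nat.zero_le _) (mem_univ j)
    rw [← Int.natCast_natAbs]
    exact_mod_cast (by omega : (w' t j).natAbs ≤ K)
  have hK3 : ∀ t, (∑ i, s t i * u t i).natAbs + (∑ i, s t i * w t i + ∑ j, g t j * w' t j).natAbs ≤ K := by
    intro t
    have h1 := hKt t
    omega
  obtain ⟨A0, hA0⟩ := avg_lin n m d e (B + 1) C K
  refine ⟨A0, ?_⟩
  intro A
  filter_upwards [hA0 A, mi_small A C (1 / 2) (by norm_num), ev_log_ge 1, ev_log_ge e, ev_pow_log (C + 1)] with X havg hmi hL1 hLn hP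
    z hz1 hz2 r f Z Y Z' Y' S hsz
  have havg := havg z hz1 hz2
  obtain ⟨L, hL⟩ : ∃ L, L = Real.log (X : ℝ) := ⟨_, rfl⟩
  rw [← hL] at havg hmi hL1 hLn hP hz1 hz2 ⊢
  have hL0 : 0 < L := by linarith
  have hLp : ∀ j : ℕ, 0 < L ^ j := fun j => by positivity
  have hLp1 : ∀ j : ℕ, 1 ≤ L ^ j := fun j => one_le_pow₀ hL1
  have hXp : (0 : ℝ) < X := lt_of_lt_of_le (hLp _) hP
  have hz1' : 1 ≤ z := by
    have : (1 : ℝ) ≤ z := (hLp1 _).trans hz1
    exact_mod_cast this
  have hmi1 : ∀ v : ℤ, (X : ℝ) / L ^ C ≤ v → |mi z v| ≤ 1 := by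
    intro v hv
    have h1 := hmi z v hz1' hz2 hv
    rw [abs_of_nonneg h1.1]
    refine h1.2.trans ?_
    rw [div_le_one hL0]
    calc L ^ (1 / 2 : ℝ) ≤ L ^ (1 : ℝ) := Real.rpow_le_rpow_of_exponent_le hL1 (by norm_num)
      _ = L := Real.rpow_one L
  obtain ⟨Q, hQ⟩ : ∃ Q : LP n m e, Q = LP.mk s g r := ⟨_, rfl⟩
  rw [← hQ] at hsz ⊢
  refine ⟨?_⟩
  intro J' hJ' k0 hk0 hk0J hJ'd G hG hGv
  obtain ⟨W, hW⟩ : ∃ W : ℝ, W = (BA Z Y).card * (Box Z' Y').card := ⟨_, rfl⟩
  have hWc : ((BA Z Y ×ˢ Box Z' Y').card : ℝ) = W := by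
    rw [card_product, hW]
    push_cast
    rfl
  have hW0 : 0 ≤ W := by rw [hW]; positivity
  have hkey : ∀ t0 : Fin e, |∑ ω ∈ BA Z Y ×ˢ Box Z' Y', G ω * (di z (lvp Q (ev f ω.1 k0) ω.2 t0) *
      ((∏ j ∈ univ.filter (fun j => j < t0), pri (lvp Q (ev f ω.1 k0) ω.2 j)) *
        ∏ j ∈ univ.filter (fun j => t0 < j), mi z (lvp Q (ev f ω.1 k0) ω.2 j)))| ≤ W / L ^ (B + 1) := by
    intro t0
    have h1 := havg Q f Z Y Z' Y' J' k0 hk0J hJ'd (hsz.mono (insert_subset hk0 hJ')) t0 (u t0) (w t0) (w' t0) (hK1 t0) (hK2 t0)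
      (by rw [hQ]; exact hK3 t0) (by rw [hQ]; exact hu t0) (by rw [hQ]; exact hw t0) (by rw [hQ]; exact hk t0)
      (fun t v => if t < t0 then pri v else cl (mi z v)) (by
        intro t v
        split_ifs
        · rw [abs_of_nonneg (pri_nonneg _)]
          exact pri_le _
        · exact cl_abs _) (fun c N => cl (G (c, N))) (fun c N => cl_abs _) (by
        intro c c' N hcc
        rw [hGv (c, N) (c', N)]
        intro k hk
        simp only [Prod.mk.injEq, and_true]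
        funext i
        exact hcc k hk i)
    rw [hW]
    refine le_trans (le_of_eq ?_) h1
    rw [Finset.sum_product]
    congr 1
    apply Finset.sum_congr rfl
    intro c hc
    apply Finset.sum_congr rfl
    intro N hN
    rw [cl_eq _ (hG (c, N) (mem_product.2 ⟨hc, hN⟩))]
    congr 2
    have e1 : univ.erase t0 = univ.filter (fun j => j < t0) ∪ univ.filter (fun j => t0 < j) := by
      ext j
      rw [mem_erase, mem_union, mem_filter, mem_filter]
      simp only [mem_univ, true_and, and_true]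
      exact ne_iff_lt_or_gt
    have e2 : Disjoint (univ.filter (fun j => j < t0)) (univ.filter (fun j => t0 < j)) := by
      rw [disjoint_left]
      intro j hj hj'
      exact lt_asymm (mem_filter.1 hj).2 (mem_filter.1 hj').2
    rw [e1, Finset.prod_union e2]
    congr 1
    · apply Finset.prod_congr rfl
      intro j hj
      rw [if_pos (mem_filter.1 hj).2]
    · apply Finset.prod_congr rfl
      intro j hj
      rw [if_neg (not_lt.2 (mem_filter.1 hj).2.le), cl_eq]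
      apply hmi1
      have := hsz.low k0 hk0 c hc N hN j
      rw [← hL] at this
      exact this
  have e0 : ∑ ω ∈ BA Z Y ×ˢ Box Z' Y', G ω * DD z (lvp Q (ev f ω.1 k0) ω.2) = ∑ t0 : Fin e, ∑ ω ∈ BA Z Y ×ˢ Box Z' Y',
      G ω * (di z (lvp Q (ev f ω.1 k0) ω.2 t0) * ((∏ j ∈ univ.filter (fun j => j < t0), pri (lvp Q (ev f ω.1 k0) ω.2 j)) *
        ∏ j ∈ univ.filter (fun j => t0 < j), mi z (lvp Q (ev f ω.1 k0) ω.2 j))) := by
    rw [Finset.sum_comm]
    apply Finset.sum_congr rfl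
    intro ω _
    rw [DD_sum, Finset.mul_sum]
  simp only
  rw [e0, hWc]
  refine (Finset.abs_sum_le_sum_abs _ _).trans ?_
  refine (Finset.sum_le_sum (fun t0 _ => hkey t0)).trans ?_
  rw [Finset.sum_const, card_univ, Fintype.card_fin, nsmul_eq_mul]
  calc (e : ℝ) * (W / L ^ (B + 1)) = (e / L) * (1 / L ^ B * W) := by
        rw [pow_succ]
        field_simp
    _ ≤ 1 * (1 / L ^ B * W) := by
        apply mul_le_mul_of_nonneg_right _ (by positivity)
        rw [div_le_one hL0]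
        exact hLn
    _ = _ := one_mul _

end Pool.Agent.Q236.LG
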