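import Pool.Agent.Q236.GB.Par

set_option autoImplicit false

/-!
# A bilinear inequality and shifts of boxes
-/

namespace Pool.Agent.Q236.LG

open Finset Pool.Agent.H807R2.Dav
open Pool.Agent.H373R2.T7 (orth sq_expand)
open Pool.Agent.Q236.RP (Box mem_Box card_Box)
open Pool.Agent.Q236.CG (BA mem_BA sum_upd shift_sum')

/-- Parseval on `range N` -/
lemma par_range (N M : ℕ) (s : ℤ) (hs : s ≠ 0) (hM : s.natAbs * N < M) (c : ℕ → ℝ) (hc : ∀ x, |c x| ≤ 1) :
    ∑ t ∈ range M, ‖∑ x ∈ range N, ((c x : ℝ) : ℂ) * ee ((t : ℝ) * (((-(s * x) : ℤ) : ℝ) / M))‖ ^ 2 ≤ M * N := by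
  have hM1 : 1 ≤ M := by omega
  have h := sq_expand (range N) (fun x => ((c x : ℝ) : ℂ)) (fun w : ℕ => -(s * (w : ℤ))) M hM1
  have e1 : ∀ i ∈ range N, ∑ j ∈ range N, ((c i : ℝ) : ℂ) * (starRingEnd ℂ) ((c j : ℝ) : ℂ) * (if (M : ℤ) ∣ -(s * (i : ℤ)) - -(s * (j : ℤ)) then (M : ℂ) else 0) =
      M * ((c i ^ 2 : ℝ) : ℂ) := by
    intro i hi
    rw [Finset.sum_eq_single i]
    · rw [if_pos (by rw [sub_self]; exact dvd_zero _), Complex.conj_ofReal]
      push_cast
      ring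
    · intro j hj hne
      rw [if_neg, mul_zero]
      intro hd
      rw [mem_range] at hi hj
      have e : -(s * (i : ℤ)) - -(s * (j : ℤ)) = s * ((j : ℤ) - i) := by ring
      rw [e] at hd
      have h0 := Int.eq_zero_of_abs_lt_dvd hd (by
        rw [abs_mul, ← Int.natCast_natAbs s]
        have a1 : |(j : ℤ) - i| ≤ N := by
          rw [abs_le]
          constructor <;> omega
        calc (s.natAbs : ℤ) * |(j : ℤ) - i| ≤ s.natAbs * N := mul_le_mul_of_nonneg_left a1 (Int.natCast_nonneg _)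
          _ < M := by exact_mod_cast hM)
      rcases mul_eq_zero.1 h0 with h1 | h1
      · exact hs h1
      · apply hne
        omega
    · intro hn
      exact absurd hi hn
  rw [Finset.sum_congr rfl e1, ← Finset.mul_sum] at h
  have h3 : ((∑ t ∈ range M, ‖∑ x ∈ range N, ((c x : ℝ) : ℂ) * ee ((t : ℝ) * (((-(s * x) : ℤ) : ℝ) / M))‖ ^ 2 : ℝ) : ℂ) =
      ((M * ∑ x ∈ range N, c x ^ 2 : ℝ) : ℂ) := by
    rw [h]
    push_cast
    rfl
  have h4 : ∑ t ∈ range M, ‖∑ x ∈ range N, ((c x : ℝ) : ℂ) * ee ((t : ℝ) * (((-(s * x) : ℤ) : ℝ) / M))‖ ^ 2 =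
      M * ∑ x ∈ range N, c x ^ 2 := by exact_mod_cast h3
  rw [h4]
  apply mul_le_mul_of_nonneg_left _ (Nat.cast_nonneg _)
  calc ∑ x ∈ range N, c x ^ 2 ≤ ∑ _x ∈ range N, (1 : ℝ) := by
        apply Finset.sum_le_sum
        intro x _
        rw [← sq_abs]
        exact pow_le_one₀ (abs_nonneg _) (hc x)
    _ = N := by simp

/-- **The bilinear inequality.** -/
theorem bil (N M : ℕ) (α β lo : ℤ) (hα : α ≠ 0) (hβ : β ≠ 0) (hαM : α.natAbs * N < M) (hβM : β.natAbs * N < M)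
    (hlo : ∀ x y : ℕ, x < N → y < N → lo ≤ α * x + β * y ∧ α * x + β * y < lo + M) (f : ℤ → ℝ) (A B : ℕ → ℝ)
    (hA : ∀ x, |A x| ≤ 1) (hB : ∀ y, |B y| ≤ 1) (S : ℝ)
    (hS : ∀ θ : ℝ, ‖∑ m ∈ range M, ((f (lo + m) : ℝ) : ℂ) * ee ((m : ℝ) * θ)‖ ≤ S) :
    |∑ x ∈ range N, ∑ y ∈ range N, f (α * x + β * y) * (A x * B y)| ≤ S * N := by
  have hM1 : 1 ≤ M := by omega
  have hM0 : (0 : ℝ) < M := by exact_mod_cast hM1
  have hS0 : 0 ≤ S := (norm_nonneg _).trans (hS 0)
  obtain ⟨fh, hfh⟩ : ∃ fh : ℕ → ℂ, fh = fun t : ℕ => ∑ m ∈ range M, ((f (lo + m) : ℝ) : ℂ) * ee ((m : ℝ) * ((t : ℝ) / M)) := ⟨_, rfl⟩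
  obtain ⟨Ah, hAh⟩ : ∃ Ah : ℕ → ℂ, Ah = fun t : ℕ => ∑ x ∈ range N, ((A x : ℝ) : ℂ) * ee ((t : ℝ) * (((-(α * x) : ℤ) : ℝ) / M)) := ⟨_, rfl⟩
  obtain ⟨Bh, hBh⟩ : ∃ Bh : ℕ → ℂ, Bh = fun t : ℕ => ∑ y ∈ range N, ((B y : ℝ) : ℂ) * ee ((t : ℝ) * (((-(β * y) : ℤ) : ℝ) / M)) := ⟨_, rfl⟩
  obtain ⟨P, hP⟩ : ∃ P, P = (range N ×ˢ range N) ×ˢ range M := ⟨_, rfl⟩
  have e1 : ∀ t : ℕ, ee ((t : ℝ) * ((lo : ℝ) / M)) * (Ah t * Bh t * fh t) =
      ∑ p ∈ P, (((A p.1.1 : ℝ) : ℂ) * ((B p.1.2 : ℝ) : ℂ) * ((f (lo + p.2) : ℝ) : ℂ)) *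
        ee ((t : ℝ) * (((lo + p.2 - (α * p.1.1 + β * p.1.2) : ℤ) : ℝ) / M)) := by
    intro t
    rw [hAh, hBh, hfh, hP]
    simp only
    rw [Finset.sum_mul_sum, ← Finset.sum_product', Finset.sum_mul_sum, ← Finset.sum_product', Finset.mul_sum]
    apply Finset.sum_congr rfl
    intro p _
    have e2 : (t : ℝ) * (((lo + p.2 - (α * p.1.1 + β * p.1.2) : ℤ) : ℝ) / M) = (t : ℝ) * ((lo : ℝ) / M) +
        ((t : ℝ) * (((-(α * p.1.1) : ℤ) : ℝ) / M) + ((t : ℝ) * (((-(β * p.1.2) : ℤ) : ℝ) / M) + (p.2 : ℝ) * ((t : ℝ) / M))) := by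
      push_cast
      ring
    rw [e2, ee_add, ee_add, ee_add]
    ring
  have hid : (M : ℂ) * ((∑ x ∈ range N, ∑ y ∈ range N, f (α * x + β * y) * (A x * B y) : ℝ) : ℂ) =
      ∑ t ∈ range M, ee ((t : ℝ) * ((lo : ℝ) / M)) * (Ah t * Bh t * fh t) := by
    rw [Finset.sum_congr rfl (fun t _ => e1 t), Finset.sum_comm (s := range M) (t := P)]
    have e2 : ∀ p ∈ P, ∑ t ∈ range M, (((A p.1.1 : ℝ) : ℂ) * ((B p.1.2 : ℝ) : ℂ) * ((f (lo + p.2) : ℝ) : ℂ)) *
        ee ((t : ℝ) * (((lo + p.2 - (α * p.1.1 + β * p.1.2) : ℤ) : ℝ) / M)) =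
        (((A p.1.1 : ℝ) : ℂ) * ((B p.1.2 : ℝ) : ℂ) * ((f (lo + p.2) : ℝ) : ℂ)) *
          (if (M : ℤ) ∣ lo + p.2 - (α * p.1.1 + β * p.1.2) then (M : ℂ) else 0) := by
      intro p _
      rw [← Finset.mul_sum, orth M hM1]
    rw [Finset.sum_congr rfl e2, hP, Finset.sum_product]
    push_cast
    rw [← Finset.sum_product', Finset.mul_sum]
    apply Finset.sum_congr rfl
    rintro ⟨x, y⟩ hxy
    rw [mem_product, mem_range, mem_range] at hxy
    obtain ⟨h1, h2⟩ := hlo x y hxy.1 hxy.2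
    simp only
    rw [Finset.sum_eq_single (α * x + β * y - lo).toNat]
    · have e3 : (((α * x + β * y - lo).toNat : ℕ) : ℤ) = α * x + β * y - lo := Int.toNat_of_nonneg (by omega)
      rw [e3, if_pos (by
        have : lo + (α * x + β * y - lo) - (α * x + β * y) = 0 := by ring
        rw [this]
        exact dvd_zero _)]
      have e4 : lo + (α * (x : ℤ) + β * y - lo) = α * x + β * y := by ring
      rw [e4]
      ring
    · intro m hm hne
      rw [mem_range] at hm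
      rw [if_neg, mul_zero]
      intro hd
      have h3 := Int.eq_zero_of_abs_lt_dvd hd (by
        rw [abs_lt]
        constructor <;> omega)
      apply hne
      omega
    · intro hn
      exfalso
      apply hn
      rw [mem_range]
      omega
  have hSf : ∀ t, ‖fh t‖ ≤ S := by
    intro t
    rw [hfh]
    exact hS _
  have hPA := par_range N M α hα hαM A hA
  have hPB := par_range N M β hβ hβM B hB
  have h1 : (M : ℝ) * |∑ x ∈ range N, ∑ y ∈ range N, f (α * x + β * y) * (A x * B y)| ≤ M * (S * N) := by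
    have h2 : ‖(M : ℂ) * ((∑ x ∈ range N, ∑ y ∈ range N, f (α * x + β * y) * (A x * B y) : ℝ) : ℂ)‖ =
        (M : ℝ) * |∑ x ∈ range N, ∑ y ∈ range N, f (α * x + β * y) * (A x * B y)| := by
      rw [norm_mul, Complex.norm_natCast, Complex.norm_real, Real.norm_eq_abs]
    rw [← h2, hid]
    refine (norm_sum_le _ _).trans ?_
    calc ∑ t ∈ range M, ‖ee ((t : ℝ) * ((lo : ℝ) / M)) * (Ah t * Bh t * fh t)‖ ≤
        ∑ t ∈ range M, (S / 2 * ‖Ah t‖ ^ 2 + S / 2 * ‖Bh t‖ ^ 2) := by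
          apply Finset.sum_le_sum
          intro t _
          rw [norm_mul, norm_ee, one_mul, norm_mul, norm_mul]
          have h3 : ‖Ah t‖ * ‖Bh t‖ * ‖fh t‖ ≤ ‖Ah t‖ * ‖Bh t‖ * S := mul_le_mul_of_nonneg_left (hSf t) (by positivity)
          have h4 := two_mul_le_add_sq ‖Ah t‖ ‖Bh t‖
          nlinarith
      _ = S / 2 * ∑ t ∈ range M, ‖Ah t‖ ^ 2 + S / 2 * ∑ t ∈ range M, ‖Bh t‖ ^ 2 := by
          rw [Finset.sum_add_distrib, Finset.mul_sum, Finset.mul_sum]
      _ ≤ S / 2 * (M * N) + S / 2 * (M * N) := by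
          rw [hAh, hBh]
          exact add_le_add (mul_le_mul_of_nonneg_left hPA (by positivity)) (mul_le_mul_of_nonneg_left hPB (by positivity))
      _ = M * (S * N) := by ring
  exact le_of_mul_le_mul_left h1 hM0

/-- the restriction of a shift to some rows -/
def rs {n d : ℕ} (I : Finset (Fin n)) (v : Fin n → Fin d → ℤ) : Fin n → Fin d → ℤ := fun i => if i ∈ I then v i else 0

/-- shifts of arrays -/
theorem shift_BA {n d : ℕ} (Z : Fin n → Fin d → ℤ) (Y : Fin n → Fin d → ℕ) (hY : ∀ i j, 1 ≤ Y i j) (v : Fin n → Fin d → ℤ)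
    (F : (Fin n → Fin d → ℤ) → ℝ) (hF : ∀ c, |F c| ≤ 1) (δ : ℝ) (hδ : ∀ i, ∑ j, |(v i j : ℝ)| / Y i j ≤ δ) :
    |∑ c ∈ BA Z Y, F (c + v) - ∑ c ∈ BA Z Y, F c| ≤ n * (2 * (δ * (BA Z Y).card)) := by
  have key : ∀ I : Finset (Fin n), |∑ c ∈ BA Z Y, F (c + rs I v) - ∑ c ∈ BA Z Y, F c| ≤ I.card * (2 * (δ * (BA Z Y).card)) := by
    intro I
    induction I using Finset.induction_on with
    | empty =>
      have e : rs (∅ : Finset (Fin n)) v = 0 := by
        funext i
        unfold rs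
        rw [if_neg (notMem_empty i)]
        rfl
      rw [e]
      simp
    | insert i I hi ih =>
      have hcard : (0 : ℝ) < (Box (Z i) (Y i)).card := by
        rw [card_Box]
        push_cast
        apply Finset.prod_pos
        intro j _
        exact_mod_cast hY i j
      have h1 : |∑ c ∈ BA Z Y, F (c + rs (insert i I) v) - ∑ c ∈ BA Z Y, F (c + rs I v)| ≤ 2 * (δ * (BA Z Y).card) := by
        have h2 := sum_upd Z Y i (fun c => F (c + rs (insert i I) v))
        have h3 := sum_upd Z Y i (fun c => F (c + rs I v))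
        have h4 : |∑ c ∈ BA Z Y, ∑ b ∈ Box (Z i) (Y i), F (Function.update c i b + rs (insert i I) v) -
            ∑ c ∈ BA Z Y, ∑ b ∈ Box (Z i) (Y i), F (Function.update c i b + rs I v)| ≤
            ∑ _c ∈ BA Z Y, 2 * (δ * (Box (Z i) (Y i)).card) := by
          rw [← Finset.sum_sub_distrib]
          refine (Finset.abs_sum_le_sum_abs _ _).trans (Finset.sum_le_sum ?_)
          intro c _
          have h5 := shift_sum' (Z i) (Y i) (hY i) (v i) (fun b => F (Function.update c i b + rs I v)) (fun b => hF _)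
          have e1 : ∀ b, Function.update c i b + rs (insert i I) v = Function.update c i (b + v i) + rs I v := by
            intro b
            funext j
            rw [Pi.add_apply, Pi.add_apply]
            unfold rs
            by_cases hj : j = i
            · rw [hj, Function.update_self, Function.update_self, if_pos (mem_insert_self i I), if_neg hi, add_zero]
            · rw [Function.update_of_ne hj, Function.update_of_ne hj]
              by_cases hjI : j ∈ I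
              · rw [if_pos (mem_insert_of_mem hjI), if_pos hjI]
              · rw [if_neg (by rw [mem_insert]; tauto), if_neg hjI]
          simp only [e1]
          refine h5.trans ?_
          have := hδ i
          have h6 : (0 : ℝ) ≤ (Box (Z i) (Y i)).card := Nat.cast_nonneg _
          nlinarith [mul_le_mul_of_nonneg_right this h6]
        rw [h2, h3, Finset.sum_const, nsmul_eq_mul, ← mul_sub, abs_mul, abs_of_pos hcard] at h4
        have h5 : ((Box (Z i) (Y i)).card : ℝ) * |∑ c ∈ BA Z Y, F (c + rs (insert i I) v) - ∑ c ∈ BA Z Y, F (c + rs I v)| ≤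
            (Box (Z i) (Y i)).card * (2 * (δ * (BA Z Y).card)) := by
          refine h4.trans (le_of_eq ?_)
          ring
        exact le_of_mul_le_mul_left h5 hcard
      rw [card_insert_of_notMem hi]
      have h2 := abs_add_le (∑ c ∈ BA Z Y, F (c + rs (insert i I) v) - ∑ c ∈ BA Z Y, F (c + rs I v)) (∑ c ∈ BA Z Y, F (c + rs I v) - ∑ c ∈ BA Z Y, F c)
      rw [sub_add_sub_cancel] at h2
      push_cast
      linarith
  have h1 := key univ
  have e : rs (univ : Finset (Fin n)) v = v := by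
    funext i
    unfold rs
    rw [if_pos (mem_univ i)]
  rw [e, card_univ, Fintype.card_fin] at h1
  exact h1

end Pool.Agent.Q236.LG
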