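import Pool.Agent.Q236.LG.Ap
import Pool.Agent.Q236.LG.Bil

set_option autoImplicit false

/-!
# Averages over arrays of coefficients and parameters: one factor primes minus model
-/

namespace Pool.Agent.Q236.LG

open Finset Filter Pool.Agent.H807R2.Dav
open Pool.Agent.Q236.RP (ev_log_ge ev_pow_log Box mem_Box card_Box sv sv_sum vp_coeff_le)
open Pool.Agent.Q236.CG (BA mem_BA shift_sum' evm evm_sv di di_eq pri pri_nonneg pri_le mi mi_small cl cl_abs cl_eq)

variable {n m d e : ℕ}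

/-- a system of `e` affine forms in `n` values and `m` parameters -/
structure LP (n m e : ℕ) where
  /-- the coefficients of the values -/
  s : Fin e → Fin n → ℤ
  /-- the coefficients of the parameters -/
  g : Fin e → Fin m → ℤ
  /-- the constant terms -/
  r : Fin e → ℤ

/-- the value of a form -/
def lvp (A : LP n m e) (v : Fin n → ℤ) (N : Fin m → ℤ) (t : Fin e) : ℤ := ∑ i, A.s t i * v i + ∑ j, A.g t j * N j + A.r t

/-- the values of the polynomials at `k` -/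
def ev (f : Fin n → ℕ → ℤ) (c : Fin n → Fin d → ℤ) (k : ℕ) (i : Fin n) : ℤ := f i k + ∑ j, c i j * (k : ℤ) ^ (j : ℕ)

lemma ev_eq (f : Fin n → ℕ → ℤ) (c : Fin n → Fin d → ℤ) (k : ℕ) (i : Fin n) : ev f c k i = evm (f i) 1 (c i) k := by
  unfold ev evm
  rw [one_mul]

/-- the shift of the arrays -/
noncomputable def VV (n d : ℕ) (S : Finset ℕ) (τ : Fin n → ℤ) : Fin n → Fin d → ℤ := fun i => sv d 1 S (τ i)

lemma ev_shift (f : Fin n → ℕ → ℤ) (c : Fin n → Fin d → ℤ) (S : Finset ℕ) (hS : S.card < d) (τ : Fin n → ℤ) (k : ℕ) (i : Fin n) :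
    ev f (c + VV n d S τ) k i = ev f c k i + τ i * ∏ s ∈ S, ((k : ℤ) - s) := by
  rw [ev_eq, ev_eq]
  have h := evm_sv (f i) 1 (c i) S hS (τ i) k
  rw [one_mul] at h
  exact h

lemma lvp_shift (A : LP n m e) (v : Fin n → ℤ) (N : Fin m → ℤ) (D x y : ℤ) (u w : Fin n → ℤ) (w' : Fin m → ℤ) (t : Fin e) :
    lvp A (fun i => v i + (u i * x + w i * y) * D) (fun j => N j + y * D * w' j) t =
      lvp A v N t + D * ((∑ i, A.s t i * u i) * x + (∑ i, A.s t i * w i + ∑ j, A.g t j * w' j) * y) := by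
  unfold lvp
  have e1 : ∑ i, A.s t i * (v i + (u i * x + w i * y) * D) = ∑ i, A.s t i * v i + D * ((∑ i, A.s t i * u i) * x + (∑ i, A.s t i * w i) * y) := by
    rw [Finset.sum_mul, Finset.sum_mul, ← Finset.sum_add_distrib, Finset.mul_sum, ← Finset.sum_add_distrib]
    apply Finset.sum_congr rfl
    intro i _
    ring
  have e2 : ∑ j, A.g t j * (N j + y * D * w' j) = ∑ j, A.g t j * N j + D * ((∑ j, A.g t j * w' j) * y) := by
    rw [Finset.sum_mul, Finset.mul_sum, ← Finset.sum_add_distrib]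
    apply Finset.sum_congr rfl
    intro j _
    ring
  rw [e1, e2]
  ring

/-- sizes -/
structure SZ (C X : ℕ) (A : LP n m e) (f : Fin n → ℕ → ℤ) (Z : Fin n → Fin d → ℤ) (Y : Fin n → Fin d → ℕ) (Z' : Fin m → ℤ)
    (Y' : Fin m → ℕ) (S : Finset ℕ) : Prop where
  side : ∀ i j, (X : ℝ) / Real.log X ^ C ≤ Y i j
  side' : ∀ j, (X : ℝ) / Real.log X ^ C ≤ Y' j
  pts : ∀ k ∈ S, (k : ℝ) ≤ Real.log X ^ C
  low : ∀ k ∈ S, ∀ c ∈ BA Z Y, ∀ N ∈ Box Z' Y', ∀ t, (X : ℝ) / Real.log X ^ C ≤ lvp A (ev f c k) N t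
  up : ∀ k ∈ S, ∀ c ∈ BA Z Y, ∀ N ∈ Box Z' Y', ∀ t, (lvp A (ev f c k) N t : ℝ) ≤ X * Real.log X ^ C

lemma SZ.mono {C X : ℕ} {A : LP n m e} {f : Fin n → ℕ → ℤ} {Z : Fin n → Fin d → ℤ} {Y : Fin n → Fin d → ℕ} {Z' : Fin m → ℤ}
    {Y' : Fin m → ℕ} {S T : Finset ℕ} (h : SZ C X A f Z Y Z' Y' S) (hT : T ⊆ S) : SZ C X A f Z Y Z' Y' T :=
  ⟨h.side, h.side', fun k hk => h.pts k (hT hk), fun k hk => h.low k (hT hk), fun k hk => h.up k (hT hk)⟩

/-- the range of a binary linear form -/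
lemma bin_range (α β : ℤ) (N x y : ℕ) (hx : x < N) (hy : y < N) :
    min α 0 * N + min β 0 * N ≤ α * x + β * y ∧ α * x + β * y ≤ min α 0 * N + min β 0 * N + (α.natAbs + β.natAbs : ℕ) * N := by
  have key : ∀ (γ : ℤ) (w : ℕ), w < N → min γ 0 * N ≤ γ * w ∧ γ * w ≤ min γ 0 * N + (γ.natAbs : ℕ) * N := by
    intro γ w hw
    have hw' : (w : ℤ) ≤ N := by exact_mod_cast hw.le
    have hw0 : (0 : ℤ) ≤ w := Int.natCast_nonneg w
    rcases le_total γ 0 with h | h
    · rw [min_eq_left h]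
      have e : ((γ.natAbs : ℕ) : ℤ) = -γ := by rw [Int.natCast_natAbs, abs_of_nonpos h]
      rw [e]
      constructor <;> nlinarith
    · rw [min_eq_right h]
      have e : ((γ.natAbs : ℕ) : ℤ) = γ := by rw [Int.natCast_natAbs, abs_of_nonneg h]
      rw [e]
      constructor <;> nlinarith
  obtain ⟨h1, h2⟩ := key α x hx
  obtain ⟨h3, h4⟩ := key β y hy
  push_cast at *
  constructor <;> nlinarith

/-- **One factor** -/
theorem avg_lin (n m d e B C K : ℕ) : ∃ A0 : ℕ, ∀ A : ℕ, ∀ᶠ X : ℕ in atTop, ∀ z : ℕ, Real.log X ^ A0 ≤ z →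
    (z : ℝ) ≤ Real.log X ^ A → ∀ (Q : LP n m e) (f : Fin n → ℕ → ℤ) (Z : Fin n → Fin d → ℤ) (Y : Fin n → Fin d → ℕ)
    (Z' : Fin m → ℤ) (Y' : Fin m → ℕ) (J' : Finset ℕ) (k0 : ℕ), k0 ∉ J' → J'.card < d → SZ C X Q f Z Y Z' Y' (insert k0 J') →
    ∀ (t0 : Fin e) (u w : Fin n → ℤ) (w' : Fin m → ℤ), (∀ i, |u i| + |w i| ≤ K) → (∀ j, |w' j| ≤ K) →
    (∑ i, Q.s t0 i * u i).natAbs + (∑ i, Q.s t0 i * w i + ∑ j, Q.g t0 j * w' j).natAbs ≤ K →
    ∑ i, Q.s t0 i * u i ≠ 0 → ∑ i, Q.s t0 i * w i + ∑ j, Q.g t0 j * w' j ≠ 0 →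
    (∀ t, t ≠ t0 → ∑ i, Q.s t i * u i = 0 ∨ ∑ i, Q.s t i * w i + ∑ j, Q.g t j * w' j = 0) →
    ∀ φ : Fin e → ℤ → ℝ, (∀ t v, |φ t v| ≤ 1) → ∀ G : (Fin n → Fin d → ℤ) → (Fin m → ℤ) → ℝ, (∀ c N, |G c N| ≤ 1) →
    (∀ c c' N, (∀ k ∈ J', ∀ i, ev f c k i = ev f c' k i) → G c N = G c' N) →
    |∑ c ∈ BA Z Y, ∑ N ∈ Box Z' Y', G c N * (di z (lvp Q (ev f c k0) N t0) * ∏ t ∈ univ.erase t0, φ t (lvp Q (ev f c k0) N t))| ≤
      (BA Z Y).card * (Box Z' Y').card / Real.log X ^ B := by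
  obtain ⟨U1, hU1⟩ : ∃ U1, U1 = 2 * (C * d) + C + B + 6 := ⟨_, rfl⟩
  obtain ⟨V, hV⟩ : ∃ V, V = U1 + B + 2 := ⟨_, rfl⟩
  obtain ⟨A0, hA0⟩ := ap_sup V (C + 1)
  refine ⟨A0 + 1, ?_⟩
  intro A
  filter_upwards [hA0 A, mi_small A (C + 1) (1 / 2) (by norm_num), ev_log_ge 16, ev_log_ge (2 ^ d), ev_log_ge K,
    ev_log_ge (2 * (n * d + m) + 1 : ℕ), ev_pow_log (U1 + 1)] with X hsup hmi hL16 hL2d hLK hLnd hP z hz1 hz2 Q f Z Y Z' Y' J' k0 hk0 hJ'd
    hsz t0 u w w' huw hw' hαβ hα hβ hkill φ hφ G hG hGv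
  have hL1 : 1 ≤ Real.log X := by linarith
  have hsup := hsup z ((pow_le_pow_right₀ hL1 (by omega)).trans hz1) hz2
  obtain ⟨L, hL⟩ : ∃ L, L = Real.log (X : ℝ) := ⟨_, rfl⟩
  have side := hsz.side
  have side' := hsz.side'
  have pts := hsz.pts
  have low := hsz.low k0 (mem_insert_self _ _)
  have up := hsz.up k0 (mem_insert_self _ _)
  rw [← hL] at hsup hmi hL16 hL2d hLK hLnd hP hz1 hz2 hL1 side side' pts low up ⊢
  have hL0 : 0 < L := by linarith
  have hX1 : (1 : ℝ) ≤ X := (one_le_pow₀ hL1).trans hP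
  have hX0 : (0 : ℝ) < X := by linarith
  have hLp : ∀ j : ℕ, 0 < L ^ j := fun j => by positivity
  have hLp1 : ∀ j : ℕ, 1 ≤ L ^ j := fun j => one_le_pow₀ hL1
  have hLL : ∀ {i j : ℕ}, i ≤ j → L ^ i ≤ L ^ j := fun h => pow_le_pow_right₀ hL1 h
  have hz1' : 1 ≤ z := by
    have : (1 : ℝ) ≤ z := (hLp1 _).trans hz1
    exact_mod_cast this
  have hYpos : ∀ i j, 1 ≤ Y i j := by
    intro i j
    have h1 := side i j
    have h2 : (0 : ℝ) < X / L ^ C := by positivity
    have : (0 : ℝ) < Y i j := lt_of_lt_of_le h2 h1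
    exact_mod_cast this
  have hYpos' : ∀ j, 1 ≤ Y' j := by
    intro j
    have h1 := side' j
    have h2 : (0 : ℝ) < X / L ^ C := by positivity
    have : (0 : ℝ) < Y' j := lt_of_lt_of_le h2 h1
    exact_mod_cast this
  -- the number of shifts
  obtain ⟨N0, hN⟩ : ∃ N0, N0 = ⌊(X : ℝ) / L ^ U1⌋₊ := ⟨_, rfl⟩
  have hXU : 1 ≤ (X : ℝ) / L ^ U1 := by
    rw [one_le_div (hLp _)]
    exact (hLL (by omega)).trans hP
  have hN1 : 1 ≤ N0 := by
    rw [hN]
    exact Nat.floor_pos.2 hXU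
  have hNle : (N0 : ℝ) ≤ X / L ^ U1 := by rw [hN]; exact Nat.floor_le (by positivity)
  have hNge : (X : ℝ) / L ^ U1 ≤ 2 * N0 := by
    have h1 := Nat.lt_floor_add_one ((X : ℝ) / L ^ U1)
    rw [← hN] at h1
    have : (1 : ℝ) ≤ N0 := by exact_mod_cast hN1
    linarith
  have hN0 : (0 : ℝ) < N0 := by exact_mod_cast hN1
  -- the direction
  obtain ⟨D, hD⟩ : ∃ D : ℤ, D = ∏ s ∈ J', ((k0 : ℤ) - s) := ⟨_, rfl⟩
  have hD0 : D ≠ 0 := by
    rw [hD, Finset.prod_ne_zero_iff]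
    intro s hs
    have : s ≠ k0 := fun h => hk0 (h ▸ hs)
    omega
  have hDabs : |(D : ℝ)| ≤ L ^ (C * d) := by
    rw [hD]
    push_cast
    rw [Finset.abs_prod]
    calc ∏ s ∈ J', |(k0 : ℝ) - s| ≤ ∏ _s ∈ J', L ^ C := by
          apply Finset.prod_le_prod (fun s _ => abs_nonneg _)
          intro s hs
          have h1 := pts k0 (mem_insert_self _ _)
          have h2 := pts s (mem_insert_of_mem hs)
          rw [abs_le]
          have : (0 : ℝ) ≤ s := Nat.cast_nonneg s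
          have : (0 : ℝ) ≤ k0 := Nat.cast_nonneg k0
          constructor <;> linarith
      _ = L ^ (C * J'.card) := by rw [Finset.prod_const, ← pow_mul]
      _ ≤ L ^ (C * d) := hLL (Nat.mul_le_mul_left C hJ'd.le)
  -- the shift vectors
  have hcoef : ∀ (τ : ℤ) (j : Fin d), |(sv d 1 J' τ j : ℝ)| ≤ |(τ : ℝ)| * L ^ (C * d + 1) := by
    intro τ j
    unfold sv
    push_cast
    rw [mul_one, abs_mul]
    apply mul_le_mul_of_nonneg_left _ (abs_nonneg _)
    obtain ⟨K, hK⟩ : ∃ K, K = ⌊L ^ C⌋₊ := ⟨_, rfl⟩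
    have hKL : (K : ℝ) ≤ L ^ C := by rw [hK]; exact Nat.floor_le (hLp _).le
    have h1 := vp_coeff_le K J' (by
      intro s hs
      rw [hK]
      exact Nat.le_floor (pts s (mem_insert_of_mem hs))) j
    have h2 : |((Pool.Agent.Q236.RP.vp J').coeff j : ℝ)| ≤ ((K : ℝ) + 1) ^ J'.card := by exact_mod_cast h1
    refine h2.trans ?_
    calc ((K : ℝ) + 1) ^ J'.card ≤ (2 * L ^ C) ^ J'.card := by
          apply pow_le_pow_left₀ (by positivity)
          have := hLp1 C
          linarith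
      _ ≤ (2 * L ^ C) ^ d := by
          apply pow_le_pow_right₀ _ hJ'd.le
          have := hLp1 C
          linarith
      _ = 2 ^ d * L ^ (C * d) := by rw [mul_pow, ← pow_mul]
      _ ≤ L * L ^ (C * d) := mul_le_mul_of_nonneg_right hL2d (hLp _).le
      _ = L ^ (C * d + 1) := by ring
  obtain ⟨τ, hτ⟩ : ∃ τ : ℕ → ℕ → Fin n → ℤ, τ = fun (x y : ℕ) i => u i * (x : ℤ) + w i * (y : ℤ) := ⟨_, rfl⟩
  have hτb : ∀ x y : ℕ, x < N0 → y < N0 → ∀ i, |(τ x y i : ℝ)| ≤ L * N0 := by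
    intro x y hx hy i
    rw [hτ]
    push_cast
    have hx' : (x : ℝ) ≤ N0 := by exact_mod_cast hx.le
    have hy' : (y : ℝ) ≤ N0 := by exact_mod_cast hy.le
    have hx0 : (0 : ℝ) ≤ x := Nat.cast_nonneg x
    have hy0 : (0 : ℝ) ≤ y := Nat.cast_nonneg y
    have h1 : |(u i : ℝ)| + |(w i : ℝ)| ≤ K := by exact_mod_cast huw i
    calc |(u i : ℝ) * x + w i * y| ≤ |(u i : ℝ) * x| + |(w i : ℝ) * y| := abs_add_le _ _
      _ = |(u i : ℝ)| * x + |(w i : ℝ)| * y := by rw [abs_mul, abs_mul, abs_of_nonneg hx0, abs_of_nonneg hy0]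
      _ ≤ |(u i : ℝ)| * N0 + |(w i : ℝ)| * N0 := by gcongr
      _ = (|(u i : ℝ)| + |(w i : ℝ)|) * N0 := by ring
      _ ≤ K * N0 := mul_le_mul_of_nonneg_right h1 hN0.le
      _ ≤ L * N0 := mul_le_mul_of_nonneg_right hLK hN0.le
  have herr : ∀ x y : ℕ, x < N0 → y < N0 → ∀ i, ∑ j, |(VV n d J' (τ x y) i j : ℝ)| / Y i j ≤ d / L ^ (B + 4) := by
    intro x y hx hy i
    calc ∑ j, |(VV n d J' (τ x y) i j : ℝ)| / Y i j ≤ ∑ _j : Fin d, (1 : ℝ) / L ^ (B + 4) := by
          apply Finset.sum_le_sum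
          intro j _
          have hYi : (0 : ℝ) < Y i j := by exact_mod_cast hYpos i j
          rw [div_le_div_iff₀ hYi (hLp _), one_mul]
          unfold VV
          calc |(sv d 1 J' (τ x y i) j : ℝ)| * L ^ (B + 4) ≤ (|(τ x y i : ℝ)| * L ^ (C * d + 1)) * L ^ (B + 4) :=
                mul_le_mul_of_nonneg_right (hcoef _ j) (hLp _).le
            _ ≤ ((L * (X / L ^ U1)) * L ^ (C * d + 1)) * L ^ (B + 4) := by
                apply mul_le_mul_of_nonneg_right _ (hLp _).le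
                apply mul_le_mul_of_nonneg_right _ (hLp _).le
                exact (hτb x y hx hy i).trans (mul_le_mul_of_nonneg_left hNle hL0.le)
            _ ≤ X / L ^ C := by
                have e : L ^ U1 = L * L ^ (C * d + 1) * L ^ (B + 4) * L ^ C * L ^ (C * d) := by rw [hU1]; ring
                rw [e]
                have e2 : L * (X / (L * L ^ (C * d + 1) * L ^ (B + 4) * L ^ C * L ^ (C * d))) * L ^ (C * d + 1) * L ^ (B + 4) =
                    X / L ^ C / L ^ (C * d) := by field_simp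
                rw [e2]
                exact div_le_self (by positivity) (hLp1 _)
            _ ≤ Y i j := side i j
      _ = d / L ^ (B + 4) := by
          rw [Finset.sum_const, card_univ, Fintype.card_fin, nsmul_eq_mul]
          ring
  obtain ⟨ν, hν⟩ : ∃ ν : ℕ → Fin m → ℤ, ν = fun (y : ℕ) j => (y : ℤ) * D * w' j := ⟨_, rfl⟩
  have herr' : ∀ y : ℕ, y < N0 → ∑ j, |(ν y j : ℝ)| / Y' j ≤ m / L ^ (B + 4) := by
    intro y hy
    calc ∑ j, |(ν y j : ℝ)| / Y' j ≤ ∑ _j : Fin m, (1 : ℝ) / L ^ (B + 4) := by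
          apply Finset.sum_le_sum
          intro j _
          have hYi : (0 : ℝ) < Y' j := by exact_mod_cast hYpos' j
          rw [div_le_div_iff₀ hYi (hLp _), one_mul, hν]
          push_cast
          have hy' : (y : ℝ) ≤ X / L ^ U1 := by
            have : (y : ℝ) ≤ N0 := by exact_mod_cast hy.le
            exact this.trans hNle
          have hwj : |(w' j : ℝ)| ≤ L := by
            have : |(w' j : ℝ)| ≤ K := by exact_mod_cast hw' j
            exact this.trans hLK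
          calc |(y : ℝ) * D * w' j| * L ^ (B + 4) = y * |(D : ℝ)| * |(w' j : ℝ)| * L ^ (B + 4) := by
                rw [abs_mul, abs_mul, abs_of_nonneg (Nat.cast_nonneg y : (0 : ℝ) ≤ y)]
            _ ≤ (X / L ^ U1) * L ^ (C * d) * L * L ^ (B + 4) := by gcongr
            _ ≤ X / L ^ C := by
                have e : L ^ U1 = L * L ^ (C * d) * L ^ (B + 4) * L ^ C * L ^ (C * d + 1) := by rw [hU1]; ring
                rw [e]
                have e2 : X / (L * L ^ (C * d) * L ^ (B + 4) * L ^ C * L ^ (C * d + 1)) * L ^ (C * d) * L * L ^ (B + 4) =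
                    X / L ^ C / L ^ (C * d + 1) := by field_simp
                rw [e2]
                exact div_le_self (by positivity) (hLp1 _)
            _ ≤ Y' j := side' j
      _ = m / L ^ (B + 4) := by
          rw [Finset.sum_const, card_univ, Fintype.card_fin, nsmul_eq_mul]
          ring
  obtain ⟨α, hαd⟩ : ∃ α : Fin e → ℤ, α = fun t => ∑ i, Q.s t i * u i := ⟨_, rfl⟩
  obtain ⟨β, hβd⟩ : ∃ β : Fin e → ℤ, β = fun t => ∑ i, Q.s t i * w i + ∑ j, Q.g t j * w' j := ⟨_, rfl⟩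
  have hα0 : α t0 ≠ 0 := by rw [hαd]; exact hα
  have hβ0 : β t0 ≠ 0 := by rw [hβd]; exact hβ
  have hαβK : (α t0).natAbs + (β t0).natAbs ≤ K := by rw [hαd, hβd]; exact hαβ
  have hkill' : ∀ t, t ≠ t0 → α t = 0 ∨ β t = 0 := by rw [hαd, hβd]; exact hkill
  -- the values at the shifted points
  have hval : ∀ (c : Fin n → Fin d → ℤ) (N : Fin m → ℤ) (x y : ℕ) (t : Fin e),
      lvp Q (ev f (c + VV n d J' (τ x y)) k0) (N + ν y) t = lvp Q (ev f c k0) N t + D * (α t * x + β t * y) := by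
    intro c N x y t
    have h1 := lvp_shift Q (ev f c k0) N D x y u w w' t
    rw [hαd, hβd]
    simp only
    rw [← h1]
    congr 1
    · funext i
      rw [ev_shift f c J' hJ'd, ← hD, hτ]
    · funext j
      rw [hν]
      rfl
  -- the range of the values
  have hrange : ∀ c ∈ BA Z Y, ∀ N ∈ Box Z' Y', ∀ μ : ℤ, |(μ : ℝ)| ≤ L * N0 →
      (X : ℝ) / L ^ (C + 1) ≤ ((lvp Q (ev f c k0) N t0 + D * μ : ℤ) : ℝ) ∧ ((lvp Q (ev f c k0) N t0 + D * μ : ℤ) : ℝ) ≤ X * L ^ (C + 1) := by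
    intro c hc N hNB μ hμ
    have h1 := low c hc N hNB t0
    have h2 := up c hc N hNB t0
    have h4 : |(D : ℝ) * μ| ≤ X / L ^ (C + 1) := by
      rw [abs_mul]
      calc |(D : ℝ)| * |(μ : ℝ)| ≤ L ^ (C * d) * (L * (X / L ^ U1)) := by
            apply mul_le_mul hDabs _ (abs_nonneg _) (hLp _).le
            exact hμ.trans (mul_le_mul_of_nonneg_left hNle hL0.le)
        _ ≤ L ^ (C * d) * (L * (X / (L ^ (C + 1) * L ^ (C * d) * L))) := by
            apply mul_le_mul_of_nonneg_left _ (hLp _).le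
            apply mul_le_mul_of_nonneg_left _ hL0.le
            apply div_le_div_of_nonneg_left hX0.le (by positivity)
            have e : L ^ (C + 1) * L ^ (C * d) * L = L ^ (C + 1 + C * d + 1) := by ring
            rw [e]
            exact hLL (by omega)
        _ = X / L ^ (C + 1) := by field_simp
    have h5 := abs_le.1 h4
    have h6 : 2 * ((X : ℝ) / L ^ (C + 1)) ≤ X / L ^ C := by
      rw [pow_succ, ← div_div, mul_div_assoc', div_le_iff₀ hL0]
      have : 0 < X / L ^ C := by positivity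
      nlinarith
    have h7 : X * L ^ C + X / L ^ (C + 1) ≤ X * L ^ (C + 1) := by
      have h8 : X / L ^ (C + 1) ≤ X := div_le_self hX0.le (hLp1 _)
      have h9 : X ≤ X * L ^ C := le_mul_of_one_le_right hX0.le (hLp1 _)
      have h10 : 2 * (X * L ^ C) ≤ X * L ^ (C + 1) := by
        rw [pow_succ]
        have : 0 < X * L ^ C := by positivity
        nlinarith
      linarith
    push_cast
    constructor <;> linarith [h5.1, h5.2]
  have hdi : ∀ v : ℤ, (X : ℝ) / L ^ (C + 1) ≤ v → |di z v| ≤ 1 := by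
    intro v hv
    have h1 := hmi z v hz1' hz2 hv
    have h2 : L ^ (1 / 2 : ℝ) / L ≤ 1 := by
      rw [div_le_one hL0]
      calc L ^ (1 / 2 : ℝ) ≤ L ^ (1 : ℝ) := Real.rpow_le_rpow_of_exponent_le hL1 (by norm_num)
        _ = L := Real.rpow_one L
    rw [di_eq, abs_le]
    have h3 := pri_nonneg v
    have h4 := pri_le v
    constructor <;> linarith [h1.1, h1.2]
  have hμb : ∀ x y : ℕ, x < N0 → y < N0 → |((α t0 * x + β t0 * y : ℤ) : ℝ)| ≤ L * N0 := by
    intro x y hx hy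
    push_cast
    have hx' : (x : ℝ) ≤ N0 := by exact_mod_cast hx.le
    have hy' : (y : ℝ) ≤ N0 := by exact_mod_cast hy.le
    have hx0 : (0 : ℝ) ≤ x := Nat.cast_nonneg x
    have hy0 : (0 : ℝ) ≤ y := Nat.cast_nonneg y
    have h1 : |(α t0 : ℝ)| + |(β t0 : ℝ)| ≤ K := by
      have : (((α t0).natAbs + (β t0).natAbs : ℕ) : ℝ) ≤ K := by exact_mod_cast hαβK
      rw [Nat.cast_add, Nat.cast_natAbs, Nat.cast_natAbs] at this
      push_cast at this
      exact this
    calc |(α t0 : ℝ) * x + β t0 * y| ≤ |(α t0 : ℝ) * x| + |(β t0 : ℝ) * y| := abs_add_le _ _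
      _ = |(α t0 : ℝ)| * x + |(β t0 : ℝ)| * y := by rw [abs_mul, abs_mul, abs_of_nonneg hx0, abs_of_nonneg hy0]
      _ ≤ |(α t0 : ℝ)| * N0 + |(β t0 : ℝ)| * N0 := by gcongr
      _ = (|(α t0 : ℝ)| + |(β t0 : ℝ)|) * N0 := by ring
      _ ≤ K * N0 := mul_le_mul_of_nonneg_right h1 hN0.le
      _ ≤ L * N0 := mul_le_mul_of_nonneg_right hLK hN0.le
  -- the sums over the lines
  obtain ⟨F, hF⟩ : ∃ F : (Fin n → Fin d → ℤ) → (Fin m → ℤ) → ℝ, F = fun c N => cl (G c N * (di z (lvp Q (ev f c k0) N t0) *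
    ∏ t ∈ univ.erase t0, φ t (lvp Q (ev f c k0) N t))) := ⟨_, rfl⟩
  have hF1 : ∀ c N, |F c N| ≤ 1 := by
    intro c N
    rw [hF]
    exact cl_abs _
  have hprod : ∀ (T : Finset (Fin e)) (v : Fin e → ℤ), |∏ t ∈ T, φ t (v t)| ≤ 1 := by
    intro T v
    rw [Finset.abs_prod]
    exact Finset.prod_le_one (fun t _ => abs_nonneg _) (fun t _ => hφ t _)
  have hFs : ∀ c ∈ BA Z Y, ∀ N ∈ Box Z' Y', ∀ x y : ℕ, x < N0 → y < N0 → F (c + VV n d J' (τ x y)) (N + ν y) =
      di z (lvp Q (ev f c k0) N t0 + D * (α t0 * x + β t0 * y)) *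
        ((∏ t ∈ (univ.erase t0).filter (fun t => α t ≠ 0), φ t (lvp Q (ev f c k0) N t + D * (α t * x))) *
          (G c (N + ν y) * ∏ t ∈ (univ.erase t0).filter (fun t => ¬ α t ≠ 0), φ t (lvp Q (ev f c k0) N t + D * (β t * y)))) := by
    intro c hc N hNB x y hx hy
    rw [hF]
    simp only
    have e1 : G (c + VV n d J' (τ x y)) (N + ν y) = G c (N + ν y) := by
      apply hGv
      intro k hk i
      rw [ev_shift f c J' hJ'd, Finset.prod_eq_zero hk (sub_self _), mul_zero, add_zero]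
    rw [e1]
    simp only [hval]
    rw [← Finset.prod_filter_mul_prod_filter_not (univ.erase t0) (fun t => α t ≠ 0)]
    have e2 : ∏ t ∈ (univ.erase t0).filter (fun t => α t ≠ 0), φ t (lvp Q (ev f c k0) N t + D * (α t * x + β t * y)) =
        ∏ t ∈ (univ.erase t0).filter (fun t => α t ≠ 0), φ t (lvp Q (ev f c k0) N t + D * (α t * x)) := by
      apply Finset.prod_congr rfl
      intro t ht
      rw [mem_filter, mem_erase] at ht
      rcases hkill' t ht.1.1 with h | h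
      · exact absurd h ht.2
      · rw [h, zero_mul, add_zero]
    have e3 : ∏ t ∈ (univ.erase t0).filter (fun t => ¬ α t ≠ 0), φ t (lvp Q (ev f c k0) N t + D * (α t * x + β t * y)) =
        ∏ t ∈ (univ.erase t0).filter (fun t => ¬ α t ≠ 0), φ t (lvp Q (ev f c k0) N t + D * (β t * y)) := by
      apply Finset.prod_congr rfl
      intro t ht
      rw [mem_filter, not_not] at ht
      rw [ht.2, zero_mul, zero_add]
    rw [e2, e3]
    rw [cl_eq]
    · ring
    · have h1 := hdi _ (hrange c hc N hNB _ (hμb x y hx hy)).1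
      rw [abs_mul, abs_mul, abs_mul]
      apply mul_le_one₀ (hG _ _)
      · positivity
      · apply mul_le_one₀ h1 (by positivity)
        exact mul_le_one₀ (hprod _ _) (abs_nonneg _) (hprod _ _)
  obtain ⟨M, hM⟩ : ∃ M : ℕ, M = ((α t0).natAbs + (β t0).natAbs) * N0 + 1 := ⟨_, rfl⟩
  obtain ⟨lo, hlo⟩ : ∃ lo : ℤ, lo = min (α t0) 0 * N0 + min (β t0) 0 * N0 := ⟨_, rfl⟩
  obtain ⟨S, hS⟩ : ∃ S : ℝ, S = X / L ^ V := ⟨_, rfl⟩
  have hXC : 1 ≤ X / L ^ (C + 1) := by
    rw [one_le_div (hLp _)]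
    exact (hLL (by omega)).trans hP
  have hline : ∀ c ∈ BA Z Y, ∀ N ∈ Box Z' Y', |∑ x ∈ range N0, ∑ y ∈ range N0, F (c + VV n d J' (τ x y)) (N + ν y)| ≤ S * N0 := by
    intro c hc N hNB
    have h1 := bil N0 M (α t0) (β t0) lo hα0 hβ0 (by
        rw [hM]
        have : (α t0).natAbs * N0 ≤ ((α t0).natAbs + (β t0).natAbs) * N0 := Nat.mul_le_mul_right _ (Nat.le_add_right _ _)
        omega) (by
        rw [hM]
        have : (β t0).natAbs * N0 ≤ ((α t0).natAbs + (β t0).natAbs) * N0 := Nat.mul_le_mul_right _ (Nat.le_add_left _ _)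
        omega) (by
        intro x y hx hy
        have h2 := bin_range (α t0) (β t0) N0 x y hx hy
        rw [hlo, hM]
        push_cast at h2 ⊢
        constructor
        · exact h2.1
        · linarith [h2.2])
      (fun μ => di z (lvp Q (ev f c k0) N t0 + D * μ))
      (fun x => ∏ t ∈ (univ.erase t0).filter (fun t => α t ≠ 0), φ t (lvp Q (ev f c k0) N t + D * (α t * x)))
      (fun y => G c (N + ν y) * ∏ t ∈ (univ.erase t0).filter (fun t => ¬ α t ≠ 0), φ t (lvp Q (ev f c k0) N t + D * (β t * y)))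
      (fun x => hprod _ _) (fun y => by
        rw [abs_mul]
        exact mul_le_one₀ (hG _ _) (abs_nonneg _) (hprod _ _)) S (by
        intro θ
        have h2 := hsup D (lvp Q (ev f c k0) N t0 + D * lo) M hD0 (by
          intro t ht
          have h3 : |((lo + t : ℤ) : ℝ)| ≤ L * N0 := by
            have h4 : |lo + t| ≤ ((α t0).natAbs + (β t0).natAbs : ℕ) * N0 := by
              have h5 : (t : ℤ) ≤ ((α t0).natAbs + (β t0).natAbs : ℕ) * N0 := by
                have : t ≤ ((α t0).natAbs + (β t0).natAbs) * N0 := by omega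
                exact_mod_cast this
              have h6 : ∀ γ : ℤ, min γ 0 * N0 ≤ 0 ∧ -((γ.natAbs : ℕ) * N0 : ℤ) ≤ min γ 0 * N0 := by
                intro γ
                have hN0z : (0 : ℤ) ≤ N0 := Int.natCast_nonneg _
                rw [Int.natCast_natAbs]
                rcases le_total γ 0 with h | h
                · rw [min_eq_left h, abs_of_nonpos h]
                  constructor
                  · exact mul_nonpos_of_nonpos_of_nonneg h hN0z
                  · linarith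
                · rw [min_eq_right h, abs_of_nonneg h, zero_mul]
                  constructor
                  · exact le_rfl
                  · have := mul_nonneg h hN0z
                    linarith
              have h7 := h6 (α t0)
              have h8 := h6 (β t0)
              have h9 : (0 : ℤ) ≤ t := Int.natCast_nonneg _
              push_cast at h5 ⊢
              push_cast at h7 h8
              rw [hlo, abs_le]
              constructor <;> linarith [h7.1, h7.2, h8.1, h8.2]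
            have h5 : |((lo + t : ℤ) : ℝ)| ≤ (((α t0).natAbs + (β t0).natAbs : ℕ) : ℝ) * N0 := by
              obtain ⟨κ, hκ⟩ : ∃ κ : ℕ, κ = (α t0).natAbs + (β t0).natAbs := ⟨_, rfl⟩
              rw [← hκ] at h4 ⊢
              have h6 : ((|lo + t| : ℤ) : ℝ) ≤ ((κ * N0 : ℤ) : ℝ) := Int.cast_le.2 h4
              rw [← Int.cast_abs]
              refine h6.trans (le_of_eq ?_)
              push_cast
              rfl
            refine h5.trans (mul_le_mul_of_nonneg_right ?_ hN0.le)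
            refine le_trans ?_ hLK
            exact_mod_cast hαβK
          have h4 := hrange c hc N hNB (lo + t) h3
          have e : lvp Q (ev f c k0) N t0 + D * lo + t * D = lvp Q (ev f c k0) N t0 + D * (lo + t) := by ring
          rw [e]
          refine ⟨?_, h4.2⟩
          have : (1 : ℝ) ≤ ((lvp Q (ev f c k0) N t0 + D * (lo + t) : ℤ) : ℝ) := hXC.trans h4.1
          exact_mod_cast this) θ
        rw [hS]
        refine le_trans (le_of_eq ?_) h2
        congr 1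
        apply Finset.sum_congr rfl
        intro t _
        have e : lvp Q (ev f c k0) N t0 + D * (lo + t) = lvp Q (ev f c k0) N t0 + D * lo + t * D := by ring
        rw [e])
    refine le_trans (le_of_eq ?_) h1
    congr 1
    apply Finset.sum_congr rfl
    intro x hx
    apply Finset.sum_congr rfl
    intro y hy
    rw [mem_range] at hx hy
    exact hFs c hc N hNB x y hx hy
  -- conclusion
  obtain ⟨b, hb⟩ : ∃ b : ℝ, b = (BA Z Y).card := ⟨_, rfl⟩
  obtain ⟨b', hb'⟩ : ∃ b' : ℝ, b' = (Box Z' Y').card := ⟨_, rfl⟩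
  have hb0 : 0 ≤ b := by rw [hb]; exact Nat.cast_nonneg _
  have hb'0 : 0 ≤ b' := by rw [hb']; exact Nat.cast_nonneg _
  rw [← hb, ← hb']
  obtain ⟨Tot, hTot⟩ : ∃ Tot : ℝ, Tot = ∑ c ∈ BA Z Y, ∑ N ∈ Box Z' Y', F c N := ⟨_, rfl⟩
  have hshift : ∀ x y : ℕ, x < N0 → y < N0 → |∑ c ∈ BA Z Y, ∑ N ∈ Box Z' Y', F (c + VV n d J' (τ x y)) (N + ν y) - Tot| ≤
      b * b' / L ^ (B + 3) := by
    intro x y hx hy
    have h1 : |∑ c ∈ BA Z Y, ∑ N ∈ Box Z' Y', F (c + VV n d J' (τ x y)) (N + ν y) -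
        ∑ c ∈ BA Z Y, ∑ N ∈ Box Z' Y', F (c + VV n d J' (τ x y)) N| ≤ b * (2 * (m / L ^ (B + 4) * b')) := by
      rw [← Finset.sum_sub_distrib]
      refine (Finset.abs_sum_le_sum_abs _ _).trans ?_
      rw [hb, ← nsmul_eq_mul, ← Finset.sum_const]
      apply Finset.sum_le_sum
      intro c _
      refine (shift_sum' Z' Y' hYpos' (ν y) (fun N => F (c + VV n d J' (τ x y)) N) (fun N => hF1 _ _)).trans ?_
      rw [← hb']
      have := herr' y hy
      nlinarith [mul_le_mul_of_nonneg_right this hb'0]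
    have h2 : |∑ c ∈ BA Z Y, ∑ N ∈ Box Z' Y', F (c + VV n d J' (τ x y)) N - Tot| ≤ b' * (n * (2 * (d / L ^ (B + 4) * b))) := by
      rw [hTot, Finset.sum_comm, Finset.sum_comm (s := BA Z Y), ← Finset.sum_sub_distrib]
      refine (Finset.abs_sum_le_sum_abs _ _).trans ?_
      rw [hb', ← nsmul_eq_mul, ← Finset.sum_const]
      apply Finset.sum_le_sum
      intro N _
      have := shift_BA Z Y hYpos (VV n d J' (τ x y)) (fun c => F c N) (fun c => hF1 _ _) (d / L ^ (B + 4)) (herr x y hx hy)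
      rw [hb]
      exact this
    have h3 := abs_add_le (∑ c ∈ BA Z Y, ∑ N ∈ Box Z' Y', F (c + VV n d J' (τ x y)) (N + ν y) -
        ∑ c ∈ BA Z Y, ∑ N ∈ Box Z' Y', F (c + VV n d J' (τ x y)) N) (∑ c ∈ BA Z Y, ∑ N ∈ Box Z' Y', F (c + VV n d J' (τ x y)) N - Tot)
    rw [sub_add_sub_cancel] at h3
    refine (h3.trans (add_le_add h1 h2)).trans ?_
    have e : b * (2 * (m / L ^ (B + 4) * b')) + b' * (n * (2 * (d / L ^ (B + 4) * b))) = (2 * (n * d + m) / L) * (b * b' / L ^ (B + 3)) := by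
      have : L ^ (B + 4) = L ^ (B + 3) * L := by ring
      rw [this]
      field_simp
      ring
    rw [e]
    have h4 : 2 * ((n : ℝ) * d + m) / L ≤ 1 := by
      rw [div_le_one hL0]
      push_cast at hLnd
      linarith
    calc (2 * (n * d + m) / L) * (b * b' / L ^ (B + 3)) ≤ 1 * (b * b' / L ^ (B + 3)) := mul_le_mul_of_nonneg_right h4 (by positivity)
      _ = b * b' / L ^ (B + 3) := one_mul _
  have h1 : |∑ x ∈ range N0, ∑ y ∈ range N0, ∑ c ∈ BA Z Y, ∑ N ∈ Box Z' Y', F (c + VV n d J' (τ x y)) (N + ν y)| ≤ b * (b' * (S * N0)) := by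
    have e : ∑ x ∈ range N0, ∑ y ∈ range N0, ∑ c ∈ BA Z Y, ∑ N ∈ Box Z' Y', F (c + VV n d J' (τ x y)) (N + ν y) =
        ∑ c ∈ BA Z Y, ∑ N ∈ Box Z' Y', ∑ x ∈ range N0, ∑ y ∈ range N0, F (c + VV n d J' (τ x y)) (N + ν y) := by
      rw [← Finset.sum_product' (range N0) (range N0) (fun x y => ∑ c ∈ BA Z Y, ∑ N ∈ Box Z' Y', F (c + VV n d J' (τ x y)) (N + ν y)),
        Finset.sum_comm]
      apply Finset.sum_congr rfl
      intro c _
      rw [Finset.sum_comm]
      apply Finset.sum_congr rfl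
      intro N _
      rw [Finset.sum_product' (range N0) (range N0) (fun x y => F (c + VV n d J' (τ x y)) (N + ν y))]
    rw [e]
    refine (Finset.abs_sum_le_sum_abs _ _).trans ?_
    rw [hb, ← nsmul_eq_mul, ← Finset.sum_const]
    apply Finset.sum_le_sum
    intro c hc
    refine (Finset.abs_sum_le_sum_abs _ _).trans ?_
    rw [hb', ← nsmul_eq_mul, ← Finset.sum_const]
    exact Finset.sum_le_sum fun N hNB => hline c hc N hNB
  have h2 : |∑ x ∈ range N0, ∑ y ∈ range N0, ∑ c ∈ BA Z Y, ∑ N ∈ Box Z' Y', F (c + VV n d J' (τ x y)) (N + ν y) - N0 * (N0 * Tot)| ≤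
      N0 * (N0 * (b * b' / L ^ (B + 3))) := by
    have e : (N0 : ℝ) * (N0 * Tot) = ∑ _x ∈ range N0, ∑ _y ∈ range N0, Tot := by
      rw [Finset.sum_const, Finset.sum_const, card_range, nsmul_eq_mul, nsmul_eq_mul]
    rw [e, ← Finset.sum_sub_distrib]
    refine (Finset.abs_sum_le_sum_abs _ _).trans ?_
    calc ∑ x ∈ range N0, |∑ y ∈ range N0, ∑ c ∈ BA Z Y, ∑ N ∈ Box Z' Y', F (c + VV n d J' (τ x y)) (N + ν y) - ∑ _y ∈ range N0, Tot| ≤
        ∑ _x ∈ range N0, (N0 : ℝ) * (b * b' / L ^ (B + 3)) := by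
          apply Finset.sum_le_sum
          intro x hx
          rw [mem_range] at hx
          rw [← Finset.sum_sub_distrib]
          refine (Finset.abs_sum_le_sum_abs _ _).trans ?_
          calc ∑ y ∈ range N0, |∑ c ∈ BA Z Y, ∑ N ∈ Box Z' Y', F (c + VV n d J' (τ x y)) (N + ν y) - Tot| ≤
              ∑ _y ∈ range N0, b * b' / L ^ (B + 3) := by
                apply Finset.sum_le_sum
                intro y hy
                rw [mem_range] at hy
                exact hshift x y hx hy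
            _ = N0 * (b * b' / L ^ (B + 3)) := by rw [Finset.sum_const, card_range, nsmul_eq_mul]
      _ = N0 * (N0 * (b * b' / L ^ (B + 3))) := by rw [Finset.sum_const, card_range, nsmul_eq_mul]
  have h3 : (N0 : ℝ) * (N0 * |Tot|) ≤ b * (b' * (S * N0)) + N0 * (N0 * (b * b' / L ^ (B + 3))) := by
    have e : (N0 : ℝ) * (N0 * |Tot|) = |N0 * (N0 * Tot)| := by
      rw [abs_mul, abs_mul, abs_of_nonneg hN0.le]
    rw [e]
    have e2 : (N0 : ℝ) * (N0 * Tot) = ∑ x ∈ range N0, ∑ y ∈ range N0, ∑ c ∈ BA Z Y, ∑ N ∈ Box Z' Y', F (c + VV n d J' (τ x y)) (N + ν y) -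
        (∑ x ∈ range N0, ∑ y ∈ range N0, ∑ c ∈ BA Z Y, ∑ N ∈ Box Z' Y', F (c + VV n d J' (τ x y)) (N + ν y) - N0 * (N0 * Tot)) := by ring
    rw [e2]
    exact (abs_sub _ _).trans (add_le_add h1 h2)
  have hSle : S ≤ 2 * N0 / L ^ (B + 2) := by
    have e : S = X / L ^ U1 / L ^ (B + 2) := by
      rw [hS, hV]
      have : L ^ (U1 + B + 2) = L ^ U1 * L ^ (B + 2) := by ring
      rw [this, div_div]
    rw [e]
    exact div_le_div_of_nonneg_right hNge (hLp _).le
  have h4 : (N0 : ℝ) * (N0 * |Tot|) ≤ N0 * (N0 * (b * b' * (2 / L ^ (B + 2) + 1 / L ^ (B + 3)))) := by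
    have h5 : b * (b' * (S * N0)) ≤ b * (b' * ((2 * N0 / L ^ (B + 2)) * N0)) := by gcongr
    have e : N0 * (N0 * (b * b' * (2 / L ^ (B + 2) + 1 / L ^ (B + 3)))) =
        b * (b' * ((2 * N0 / L ^ (B + 2)) * N0)) + N0 * (N0 * (b * b' / L ^ (B + 3))) := by ring
    rw [e]
    linarith
  have h5 := le_of_mul_le_mul_left (le_of_mul_le_mul_left h4 hN0) hN0
  have h6 : Tot = ∑ c ∈ BA Z Y, ∑ N ∈ Box Z' Y', G c N * (di z (lvp Q (ev f c k0) N t0) * ∏ t ∈ univ.erase t0, φ t (lvp Q (ev f c k0) N t)) := by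
    rw [hTot]
    apply Finset.sum_congr rfl
    intro c hc
    apply Finset.sum_congr rfl
    intro N hNB
    rw [hF]
    simp only
    apply cl_eq
    have h7 := hrange c hc N hNB 0 (by
      simp only [Int.cast_zero, abs_zero]
      positivity)
    rw [mul_zero, add_zero] at h7
    rw [abs_mul, abs_mul]
    apply mul_le_one₀ (hG _ _) (by positivity)
    exact mul_le_one₀ (hdi _ h7.1) (abs_nonneg _) (hprod _ _)
  rw [← h6]
  refine h5.trans ?_
  have h7 : (2 : ℝ) / L ^ (B + 2) + 1 / L ^ (B + 3) ≤ 1 / L ^ B := by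
    have e1 : (2 : ℝ) / L ^ (B + 2) = (2 / L ^ 2) * (1 / L ^ B) := by rw [pow_add]; field_simp
    have e2 : (1 : ℝ) / L ^ (B + 3) = (1 / L ^ 3) * (1 / L ^ B) := by rw [pow_add]; field_simp
    rw [e1, e2, ← add_mul]
    have h8 : (2 : ℝ) / L ^ 2 + 1 / L ^ 3 ≤ 1 := by
      have h9 : (2 : ℝ) / L ^ 2 ≤ 1 / 2 := by
        rw [div_le_div_iff₀ (by positivity) (by norm_num)]
        nlinarith
      have h10 : (1 : ℝ) / L ^ 3 ≤ 1 / 2 := by
        apply one_div_le_one_div_of_le (by norm_num)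
        calc (2 : ℝ) ≤ L := by linarith
          _ = L ^ 1 := (pow_one L).symm
          _ ≤ L ^ 3 := hLL (by norm_num)
      linarith
    calc (2 / L ^ 2 + 1 / L ^ 3) * (1 / L ^ B) ≤ 1 * (1 / L ^ B) := mul_le_mul_of_nonneg_right h8 (by positivity)
      _ = 1 / L ^ B := one_mul _
  calc b * b' * (2 / L ^ (B + 2) + 1 / L ^ (B + 3)) ≤ b * b' * (1 / L ^ B) := mul_le_mul_of_nonneg_left h7 (by positivity)
    _ = b * b' / L ^ B := by ring

end Pool.Agent.Q236.LG
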