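import Pool.Agent.Q236.LG.Det

set_option autoImplicit false

/-!
# The number of surviving points in an interval, for almost all arrays
-/

namespace Pool.Agent.Q236.LG

open Finset Filter Polynomial
open Pool.Agent.Q236.MR (pv phi Fz rd Om mem_Om card_Om Om_pos class_ap Om_count pairs_le Per box_per crt_two crt_many box_sieve dvd_sub_emod prod_close pow_small card_BA_real ba_class TT TT_mono TT_sum TT_mul TT_congr TT_zero TT_const TT_le TT_nonneg qq TT_corr TT_exp TT_moment)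
open Pool.Agent.Q236.RP (ev_log_ge ev_pow_log eval_mod)
open Pool.Agent.Q236.CG (BA mem_BA)
open Pool.Agent.H373R2.T7 (pz mem_pz sum_pz_le Vz Vz_low nuB PerB nuB_le)

variable {n d e : ℕ}

open Classical in
lemma Sv_Qc (b q : ℕ) (A : LF n e) (F : Fin n → ℤ[X]) (a h w : ℕ) (c : Fin n → Fin d → ℤ) (hnd : ∀ p ∈ pz w, ndq b q A F p c) :
    (Ioc a (a + h)).filter (fun k : ℕ => ∀ p ∈ pz w, ¬ Qc b q A F c p k) = Sv b q A F (Ioc a (a + h)) (pz w) c := by
  unfold Sv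
  apply Finset.filter_congr
  intro k _
  constructor
  · intro h1 p hp
    by_contra h2
    exact h1 p hp ⟨hnd p hp, h2⟩
  · intro h1 p hp h2
    exact h2.2 (h1 p hp)

open Classical in
/-- **The number of surviving points.** -/
theorem count_main (n d e D A' C s0 B : ℕ) (δ ε : ℝ) (hδ : 0 < δ) (hε : 0 < ε) (hd : 2 ≤ d) (hD : d ≤ D + 1) :
    ∀ᶠ X : ℕ in atTop, ∀ b q z a h : ℕ, (z : ℝ) ≤ Real.log X ^ A' → Real.log X ≤ z → Real.log X ^ δ ≤ h →
    ∀ (Z : Fin n → Fin d → ℤ) (Y : Fin n → Fin d → ℕ), (∀ i j, (X : ℝ) / Real.log X ^ C ≤ Y i j) →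
    ∀ (A : LF n e) (F : Fin n → ℤ[X]), (∀ i, (F i).natDegree ≤ D) →
    (∀ t, ∀ p : ℕ, p.Prime → (∀ i, (p : ℤ) ∣ A.s t i) → p ≤ s0) →
    (((BA Z Y).filter (fun c => ¬ |((Sv b q A F (Ioc a (a + h)) (pz z) c).card : ℝ) - h * PQ b q A F z c| ≤ ε * (h * PQ b q A F z c))).card : ℝ) ≤
      (BA Z Y).card / Real.log X ^ B := by
  obtain ⟨η, hη⟩ : ∃ η : ℝ, η = min ε 1 / 14 := ⟨_, rfl⟩
  have hη0 : 0 < η := by rw [hη]; positivity
  have hη1 : η ≤ 1 / 10 := by
    rw [hη]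
    have : min ε 1 ≤ 1 := min_le_right _ _
    linarith
  have hηε : 14 * η ≤ ε := by
    rw [hη]
    have : min ε 1 ≤ ε := min_le_left _ _
    linarith
  obtain ⟨K, x0, hK, hfund⟩ := fund_int (2 * (e * D) + 1) (by omega) η hη0
  obtain ⟨C1, y1, hlow⟩ := PP_low (2 * (e * D) + 1)
  obtain ⟨C2, y2, hrlow⟩ := rho_low e
  obtain ⟨δ', hδ'⟩ : ∃ δ' : ℝ, δ' = min δ 1 / (K + 2) := ⟨_, rfl⟩
  have hK2 : (0 : ℝ) < K + 2 := by positivity
  have hδ'0 : 0 < δ' := by rw [hδ']; positivity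
  have hm1 : min δ 1 ≤ 1 := min_le_right _ _
  have hmδ : min δ 1 ≤ δ := min_le_left _ _
  have hδK : δ' * (K + 2) = min δ 1 := by rw [hδ']; field_simp
  have hK0 : (0 : ℝ) ≤ K := Nat.cast_nonneg _
  have hK1 : (1 : ℝ) ≤ K := by exact_mod_cast hK
  have h2δ : 2 * δ' ≤ min δ 1 := by nlinarith
  have hKδ : δ' * K ≤ δ := by nlinarith
  have hδ'1 : δ' ≤ 1 := by linarith
  obtain ⟨t, ht⟩ : ∃ t : ℕ, ((B : ℝ) + 1) / δ' ≤ t := exists_nat_ge _
  have hδt : (B : ℝ) + 1 ≤ δ' * t := by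
    rw [div_le_iff₀ hδ'0] at ht
    linarith
  obtain ⟨Kt, hKt0, hdev⟩ := few_dev n d e D A' C s0 t hd hD
  obtain ⟨M, hM⟩ : ∃ M : ℝ, M = ((A' : ℝ) + 1) ^ (C1 + C2) := ⟨_, rfl⟩
  have hA1 : (1 : ℝ) ≤ (A' : ℝ) + 1 := by have : (0 : ℝ) ≤ A' := Nat.cast_nonneg _; linarith
  have hM1 : 1 ≤ M := by rw [hM]; exact one_le_pow₀ hA1
  obtain ⟨T0, hT0⟩ : ∃ T0 : ℕ, T0 = e * D + 2 * e + s0 + x0 + y1 + 2 := ⟨_, rfl⟩
  have hbig : ∀ᶠ X : ℕ in atTop, (T0 : ℝ) + 1 ≤ Real.log X ^ δ' :=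
    ((tendsto_rpow_atTop hδ'0).comp (Real.tendsto_log_atTop.comp
      (tendsto_natCast_atTop_atTop (R := ℝ)))).eventually_ge_atTop _
  filter_upwards [hdev, hbig, ev_log_ge 3, ev_log_ge y2, ev_log_ge (2 * Kt * 2 ^ t), ev_log_ge x0, ev_log_ge y1,
    ev_ll (δ' / 4) (by positivity) (C1 + C2) (η / (2 * M)) (by positivity),
    ev_ll δ' hδ'0 1 (1 / ((A' : ℝ) + 2)) (by positivity)] with X hdev hbig hL3 hLy2 hLKt hLx0 hLy1 hll hll1
    b q z a h hz hLz hh Z Y hY A F hF hs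
  obtain ⟨L, hL⟩ : ∃ L, L = Real.log (X : ℝ) := ⟨_, rfl⟩
  rw [← hL] at hdev hbig hL3 hLy2 hLKt hLx0 hLy1 hll hll1 hz hLz hh hY ⊢
  have hL0 : 0 < L := by linarith
  have hL1 : 1 ≤ L := by linarith
  obtain ⟨ℓ, hℓ⟩ : ∃ ℓ, ℓ = Real.log L := ⟨_, rfl⟩
  rw [← hℓ] at hll hll1
  have hℓ1 : 1 ≤ ℓ := by
    rw [hℓ, Real.le_log_iff_exp_le hL0]
    have := Real.exp_one_lt_d9
    linarith
  have hℓ0 : 0 ≤ ℓ := by linarith
  have hll' : M * ℓ ^ (C1 + C2) ≤ η / 2 * L ^ (δ' / 4) := by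
    have : M * ℓ ^ (C1 + C2) ≤ M * (η / (2 * M) * L ^ (δ' / 4)) := mul_le_mul_of_nonneg_left hll (by linarith)
    refine this.trans (le_of_eq ?_)
    have : M ≠ 0 := by linarith
    field_simp
  obtain ⟨y, hy⟩ : ∃ y : ℕ, y = ⌊L ^ δ'⌋₊ := ⟨_, rfl⟩
  have hLδ0 : 0 < L ^ δ' := Real.rpow_pos_of_pos hL0 _
  have hyle : (y : ℝ) ≤ L ^ δ' := by rw [hy]; exact Nat.floor_le hLδ0.le
  have hyge : L ^ δ' < y + 1 := by rw [hy]; exact Nat.lt_floor_add_one _
  have hyT : T0 ≤ y := by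
    have : (T0 : ℝ) < y + 1 := by linarith
    have h2 : T0 < y + 1 := by exact_mod_cast this
    omega
  have hy1' : 1 ≤ y := by omega
  have hy2' : 2 ≤ y := by omega
  have hyr : (1 : ℝ) ≤ y := by exact_mod_cast hy1'
  have hyhalf : L ^ δ' / 2 ≤ y := by linarith
  have hy0 : (0 : ℝ) < y := by linarith
  have hLδL : L ^ δ' ≤ L := by
    calc L ^ δ' ≤ L ^ (1 : ℝ) := Real.rpow_le_rpow_of_exponent_le hL1 hδ'1
      _ = L := Real.rpow_one L
  have hyL : (y : ℝ) ≤ L := hyle.trans hLδL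
  have hyz : y ≤ z := by exact_mod_cast hyL.trans hLz
  have hz1 : 1 ≤ z := by omega
  have hzr : (1 : ℝ) ≤ z := by exact_mod_cast hz1
  have hz0 : (0 : ℝ) < z := by linarith
  have hlz0 : 0 ≤ Real.log z := Real.log_nonneg hzr
  have hly0 : 0 < Real.log y := Real.log_pos (by exact_mod_cast (by omega : 1 < y))
  have hlz : Real.log z ≤ (A' + 1) * ℓ := by
    have h1 : Real.log z ≤ Real.log (L ^ A') := Real.log_le_log hz0 hz
    rw [Real.log_pow, ← hℓ] at h1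
    linarith
  have hly : Real.log y ≤ ℓ := by rw [hℓ]; exact Real.log_le_log hy0 hyL
  have hlz1 : 1 + Real.log z ≤ L ^ δ' := by
    have h1 : 1 + Real.log z ≤ (A' + 2) * ℓ := by linarith
    rw [pow_one] at hll1
    have hA2 : (0 : ℝ) < (A' : ℝ) + 2 := by positivity
    calc 1 + Real.log z ≤ (A' + 2) * ℓ := h1
      _ ≤ (A' + 2) * (1 / ((A' : ℝ) + 2) * L ^ δ') := mul_le_mul_of_nonneg_left hll1 hA2.le
      _ = L ^ δ' := by field_simp
  have hyy : (y : ℝ) * (1 + Real.log z) ≤ L ^ (2 * δ') := by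
    calc (y : ℝ) * (1 + Real.log z) ≤ L ^ δ' * L ^ δ' := mul_le_mul hyle hlz1 (by linarith) hLδ0.le
      _ = L ^ (2 * δ') := by rw [← Real.rpow_add hL0]; congr 1; ring
  have hyh : (y : ℝ) * (1 + Real.log z) ≤ h := by
    refine hyy.trans (le_trans ?_ hh)
    exact Real.rpow_le_rpow_of_exponent_le hL1 (by linarith)
  have hyKh : y ^ K ≤ h := by
    have h1 : ((y ^ K : ℕ) : ℝ) ≤ h := by
      push_cast
      calc (y : ℝ) ^ K ≤ (L ^ δ') ^ K := pow_le_pow_left₀ hy0.le hyle K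
        _ = L ^ (δ' * K) := by rw [Real.rpow_mul hL0.le, Real.rpow_natCast]
        _ ≤ L ^ δ := Real.rpow_le_rpow_of_exponent_le hL1 hKδ
        _ ≤ h := hh
    exact_mod_cast h1
  obtain ⟨h', hh'⟩ : ∃ h' : ℕ, h' = z ^ (K + 1) := ⟨_, rfl⟩
  have hzh' : z ≤ h' := by rw [hh']; exact Nat.le_self_pow (by omega) z
  have hz2h' : z ^ 2 ≤ h' := by rw [hh']; exact Nat.pow_le_pow_right hz1 (by omega)
  have hzKh' : z ^ K ≤ h' := by rw [hh']; exact Nat.pow_le_pow_right hz1 (by omega)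
  have hyKh' : y ^ K ≤ h' := (Nat.pow_le_pow_left hyz K).trans hzKh'
  have hyh' : (y : ℝ) * (1 + Real.log z) ≤ h' := by
    refine hyy.trans ?_
    have h1 : L ^ (2 * δ') ≤ L := by
      calc L ^ (2 * δ') ≤ L ^ (1 : ℝ) := Real.rpow_le_rpow_of_exponent_le hL1 (by linarith)
        _ = L := Real.rpow_one L
    exact h1.trans (hLz.trans (by exact_mod_cast hzh'))
  -- the exceptional sets
  obtain ⟨r, hr⟩ : ∃ r, r = ∏ p ∈ md y z q, rho A p := ⟨_, rfl⟩
  have hr0 : 0 < r := by rw [hr]; exact Finset.prod_pos fun p _ => rho_pos A p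
  obtain ⟨W, hW⟩ : ∃ W, W = BA Z Y := ⟨_, rfl⟩
  have hd1 := hdev b q y z a h hz hyz hy1' (by omega) (by omega) (by omega) hyL hyh Z Y hY A F hF hs
  have hd2 := hdev b q y z 0 h' hz hyz hy1' (by omega) (by omega) (by omega) hyL hyh' Z Y hY A F hF hs
  rw [← hr, ← hW] at hd1 hd2
  rw [← hW]
  have hsub : W.filter (fun c => ¬ |((Sv b q A F (Ioc a (a + h)) (pz z) c).card : ℝ) - h * PQ b q A F z c| ≤ ε * (h * PQ b q A F z c)) ⊆
      W.filter (fun c => (∀ p ∈ md y z q, nd A F p c) ∧ (h : ℝ) / (y : ℝ) ^ (1 / 4 : ℝ) <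
        |((Sv b q A F (Ioc a (a + h)) (pz y ∪ md y z q) c).card : ℝ) - r * (Sv b q A F (Ioc a (a + h)) (pz y) c).card|) ∪
      W.filter (fun c => (∀ p ∈ md y z q, nd A F p c) ∧ (h' : ℝ) / (y : ℝ) ^ (1 / 4 : ℝ) <
        |((Sv b q A F (Ioc 0 (0 + h')) (pz y ∪ md y z q) c).card : ℝ) - r * (Sv b q A F (Ioc 0 (0 + h')) (pz y) c).card|) := by
    intro c hc
    rw [mem_filter] at hc
    by_contra hcon
    rw [mem_union, mem_filter, mem_filter] at hcon
    push Not at hcon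
    obtain ⟨hcon1, hcon2⟩ := hcon
    apply hc.2
    by_cases hnd : ∀ p ∈ pz z, ndq b q A F p c
    · have hndm : ∀ p ∈ md y z q, nd A F p c := fun p hp => ndq_nd b q A F p c (hnd p (filter_subset _ _ hp))
      have hndy : ∀ p ∈ pz y, ndq b q A F p c := fun p hp => hnd p (by
        rw [pz_split y z q hyz]
        exact mem_union_left _ (mem_union_left _ hp))
      have hper := Qc_per b q A F D hF hD c
      have b1 := hcon1 hc.1 hndm
      have b2 := hcon2 hc.1 hndm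
      rw [Sv_drop b q A F _ y z hyz c hnd] at b1 b2
      have f1 := hfund h y (by omega) hyKh (Qc b q A F c) hper a
      have f2 := hfund h' y (by omega) hyKh' (Qc b q A F c) hper 0
      have f3 := hfund h' z (by
        have : (x0 : ℝ) ≤ z := hLx0.trans hLz
        exact_mod_cast this) hzKh' (Qc b q A F c) hper 0
      rw [Sv_Qc b q A F a h y c hndy, ← PQ_eq b q A F y c hndy] at f1
      rw [Sv_Qc b q A F 0 h' y c hndy, ← PQ_eq b q A F y c hndy] at f2
      rw [Sv_Qc b q A F 0 h' z c hnd, ← PQ_eq b q A F z c hnd] at f3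
      have l1 := hlow y (by omega) (Qc b q A F c) hper (fun p hp => nuB_lt b q A F c p (mem_pz.1 hp).2 (hndy p hp))
      have l2 := hlow z (by
        have : (y1 : ℝ) ≤ z := hLy1.trans hLz
        exact_mod_cast this) (Qc b q A F c) hper (fun p hp => nuB_lt b q A F c p (mem_pz.1 hp).2 (hnd p hp))
      rw [← PQ_eq b q A F y c hndy] at l1
      rw [← PQ_eq b q A F z c hnd] at l2
      have l3 := hrlow q y z (by
        have : (y2 : ℝ) ≤ z := hLy2.trans hLz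
        exact_mod_cast this) (by omega) n s0 A (by omega) hs
      rw [← hr] at l3
      obtain ⟨Py, hPy⟩ : ∃ Py, Py = PQ b q A F y c := ⟨_, rfl⟩
      obtain ⟨Pz, hPz⟩ : ∃ Pz, Pz = PQ b q A F z c := ⟨_, rfl⟩
      rw [← hPy] at f1 f2 l1
      rw [← hPz] at f3 l2 ⊢
      have hlz0' : 0 < Real.log z := Real.log_pos (by exact_mod_cast (by omega : 1 < z))
      have hPy0 : 0 < Py := lt_of_lt_of_le (by positivity) l1
      have hPz0 : 0 < Pz := lt_of_lt_of_le (by positivity) l2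
      -- upper bounds for the logarithms
      have hE : ℓ ^ (C1 + C2) ≤ M * ℓ ^ (C1 + C2) := le_mul_of_one_le_left (by positivity) hM1
      have g1 : Real.log y ^ C1 ≤ η / 2 * L ^ (δ' / 4) := by
        calc Real.log y ^ C1 ≤ ℓ ^ C1 := pow_le_pow_left₀ hly0.le hly _
          _ ≤ ℓ ^ (C1 + C2) := pow_le_pow_right₀ hℓ1 (by omega)
          _ ≤ _ := hE.trans hll'
      have hMC1 : ((A' : ℝ) + 1) ^ C1 ≤ M := by rw [hM]; exact pow_le_pow_right₀ hA1 (by omega)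
      have hMC2 : ((A' : ℝ) + 1) ^ C2 ≤ M := by rw [hM]; exact pow_le_pow_right₀ hA1 (by omega)
      have g2 : Real.log z ^ C1 ≤ η / 2 * L ^ (δ' / 4) := by
        calc Real.log z ^ C1 ≤ ((A' + 1) * ℓ) ^ C1 := pow_le_pow_left₀ hlz0 hlz _
          _ = ((A' : ℝ) + 1) ^ C1 * ℓ ^ C1 := mul_pow _ _ _
          _ ≤ M * ℓ ^ (C1 + C2) := mul_le_mul hMC1 (pow_le_pow_right₀ hℓ1 (by omega)) (by positivity) (by linarith)
          _ ≤ _ := hll'
      have g3 : Real.log z ^ C2 * Real.log y ^ C1 ≤ η / 2 * L ^ (δ' / 4) := by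
        calc Real.log z ^ C2 * Real.log y ^ C1 ≤ ((A' + 1) * ℓ) ^ C2 * ℓ ^ C1 :=
              mul_le_mul (pow_le_pow_left₀ hlz0 hlz _) (pow_le_pow_left₀ hly0.le hly _) (by positivity) (by positivity)
          _ = ((A' : ℝ) + 1) ^ C2 * ℓ ^ (C1 + C2) := by rw [mul_pow, pow_add]; ring
          _ ≤ M * ℓ ^ (C1 + C2) := mul_le_mul_of_nonneg_right hMC2 (by positivity)
          _ ≤ _ := hll'
      have hLq : 0 < L ^ (δ' / 4) := Real.rpow_pos_of_pos hL0 _
      -- square roots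
      have hsqrt : ∀ (H : ℕ) (P : ℝ) (G : ℝ), 0 < G → (L ^ (δ' / 4)) ^ 2 ≤ H → G ≤ η / 2 * L ^ (δ' / 4) → 1 / G ≤ P →
          √(H : ℝ) ≤ η * (H * P) := by
        intro H P G hG hH hG1 hP
        have hs1 : L ^ (δ' / 4) ≤ √(H : ℝ) := Real.le_sqrt_of_sq_le hH
        have hs2 : √(H : ℝ) * √(H : ℝ) = H := Real.mul_self_sqrt (Nat.cast_nonneg _)
        have hs0 : 0 < √(H : ℝ) := lt_of_lt_of_le hLq hs1
        have hG2 : G ≤ η * √(H : ℝ) := by
          have : η / 2 * L ^ (δ' / 4) ≤ η * √(H : ℝ) := by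
            have h1 : η / 2 * L ^ (δ' / 4) ≤ η * L ^ (δ' / 4) := by nlinarith
            exact h1.trans (mul_le_mul_of_nonneg_left hs1 hη0.le)
          linarith
        have h1 : 1 ≤ η * √(H : ℝ) * P := by
          calc (1 : ℝ) = G * (1 / G) := by field_simp
            _ ≤ (η * √(H : ℝ)) * P := mul_le_mul hG2 hP (by positivity) (by positivity)
        calc √(H : ℝ) = √(H : ℝ) * 1 := (mul_one _).symm
          _ ≤ √(H : ℝ) * (η * √(H : ℝ) * P) := mul_le_mul_of_nonneg_left h1 hs0.le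
          _ = η * (√(H : ℝ) * √(H : ℝ) * P) := by ring
          _ = η * (H * P) := by rw [hs2]
      have hLq2 : (L ^ (δ' / 4)) ^ 2 ≤ L ^ δ' := by
        rw [← Real.rpow_natCast, ← Real.rpow_mul hL0.le]
        apply Real.rpow_le_rpow_of_exponent_le hL1
        push_cast
        linarith
      have hhb : (L ^ (δ' / 4)) ^ 2 ≤ h := by
        refine hLq2.trans (le_trans ?_ hh)
        exact Real.rpow_le_rpow_of_exponent_le hL1 (by linarith)
      have hhb' : (L ^ (δ' / 4)) ^ 2 ≤ h' := by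
        refine hLq2.trans (hLδL.trans (hLz.trans ?_))
        exact_mod_cast hzh'
      have s1 := hsqrt h Py (Real.log y ^ C1) (by positivity) hhb g1 l1
      have s2 := hsqrt h' Py (Real.log y ^ C1) (by positivity) hhb' g1 l1
      have s3 := hsqrt h' Pz (Real.log z ^ C1) (by positivity) hhb' g2 l2
      -- the quarter power
      have hq : ∀ H : ℕ, (H : ℝ) / (y : ℝ) ^ (1 / 4 : ℝ) ≤ η * (H * (r * Py)) := by
        intro H
        have hyq : L ^ (δ' / 4) / 2 ≤ (y : ℝ) ^ (1 / 4 : ℝ) := by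
          have h1 : (L ^ δ' / 2) ^ (1 / 4 : ℝ) ≤ (y : ℝ) ^ (1 / 4 : ℝ) := Real.rpow_le_rpow (by positivity) hyhalf (by norm_num)
          refine le_trans ?_ h1
          rw [Real.div_rpow hLδ0.le (by norm_num), ← Real.rpow_mul hL0.le]
          have e1 : δ' * (1 / 4) = δ' / 4 := by ring
          rw [e1]
          apply div_le_div_of_nonneg_left hLq.le (by positivity)
          calc (2 : ℝ) ^ (1 / 4 : ℝ) ≤ (2 : ℝ) ^ (1 : ℝ) := Real.rpow_le_rpow_of_exponent_le (by norm_num) (by norm_num)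
            _ = 2 := Real.rpow_one 2
        have hyq0 : 0 < (y : ℝ) ^ (1 / 4 : ℝ) := by positivity
        have hG : 1 / (Real.log z ^ C2 * Real.log y ^ C1) ≤ r * Py := by
          calc 1 / (Real.log z ^ C2 * Real.log y ^ C1) = (1 / Real.log z ^ C2) * (1 / Real.log y ^ C1) := by
                rw [one_div_mul_one_div]
            _ ≤ r * Py := mul_le_mul l3 l1 (by positivity) hr0.le
        have hGp : 0 < Real.log z ^ C2 * Real.log y ^ C1 := by positivity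
        have h1 : 1 ≤ η * (y : ℝ) ^ (1 / 4 : ℝ) * (r * Py) := by
          have h2 : Real.log z ^ C2 * Real.log y ^ C1 ≤ η * (y : ℝ) ^ (1 / 4 : ℝ) := by
            refine g3.trans ?_
            have h4 : η * (L ^ (δ' / 4) / 2) ≤ η * (y : ℝ) ^ (1 / 4 : ℝ) := mul_le_mul_of_nonneg_left hyq hη0.le
            linarith
          calc (1 : ℝ) = (Real.log z ^ C2 * Real.log y ^ C1) * (1 / (Real.log z ^ C2 * Real.log y ^ C1)) := by field_simp
            _ ≤ (η * (y : ℝ) ^ (1 / 4 : ℝ)) * (r * Py) := mul_le_mul h2 hG (by positivity) (by positivity)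
        rw [div_le_iff₀ hyq0]
        have hH0 : (0 : ℝ) ≤ H := Nat.cast_nonneg _
        calc (H : ℝ) = H * 1 := (mul_one _).symm
          _ ≤ H * (η * (y : ℝ) ^ (1 / 4 : ℝ) * (r * Py)) := mul_le_mul_of_nonneg_left h1 hH0
          _ = η * (H * (r * Py)) * (y : ℝ) ^ (1 / 4 : ℝ) := by ring
      have hhpos : (0 : ℝ) < h := by
        have : 0 < L ^ δ := Real.rpow_pos_of_pos hL0 _
        linarith
      have hh'pos : (0 : ℝ) < h' := by
        have : (z : ℝ) ≤ h' := by exact_mod_cast hzh'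
        linarith
      have key := combine η h h' Py Pz r (Sv b q A F (Ioc a (a + h)) (pz y) c).card (Sv b q A F (Ioc a (a + h)) (pz z) c).card
        (Sv b q A F (Ioc 0 (0 + h')) (pz y) c).card (Sv b q A F (Ioc 0 (0 + h')) (pz z) c).card hη0 hη1 hhpos hh'pos hPy0 hPz0 hr0
        (f1.trans (by linarith)) (b1.trans (hq h)) (f2.trans (by linarith)) (b2.trans (hq h')) (f3.trans (by linarith))
      refine key.trans ?_
      apply mul_le_mul_of_nonneg_right hηε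
      positivity
    · push Not at hnd
      obtain ⟨p, hp, hndp⟩ := hnd
      rw [Sv_empty b q A F _ (pz z) c p hp hndp, PQ_zero b q A F z c p hp hndp]
      simp
  have hcard : ((W.filter (fun c => ¬ |((Sv b q A F (Ioc a (a + h)) (pz z) c).card : ℝ) - h * PQ b q A F z c| ≤ ε * (h * PQ b q A F z c))).card : ℝ) ≤
      Kt / (y : ℝ) ^ t * W.card + Kt / (y : ℝ) ^ t * W.card := by
    have h1 := (card_le_card hsub).trans (card_union_le _ _)
    have h2 : ((W.filter (fun c => ¬ |((Sv b q A F (Ioc a (a + h)) (pz z) c).card : ℝ) - h * PQ b q A F z c| ≤ ε * (h * PQ b q A F z c))).card : ℝ) ≤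
        ((W.filter (fun c => (∀ p ∈ md y z q, nd A F p c) ∧ (h : ℝ) / (y : ℝ) ^ (1 / 4 : ℝ) <
        |((Sv b q A F (Ioc a (a + h)) (pz y ∪ md y z q) c).card : ℝ) - r * (Sv b q A F (Ioc a (a + h)) (pz y) c).card|)).card : ℝ) +
      ((W.filter (fun c => (∀ p ∈ md y z q, nd A F p c) ∧ (h' : ℝ) / (y : ℝ) ^ (1 / 4 : ℝ) <
        |((Sv b q A F (Ioc 0 (0 + h')) (pz y ∪ md y z q) c).card : ℝ) - r * (Sv b q A F (Ioc 0 (0 + h')) (pz y) c).card|)).card : ℝ) := by exact_mod_cast h1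
    exact h2.trans (add_le_add hd1 hd2)
  refine hcard.trans ?_
  have hW0 : (0 : ℝ) ≤ W.card := Nat.cast_nonneg _
  have hyt : L ^ (B + 1) / 2 ^ t ≤ (y : ℝ) ^ t := by
    have h1 : (L ^ δ' / 2) ^ t ≤ (y : ℝ) ^ t := pow_le_pow_left₀ (by positivity) hyhalf t
    refine le_trans ?_ h1
    rw [div_pow]
    apply div_le_div_of_nonneg_right _ (by positivity)
    rw [← Real.rpow_natCast, ← Real.rpow_natCast, ← Real.rpow_mul hL0.le]
    apply Real.rpow_le_rpow_of_exponent_le hL1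
    push_cast
    exact hδt
  have hkey : 2 * (Kt / (y : ℝ) ^ t) ≤ 1 / L ^ B := by
    rw [← mul_div_assoc, div_le_div_iff₀ (by positivity) (by positivity), one_mul]
    calc 2 * Kt * L ^ B = (2 * Kt * 2 ^ t) * L ^ B / 2 ^ t := by field_simp
      _ ≤ L * L ^ B / 2 ^ t := by
          apply div_le_div_of_nonneg_right _ (by positivity)
          exact mul_le_mul_of_nonneg_right hLKt (by positivity)
      _ = L ^ (B + 1) / 2 ^ t := by rw [pow_succ]; ring
      _ ≤ (y : ℝ) ^ t := hyt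
  calc Kt / (y : ℝ) ^ t * (W.card : ℝ) + Kt / (y : ℝ) ^ t * W.card = 2 * (Kt / (y : ℝ) ^ t) * W.card := by ring
    _ ≤ 1 / L ^ B * W.card := mul_le_mul_of_nonneg_right hkey hW0
    _ = W.card / L ^ B := by ring

end Pool.Agent.Q236.LG
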