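import Pool.Agent.Q236.LG.Low

set_option autoImplicit false

/-!
# The number of surviving points in an interval
-/

namespace Pool.Agent.Q236.LG

open Finset Filter Polynomial
open Pool.Agent.Q236.MR (pv phi Fz rd Om mem_Om card_Om Om_pos class_ap Om_count pairs_le Per box_per crt_two crt_many box_sieve dvd_sub_emod prod_close pow_small card_BA_real ba_class TT TT_mono TT_sum TT_mul TT_congr TT_zero TT_const TT_le TT_nonneg qq TT_corr TT_exp TT_moment)
open Pool.Agent.Q236.RP (ev_log_ge ev_pow_log eval_mod)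
open Pool.Agent.Q236.CG (BA mem_BA)
open Pool.Agent.H373R2.T7 (pz mem_pz sum_pz_le Vz Vz_low nuB PerB nuB_le sys_fund)
open Pool.Agent.W123.RP (nuB_shift)

variable {n d e : ℕ}

open Classical in
/-- the number of bad residues -/
noncomputable def omb (b q : ℕ) (A : LF n e) (F : Fin n → ℤ[X]) (c : Fin n → Fin d → ℤ) (p : ℕ) : ℕ :=
  ((range p).filter (fun k => ¬ gd b q A F p c k)).card

/-- the density of the surviving points -/
noncomputable def PQ (b q : ℕ) (A : LF n e) (F : Fin n → ℤ[X]) (z : ℕ) (c : Fin n → Fin d → ℤ) : ℝ :=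
  ∏ p ∈ pz z, (1 - (omb b q A F c p : ℝ) / p)

lemma omb_le (b q : ℕ) (A : LF n e) (F : Fin n → ℤ[X]) (c : Fin n → Fin d → ℤ) (p : ℕ) : omb b q A F c p ≤ p := by
  classical
  unfold omb
  refine (card_filter_le _ _).trans ?_
  rw [card_range]

lemma PQ_nonneg (b q : ℕ) (A : LF n e) (F : Fin n → ℤ[X]) (z : ℕ) (c : Fin n → Fin d → ℤ) : 0 ≤ PQ b q A F z c := by
  unfold PQ
  apply Finset.prod_nonneg
  intro p hp
  have hp0 : (0 : ℝ) < p := by exact_mod_cast (mem_pz.1 hp).2.pos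
  have : (omb b q A F c p : ℝ) ≤ p := by exact_mod_cast omb_le b q A F c p
  have h2 : (omb b q A F c p : ℝ) / p ≤ 1 := by rw [div_le_one hp0]; exact this
  linarith

lemma PQ_zero (b q : ℕ) (A : LF n e) (F : Fin n → ℤ[X]) (z : ℕ) (c : Fin n → Fin d → ℤ) (p : ℕ) (hp : p ∈ pz z)
    (h : ¬ ndq b q A F p c) : PQ b q A F z c = 0 := by
  classical
  unfold PQ
  apply Finset.prod_eq_zero hp
  have hp0 : (p : ℝ) ≠ 0 := by exact_mod_cast (mem_pz.1 hp).2.ne_zero
  have : omb b q A F c p = p := by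
    unfold omb
    rw [Finset.filter_true_of_mem, card_range]
    intro k _ hk
    exact h ⟨k, hk⟩
  rw [this, div_self hp0, sub_self]

lemma Sv_empty (b q : ℕ) (A : LF n e) (F : Fin n → ℤ[X]) (I P : Finset ℕ) (c : Fin n → Fin d → ℤ) (p : ℕ) (hp : p ∈ P)
    (h : ¬ ndq b q A F p c) : Sv b q A F I P c = ∅ := by
  classical
  unfold Sv
  rw [filter_eq_empty_iff]
  intro k _ hk
  exact h ⟨k, hk p hp⟩

/-- the primes dividing the difference of the progression do not matter -/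
lemma Sv_drop (b q : ℕ) (A : LF n e) (F : Fin n → ℤ[X]) (I : Finset ℕ) (y z : ℕ) (hyz : y ≤ z) (c : Fin n → Fin d → ℤ)
    (h : ∀ p ∈ pz z, ndq b q A F p c) : Sv b q A F I (pz y ∪ md y z q) c = Sv b q A F I (pz z) c := by
  classical
  unfold Sv
  apply Finset.filter_congr
  intro k _
  constructor
  · intro h1 p hp
    have hp' := hp
    rw [pz_split y z q hyz, mem_union] at hp'
    rcases hp' with hp' | hp'
    · exact h1 p hp'
    · exact gd_dvd b q A F c p k ((mem_mq y z q p).1 hp').2.2 (h p hp)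
  · intro h1 p hp
    apply h1 p
    rw [pz_split y z q hyz]
    exact mem_union_left _ hp

lemma omb_eq (b q : ℕ) (A : LF n e) (F : Fin n → ℤ[X]) (c : Fin n → Fin d → ℤ) (p : ℕ) (h : ndq b q A F p c) :
    nuB (Qc b q A F c) p = omb b q A F c p := by
  classical
  unfold nuB omb
  have : (range p).filter (fun r => Qc b q A F c p r) = (range p).filter (fun k => ¬ gd b q A F p c k) := by
    apply Finset.filter_congr
    intro k _
    unfold Qc
    exact ⟨fun h => h.2, fun h2 => ⟨h, h2⟩⟩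
  rw [← this]

lemma PQ_eq (b q : ℕ) (A : LF n e) (F : Fin n → ℤ[X]) (z : ℕ) (c : Fin n → Fin d → ℤ) (h : ∀ p ∈ pz z, ndq b q A F p c) :
    PQ b q A F z c = ∏ p ∈ pz z, (1 - (nuB (Qc b q A F c) p : ℝ) / p) := by
  unfold PQ
  apply Finset.prod_congr rfl
  intro p hp
  rw [omb_eq b q A F c p (h p hp)]

lemma nuB_lt (b q : ℕ) (A : LF n e) (F : Fin n → ℤ[X]) (c : Fin n → Fin d → ℤ) (p : ℕ) (hp : p.Prime) (h : ndq b q A F p c) :
    nuB (Qc b q A F c) p < p := by
  classical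
  rw [omb_eq b q A F c p h]
  obtain ⟨k, hk⟩ := h
  unfold omb
  have h1 : ((range p).filter (fun k => ¬ gd b q A F p c k)) ⊂ range p := by
    rw [Finset.ssubset_iff_of_subset (filter_subset _ _)]
    refine ⟨k % p, mem_range.2 (Nat.mod_lt _ hp.pos), ?_⟩
    rw [mem_filter, not_and_not_right]
    intro _
    exact (gd_mod b q A F c p k (k % p) (Nat.mod_modEq k p).symm).1 hk
  have h2 := card_lt_card h1
  rwa [card_range] at h2

open Classical in
/-- the fundamental lemma for an interval -/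
lemma fund_int (κ : ℕ) (hκ : 1 ≤ κ) (ε : ℝ) (hε : 0 < ε) : ∃ K x0 : ℕ, 1 ≤ K ∧ ∀ h y : ℕ, x0 ≤ y → y ^ K ≤ h →
    ∀ Q : ℕ → ℕ → Prop, PerB Q κ → ∀ a : ℕ, |((((Ioc a (a + h)).filter (fun n : ℕ => ∀ p ∈ pz y, ¬ Q p n)).card : ℕ) : ℝ) -
      h * ∏ p ∈ pz y, (1 - (nuB Q p : ℝ) / p)| ≤ ε * (h * ∏ p ∈ pz y, (1 - (nuB Q p : ℝ) / p)) + √(h : ℝ) := by
  obtain ⟨K, x0, hK, hf⟩ := sys_fund κ hκ ε hε
  refine ⟨K, x0, hK, ?_⟩
  intro h y hy hyh Q hQ a
  have hsh : ∀ p, nuB (fun p n => Q p (n + a)) p = nuB Q p := by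
    intro p
    have := nuB_shift Q κ hQ a p
    rw [← this]
    unfold nuB
    congr
  have hper : PerB (fun p n => Q p (n + a)) κ := by
    constructor
    · intro p n
      have h1 := hQ.per p (n + a)
      have h2 := hQ.per p (n % p + a)
      rw [Nat.mod_add_mod] at h2
      exact h1.trans h2.symm
    · intro p hp
      rw [hsh]
      exact hQ.few p hp
  have h1 := hf h y hy hyh (fun p n => Q p (n + a)) hper h
  simp only [hsh] at h1
  have h2 : ((Ioc a (a + h)).filter (fun n : ℕ => ∀ p ∈ pz y, ¬ Q p n)).card =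
      ((Icc 1 h).filter (fun n : ℕ => ∀ p ∈ pz y, ¬ Q p (n + a))).card := by
    symm
    apply card_bij (fun n _ => n + a)
    · intro n hn
      rw [mem_filter, mem_Icc] at hn
      rw [mem_filter, mem_Ioc]
      exact ⟨by omega, hn.2⟩
    · intro n _ m _ hnm
      omega
    · intro m hm
      rw [mem_filter, mem_Ioc] at hm
      refine ⟨m - a, ?_, by omega⟩
      rw [mem_filter, mem_Icc]
      refine ⟨by omega, ?_⟩
      have : m - a + a = m := by omega
      rw [this]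
      exact hm.2
  rw [h2]
  exact h1

/-- the combination of the five estimates -/
lemma combine (η h h' Py Pz r sy sz sy' sz' : ℝ) (hη0 : 0 < η) (hη1 : η ≤ 1 / 10) (hh : 0 < h) (hh' : 0 < h') (hPy : 0 < Py)
    (hPz : 0 < Pz) (hr : 0 < r)
    (e1 : |sy - h * Py| ≤ 2 * η * (h * Py)) (e2 : |sz - r * sy| ≤ η * (h * (r * Py)))
    (e3 : |sy' - h' * Py| ≤ 2 * η * (h' * Py)) (e4 : |sz' - r * sy'| ≤ η * (h' * (r * Py)))
    (e5 : |sz' - h' * Pz| ≤ 2 * η * (h' * Pz)) : |sz - h * Pz| ≤ 14 * η * (h * Pz) := by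
  rw [abs_le] at e1 e2 e3 e4 e5
  obtain ⟨t, ht⟩ : ∃ t, t = r * Py := ⟨_, rfl⟩
  have ht0 : 0 < t := by rw [ht]; positivity
  have f1 : |r * sy - h * t| ≤ 2 * η * (h * t) := by
    have : r * sy - h * t = r * (sy - h * Py) := by rw [ht]; ring
    rw [this, abs_mul, abs_of_pos hr]
    have h2 : |sy - h * Py| ≤ 2 * η * (h * Py) := abs_le.2 e1
    calc r * |sy - h * Py| ≤ r * (2 * η * (h * Py)) := mul_le_mul_of_nonneg_left h2 hr.le
      _ = 2 * η * (h * t) := by rw [ht]; ring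
  have f3 : |r * sy' - h' * t| ≤ 2 * η * (h' * t) := by
    have : r * sy' - h' * t = r * (sy' - h' * Py) := by rw [ht]; ring
    rw [this, abs_mul, abs_of_pos hr]
    have h2 : |sy' - h' * Py| ≤ 2 * η * (h' * Py) := abs_le.2 e3
    calc r * |sy' - h' * Py| ≤ r * (2 * η * (h' * Py)) := mul_le_mul_of_nonneg_left h2 hr.le
      _ = 2 * η * (h' * t) := by rw [ht]; ring
  rw [abs_le] at f1 f3
  rw [← ht] at e2 e4
  -- `|Pz - t| ≤ 2 η Pz + 3 η t`
  have g1 : h' * Pz ≤ h' * t + 2 * η * (h' * Pz) + 3 * η * (h' * t) := by linarith [e4.2, e5.1, f3.2]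
  have g2 : h' * t ≤ h' * Pz + 2 * η * (h' * Pz) + 3 * η * (h' * t) := by linarith [e4.1, e5.2, f3.1]
  have g1' : Pz ≤ t + 2 * η * Pz + 3 * η * t := by
    have : h' * Pz ≤ h' * (t + 2 * η * Pz + 3 * η * t) := by nlinarith [g1]
    exact le_of_mul_le_mul_left this hh'
  have g2' : t ≤ Pz + 2 * η * Pz + 3 * η * t := by
    have : h' * t ≤ h' * (Pz + 2 * η * Pz + 3 * η * t) := by nlinarith [g2]
    exact le_of_mul_le_mul_left this hh'
  have ht2 : t ≤ 2 * Pz := by
    nlinarith [mul_nonneg (by linarith : (0 : ℝ) ≤ 1 / 10 - η) hPz.le, mul_nonneg (by linarith : (0 : ℝ) ≤ 1 / 10 - η) ht0.le]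
  have hηt : η * t ≤ η * (2 * Pz) := mul_le_mul_of_nonneg_left ht2 hη0.le
  have k1 : t ≤ Pz + 8 * η * Pz := by nlinarith
  have k2 : Pz - 8 * η * Pz ≤ t := by nlinarith
  have m1 : sz - h * t ≤ 3 * η * (h * t) := by linarith [e2.2, f1.2]
  have m2 : -(3 * η * (h * t)) ≤ sz - h * t := by linarith [e2.1, f1.1]
  have m3 : 3 * η * (h * t) ≤ 6 * η * (h * Pz) := by
    have : 3 * η * (h * t) = 3 * h * (η * t) := by ring
    rw [this]
    have h2 : 3 * h * (η * t) ≤ 3 * h * (η * (2 * Pz)) := mul_le_mul_of_nonneg_left hηt (by positivity)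
    linarith
  have m4 : h * t ≤ h * (Pz + 8 * η * Pz) := mul_le_mul_of_nonneg_left k1 hh.le
  have m5 : h * (Pz - 8 * η * Pz) ≤ h * t := mul_le_mul_of_nonneg_left k2 hh.le
  rw [abs_le]
  constructor
  · linarith
  · linarith

lemma ev_ll (a : ℝ) (ha : 0 < a) (b : ℕ) (c : ℝ) (hc : 0 < c) : ∀ᶠ X : ℕ in atTop,
    Real.log (Real.log X) ^ b ≤ c * Real.log X ^ a := by
  have h1 := (isLittleO_log_rpow_rpow_atTop (b : ℝ) ha).def hc
  have h2 := (Real.tendsto_log_atTop.comp (tendsto_natCast_atTop_atTop (R := ℝ))).eventually h1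
  filter_upwards [h2, ev_log_ge 1] with X h3 h4
  have hl : 0 ≤ Real.log (Real.log X) := Real.log_nonneg h4
  have h5 : (0 : ℝ) ≤ Real.log X ^ a := Real.rpow_nonneg (by linarith) a
  simp only [Function.comp_apply] at h3
  rw [Real.rpow_natCast, Real.norm_of_nonneg (pow_nonneg hl b), Real.norm_of_nonneg h5] at h3
  exact h3

end Pool.Agent.Q236.LG
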