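import Pool.Agent.Q236.MR.LocC

set_option autoImplicit false

/-!
# Systems of affine forms in the values of random polynomials: residues at one and two points
-/

namespace Pool.Agent.Q236.LG

open Finset Polynomial
open Pool.Agent.Q236.MR (pv phi Fz rd phi_surj phi2_surj card_fun card_arr count_surj)

variable {n d e : ℕ}

/-- a system of `e` affine linear forms in `n` variables -/
structure LF (n e : ℕ) where
  /-- the coefficients -/
  s : Fin e → Fin n → ℤ
  /-- the constant terms -/
  r : Fin e → ℤ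

/-- the value of a form -/
def lv (A : LF n e) (v : Fin n → ℤ) (t : Fin e) : ℤ := ∑ i, A.s t i * v i + A.r t

/-- no form is divisible by `p` at `k` -/
def good (A : LF n e) (F : Fin n → ℤ[X]) (p : ℕ) (c : Fin n → Fin d → ℤ) (k : ℕ) : Prop :=
  ∀ t, ¬ (p : ℤ) ∣ lv A (pv F c k) t

/-- some argument is good -/
def nd (A : LF n e) (F : Fin n → ℤ[X]) (p : ℕ) (c : Fin n → Fin d → ℤ) : Prop := ∃ k : ℕ, good A F p c k

section Mod

variable (p : ℕ) [Fact p.Prime]

/-- good residues -/
def gz (A : LF n e) (u : Fin n → ZMod p) : Prop := ∀ t, ∑ i, (A.s t i : ZMod p) * u i + (A.r t : ZMod p) ≠ 0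

lemma good_iff (A : LF n e) (F : Fin n → ℤ[X]) (c : Fin n → Fin d → ℤ) (k : ℕ) :
    good A F p c k ↔ gz p A (Fz p F k + phi p k (rd p c)) := by
  unfold good gz
  apply forall_congr'
  intro t
  rw [not_iff_not, ← ZMod.intCast_zmod_eq_zero_iff_dvd]
  unfold lv pv
  push_cast
  rfl

open Classical in
/-- the density of the good residues -/
noncomputable def qd (A : LF n e) : ℝ := ((univ.filter (fun u : Fin n → ZMod p => gz p A u)).card : ℝ) / (p : ℝ) ^ n

open Classical in
lemma card_shift (A : LF n e) (w : Fin n → ZMod p) :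
    (univ.filter (fun u : Fin n → ZMod p => gz p A (w + u))).card = (univ.filter (fun u : Fin n → ZMod p => gz p A u)).card := by
  apply Finset.card_nbij' (fun u => w + u) (fun u => u - w)
  · intro u hu
    simp only [coe_filter, mem_univ, true_and, Set.mem_setOf_eq] at hu ⊢
    exact hu
  · intro u hu
    simp only [coe_filter, mem_univ, true_and, Set.mem_setOf_eq] at hu ⊢
    rw [add_sub_cancel]
    exact hu
  · intro u _
    simp
  · intro u _
    simp

open Classical in
/-- **one point** -/
lemma one_point (A : LF n e) (F : Fin n → ℤ[X]) (hd : 1 ≤ d) (k : ℕ) :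
    ((univ.filter (fun c : Fin n → Fin d → ZMod p => gz p A (Fz p F k + phi p k c))).card : ℝ) = qd p A * ((p ^ d) ^ n : ℕ) := by
  have hp0 : (0 : ℝ) < p := by exact_mod_cast (Fact.out : p.Prime).pos
  have h := count_surj (phi (n := n) (d := d) p k) (phi_surj p hd k) (fun u => gz p A (Fz p F k + u))
  rw [card_shift, card_fun, card_arr] at h
  have h' : ((univ.filter (fun c : Fin n → Fin d → ZMod p => gz p A (Fz p F k + phi p k c))).card : ℝ) * (p : ℝ) ^ n =
      (univ.filter (fun u : Fin n → ZMod p => gz p A u)).card * ((p ^ d) ^ n : ℕ) := by exact_mod_cast h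
  unfold qd
  rw [div_mul_eq_mul_div, eq_div_iff (by positivity)]
  exact h'

open Classical in
/-- **two points** -/
lemma two_points (A : LF n e) (F : Fin n → ℤ[X]) (hd : 2 ≤ d) (k l : ℕ) (hkl : (k : ZMod p) ≠ (l : ZMod p)) :
    ((univ.filter (fun c : Fin n → Fin d → ZMod p => gz p A (Fz p F k + phi p k c) ∧ gz p A (Fz p F l + phi p l c))).card : ℝ) =
      qd p A ^ 2 * ((p ^ d) ^ n : ℕ) := by
  have hp0 : (0 : ℝ) < p := by exact_mod_cast (Fact.out : p.Prime).pos
  have h := count_surj ((phi (n := n) (d := d) p k).prod (phi (n := n) (d := d) p l)) (phi2_surj p hd k l hkl)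
    (fun u => gz p A (Fz p F k + u.1) ∧ gz p A (Fz p F l + u.2))
  have h2 : (univ.filter (fun u : (Fin n → ZMod p) × (Fin n → ZMod p) => gz p A (Fz p F k + u.1) ∧ gz p A (Fz p F l + u.2))) =
      (univ.filter (fun u : Fin n → ZMod p => gz p A (Fz p F k + u))) ×ˢ (univ.filter (fun u : Fin n → ZMod p => gz p A (Fz p F l + u))) := by
    ext u
    simp [Finset.mem_product]
  rw [h2, card_product, card_shift, card_shift, Fintype.card_prod, card_fun, card_arr] at h
  have h' : ((univ.filter (fun c : Fin n → Fin d → ZMod p => gz p A (Fz p F k + phi p k c) ∧ gz p A (Fz p F l + phi p l c))).card : ℝ) *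
      ((p : ℝ) ^ n * (p : ℝ) ^ n) = (univ.filter (fun u : Fin n → ZMod p => gz p A u)).card *
      (univ.filter (fun u : Fin n → ZMod p => gz p A u)).card * ((p ^ d) ^ n : ℕ) := by exact_mod_cast h
  unfold qd
  rw [div_pow, div_mul_eq_mul_div, eq_div_iff (by positivity), sq, sq]
  exact h'

lemma qd_nonneg (A : LF n e) : 0 ≤ qd p A := by unfold qd; positivity

/-- a linear functional -/
noncomputable def lfun (s : Fin n → ℤ) : (Fin n → ZMod p) →+ ZMod p where
  toFun u := ∑ i, (s i : ZMod p) * u i
  map_zero' := by simp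
  map_add' u u' := by simp only [Pi.add_apply, mul_add, Finset.sum_add_distrib]

lemma lfun_apply (s : Fin n → ℤ) (u : Fin n → ZMod p) : lfun p s u = ∑ i, (s i : ZMod p) * u i := rfl

lemma lfun_surj (s : Fin n → ℤ) (hs : ∃ i, (s i : ZMod p) ≠ 0) : Function.Surjective (lfun p s) := by
  obtain ⟨i, hi⟩ := hs
  intro x
  refine ⟨Pi.single i (x / s i), ?_⟩
  rw [lfun_apply, Finset.sum_eq_single i]
  · rw [Pi.single_eq_same, mul_div_cancel₀ x hi]
  · intro j _ hj
    rw [Pi.single_eq_of_ne hj, mul_zero]
  · intro h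
    exact absurd (mem_univ _) h

lemma card_coord (s : Fin n → ℤ) (hs : ∃ i, (s i : ZMod p) ≠ 0) (a : ZMod p) : by classical exact
    (univ.filter (fun u : Fin n → ZMod p => lfun p s u = a)).card * p = p ^ n := by
  classical
  have h := count_surj (G := Fin n → ZMod p) (H := ZMod p) (lfun p s) (lfun_surj p s hs) (fun x => x = a)
  rw [card_fun, ZMod.card] at h
  have h1 : (univ.filter (fun x : ZMod p => x = a)).card = 1 := by
    rw [Finset.card_eq_one]
    exact ⟨a, by ext x; simp⟩
  rw [h1, one_mul] at h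
  exact h

lemma qd_ge (A : LF n e) (hs : ∀ t, ∃ i, (A.s t i : ZMod p) ≠ 0) : 1 - e / (p : ℝ) ≤ qd p A := by
  classical
  have hp0 : (0 : ℝ) < p := by exact_mod_cast (Fact.out : p.Prime).pos
  have h1 : (univ : Finset (Fin n → ZMod p)) ⊆ (univ.filter (fun u : Fin n → ZMod p => gz p A u)) ∪
      (univ : Finset (Fin e)).biUnion (fun t => univ.filter (fun u : Fin n → ZMod p => lfun p (A.s t) u = -(A.r t : ZMod p))) := by
    intro u _
    rw [mem_union, mem_biUnion]
    by_cases h : gz p A u
    · left
      exact mem_filter.2 ⟨mem_univ _, h⟩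
    · right
      unfold gz at h
      push Not at h
      obtain ⟨t, ht⟩ := h
      refine ⟨t, mem_univ _, mem_filter.2 ⟨mem_univ _, ?_⟩⟩
      rw [lfun_apply]
      linear_combination ht
  have h2 := (card_le_card h1).trans (card_union_le _ _)
  have h3 : (p : ℝ) ^ n ≤ (univ.filter (fun u : Fin n → ZMod p => gz p A u)).card + e * ((p : ℝ) ^ n / p) := by
    have h4 : ((univ : Finset (Fin e)).biUnion (fun t => univ.filter (fun u : Fin n → ZMod p => lfun p (A.s t) u = -(A.r t : ZMod p)))).card ≤
        ∑ t : Fin e, (univ.filter (fun u : Fin n → ZMod p => lfun p (A.s t) u = -(A.r t : ZMod p))).card := card_biUnion_le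
    have h5 : ∀ t : Fin e, ((univ.filter (fun u : Fin n → ZMod p => lfun p (A.s t) u = -(A.r t : ZMod p))).card : ℝ) = (p : ℝ) ^ n / p := by
      intro t
      rw [eq_div_iff hp0.ne']
      have := card_coord (n := n) p (A.s t) (hs t) (-(A.r t : ZMod p))
      exact_mod_cast this
    have h6 : (((univ : Finset (Fin e)).biUnion (fun t => univ.filter (fun u : Fin n → ZMod p => lfun p (A.s t) u = -(A.r t : ZMod p)))).card : ℝ) ≤
        e * ((p : ℝ) ^ n / p) := by
      calc (((univ : Finset (Fin e)).biUnion (fun t => univ.filter (fun u : Fin n → ZMod p => lfun p (A.s t) u = -(A.r t : ZMod p)))).card : ℝ) ≤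
          ∑ t : Fin e, ((univ.filter (fun u : Fin n → ZMod p => lfun p (A.s t) u = -(A.r t : ZMod p))).card : ℝ) := by exact_mod_cast h4
        _ = e * ((p : ℝ) ^ n / p) := by
          rw [Finset.sum_congr rfl (fun t _ => h5 t), Finset.sum_const, card_univ, Fintype.card_fin, nsmul_eq_mul]
    have h7 : ((univ : Finset (Fin n → ZMod p)).card : ℝ) = (p : ℝ) ^ n := by
      rw [card_univ, card_fun]
      push_cast
      rfl
    have h8 : ((univ : Finset (Fin n → ZMod p)).card : ℝ) ≤ (univ.filter (fun u : Fin n → ZMod p => gz p A u)).card +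
        ((univ : Finset (Fin e)).biUnion (fun t => univ.filter (fun u : Fin n → ZMod p => lfun p (A.s t) u = -(A.r t : ZMod p)))).card := by
      exact_mod_cast h2
    linarith
  unfold qd
  rw [le_div_iff₀ (by positivity)]
  have : (1 - e / (p : ℝ)) * (p : ℝ) ^ n = (p : ℝ) ^ n - e * ((p : ℝ) ^ n / p) := by ring
  linarith

lemma qd_le_one (A : LF n e) : qd p A ≤ 1 := by
  classical
  have hp0 : (0 : ℝ) < p := by exact_mod_cast (Fact.out : p.Prime).pos
  unfold qd
  rw [div_le_one (by positivity)]
  have : (univ.filter (fun u : Fin n → ZMod p => gz p A u)).card ≤ p ^ n := by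
    rw [← card_fun (n := n) p, ← card_univ]
    exact card_filter_le _ _
  exact_mod_cast this

end Mod

end Pool.Agent.Q236.LG
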