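import Pool.Agent.Q236.LG.LocB

set_option autoImplicit false

/-!
# One step of the product model
-/

namespace Pool.Agent.Q236.LG

open Finset Polynomial
open Pool.Agent.Q236.MR (pv phi Fz rd Om mem_Om card_Om Om_pos class_ap Om_count pairs_le)

variable {n d e : ℕ}

section Mod

variable (p : ℕ) [Fact p.Prime]

open Classical in
/-- the sum of the numbers of surviving points -/
lemma sum_surv (A : LF n e) (F : Fin n → ℤ[X]) (hd : 1 ≤ d) (S : Finset ℕ) (b q : ℕ) :
    ∑ c ∈ Om n d p, ((S.filter (fun k => good A F p c (b + q * k))).card : ℝ) = qd p A * S.card * (Om n d p).card := by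
  have h1 : ∀ c : Fin n → Fin d → ℤ, ((S.filter (fun k => good A F p c (b + q * k))).card : ℝ) = ∑ k ∈ S, if good A F p c (b + q * k) then (1 : ℝ) else 0 := by
    intro c
    rw [← Finset.sum_filter, Finset.sum_const, nsmul_eq_mul, mul_one]
  rw [Finset.sum_congr rfl (fun c _ => h1 c), Finset.sum_comm]
  have h2 : ∀ k ∈ S, ∑ c ∈ Om n d p, (if good A F p c (b + q * k) then (1 : ℝ) else 0) = qd p A * (Om n d p).card := by
    intro k _
    rw [← Finset.sum_filter, Finset.sum_const, nsmul_eq_mul, mul_one]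
    exact om_one p A F hd (b + q * k)
  rw [Finset.sum_congr rfl h2, Finset.sum_const, nsmul_eq_mul]
  ring

open Classical in
/-- the second moment -/
lemma sum_surv_sq (A : LF n e) (F : Fin n → ℤ[X]) (hd : 2 ≤ d) (S : Finset ℕ) (a h : ℕ) (hS : S ⊆ Ioc a (a + h))
    (b q : ℕ) (hq : (q : ZMod p) ≠ 0) :
    ∑ c ∈ Om n d p, ((S.filter (fun k => good A F p c (b + q * k))).card : ℝ) ^ 2 ≤
      (qd p A ^ 2 * (S.card : ℝ) ^ 2 + (qd p A - qd p A ^ 2) * (h * (h / p + 1))) * (Om n d p).card := by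
  have hq0 := qd_nonneg p A
  have hq1 := qd_le_one p A
  have hN : (0 : ℝ) ≤ (Om n d p).card := Nat.cast_nonneg _
  have h1 : ∀ c : Fin n → Fin d → ℤ, ((S.filter (fun k => good A F p c (b + q * k))).card : ℝ) ^ 2 =
      ∑ x ∈ S ×ˢ S, if good A F p c (b + q * x.1) ∧ good A F p c (b + q * x.2) then (1 : ℝ) else 0 := by
    intro c
    rw [sq]
    have h2 : ((S.filter (fun k => good A F p c (b + q * k))).card : ℝ) = ∑ k ∈ S, if good A F p c (b + q * k) then (1 : ℝ) else 0 := by
      rw [← Finset.sum_filter, Finset.sum_const, nsmul_eq_mul, mul_one]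
    rw [h2, Finset.sum_mul_sum, ← Finset.sum_product']
    apply Finset.sum_congr rfl
    intro x _
    by_cases ha : good A F p c (b + q * x.1)
    · by_cases hb : good A F p c (b + q * x.2)
      · simp [ha, hb]
      · simp [ha, hb]
    · simp [ha]
  rw [Finset.sum_congr rfl (fun c _ => h1 c), Finset.sum_comm]
  have h3 : ∀ x ∈ S ×ˢ S, ∑ c ∈ Om n d p, (if good A F p c (b + q * x.1) ∧ good A F p c (b + q * x.2) then (1 : ℝ) else 0) ≤
      qd p A ^ 2 * (Om n d p).card + (if (x.1 : ZMod p) = (x.2 : ZMod p) then (qd p A - qd p A ^ 2) * (Om n d p).card else 0) := by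
    intro x _
    rw [← Finset.sum_filter, Finset.sum_const, nsmul_eq_mul, mul_one]
    by_cases hx : (x.1 : ZMod p) = (x.2 : ZMod p)
    · rw [if_pos hx]
      have h4 : (((Om n d p).filter (fun c => good A F p c (b + q * x.1) ∧ good A F p c (b + q * x.2))).card : ℝ) ≤
          ((Om n d p).filter (fun c => good A F p c (b + q * x.1))).card := by
        exact_mod_cast card_le_card (fun c hc => by
          rw [mem_filter] at hc ⊢
          exact ⟨hc.1, hc.2.1⟩)
      rw [om_one p A F (by omega) (b + q * x.1)] at h4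
      nlinarith
    · rw [if_neg hx, add_zero]
      refine (om_two p A F hd (b + q * x.1) (b + q * x.2) ?_).le
      intro h4
      apply hx
      push_cast at h4
      have h5 := add_left_cancel h4
      exact mul_left_cancel₀ hq h5
  refine (Finset.sum_le_sum h3).trans ?_
  rw [Finset.sum_add_distrib, Finset.sum_const, nsmul_eq_mul, ← Finset.sum_filter, Finset.sum_const, nsmul_eq_mul, card_product]
  have h5 := pairs_le p S a h hS
  have h6 : 0 ≤ (qd p A - qd p A ^ 2) * (Om n d p).card := by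
    apply mul_nonneg _ hN
    nlinarith
  push_cast
  nlinarith [mul_le_mul_of_nonneg_right h5 h6]

open Classical in
/-- **One step.** -/
theorem step_exp (A : LF n e) (F : Fin n → ℤ[X]) (D : ℕ) (hF : ∀ i, (F i).natDegree ≤ D) (hD : d ≤ D + 1) (hp : e * D < p)
    (hs : ∀ t, ∃ i, (A.s t i : ZMod p) ≠ 0) (hd : 2 ≤ d) (hq : 1 / 2 ≤ qd p A) (a h : ℕ) (S : Finset ℕ) (hS : S ⊆ Ioc a (a + h))
    (b q : ℕ) (hbq : (q : ZMod p) ≠ 0) (σ U v : ℝ) (hσ : |σ| = 1) (hv : 0 ≤ v) (hvU : v ≤ U) (hU : U * (2 * e * (D + 1) * (h / p + 1)) ≤ 1) :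
    (∑ c ∈ (Om n d p).filter (fun c => nd A F p c),
      Real.exp (σ * v * (((S.filter (fun k => good A F p c (b + q * k))).card : ℝ) / qd p A - S.card))) / (Om n d p).card ≤
      Real.exp (e / (p : ℝ) ^ 2 * (U * h) + U ^ 2 * (2 * e / p * (h * (h / p + 1)))) := by
  have hpp := (Fact.out : p.Prime).pos
  have hp0 : (0 : ℝ) < p := by exact_mod_cast hpp
  have hN := Om_pos (n := n) (d := d) p hpp
  obtain ⟨N, hNd⟩ : ∃ N : ℝ, N = (Om n d p).card := ⟨_, rfl⟩
  obtain ⟨g, hqd⟩ : ∃ g, g = qd p A := ⟨_, rfl⟩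
  have hq1 := qd_le_one p A
  have hqe := qd_ge p A hs
  have hS1 := sum_surv p A F (by omega : 1 ≤ d) S b q
  have hS2 := sum_surv_sq p A F hd S a h hS b q hbq
  have hnnd := few_not_nd p A F D hF hD hp hs hd
  rw [← hNd] at hN hS1 hS2 hnnd ⊢
  rw [← hqd] at hq hq1 hqe hS1 hS2 ⊢
  have hq0 : 0 < g := by linarith
  have hU0 : 0 ≤ U := hv.trans hvU
  obtain ⟨s, hsd⟩ : ∃ s : ℝ, s = S.card := ⟨_, rfl⟩
  rw [← hsd] at hS1 hS2 ⊢
  have hs0 : 0 ≤ s := by rw [hsd]; exact Nat.cast_nonneg _
  have hsh : s ≤ h := by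
    rw [hsd]
    have := card_le_card hS
    rw [Nat.card_Ioc, Nat.add_sub_cancel_left] at this
    exact_mod_cast this
  obtain ⟨H, hH⟩ : ∃ H : ℝ, H = (h : ℝ) / p + 1 := ⟨_, rfl⟩
  rw [← hH] at hU hS2 ⊢
  have hH1 : 1 ≤ H := by rw [hH]; have : (0 : ℝ) ≤ (h : ℝ) / p := by positivity
                         linarith
  have hhp : (h : ℝ) / p ≤ H := by rw [hH]; linarith
  obtain ⟨m, hm⟩ : ∃ m : (Fin n → Fin d → ℤ) → ℝ, m = fun c => ((S.filter (fun k => good A F p c (b + q * k))).card : ℝ) := ⟨_, rfl⟩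
  obtain ⟨x, hx⟩ : ∃ x : (Fin n → Fin d → ℤ) → ℝ, x = fun c => m c / g - s := ⟨_, rfl⟩
  have hsum0 : ∑ c ∈ Om n d p, x c = 0 := by
    rw [hx]
    simp only
    rw [Finset.sum_sub_distrib, ← Finset.sum_div, Finset.sum_const, nsmul_eq_mul, ← hNd]
    have : ∑ c ∈ Om n d p, m c = g * s * N := by rw [hm]; exact hS1
    rw [this]
    field_simp
    ring
  have hsum2 : ∑ c ∈ Om n d p, x c ^ 2 ≤ 2 * e / p * (h * H) * N := by
    have e1 : ∀ c, x c ^ 2 = 1 / g ^ 2 * m c ^ 2 - 2 * s / g * m c + s ^ 2 := by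
      intro c
      rw [hx]
      simp only
      field_simp
      ring
    rw [Finset.sum_congr rfl (fun c _ => e1 c), Finset.sum_add_distrib, Finset.sum_sub_distrib, ← Finset.mul_sum, ← Finset.mul_sum,
      Finset.sum_const, nsmul_eq_mul, ← hNd]
    have e2 : ∑ c ∈ Om n d p, m c = g * s * N := by rw [hm]; exact hS1
    have e3 : ∑ c ∈ Om n d p, m c ^ 2 ≤ (g ^ 2 * s ^ 2 + (g - g ^ 2) * (h * H)) * N := by rw [hm]; exact hS2
    rw [e2]
    have e4 : 1 / g ^ 2 * ∑ c ∈ Om n d p, m c ^ 2 ≤ 1 / g ^ 2 * ((g ^ 2 * s ^ 2 + (g - g ^ 2) * (h * H)) * N) :=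
      mul_le_mul_of_nonneg_left e3 (by positivity)
    have e5 : 1 / g ^ 2 * ((g ^ 2 * s ^ 2 + (g - g ^ 2) * (h * H)) * N) - 2 * s / g * (g * s * N) + N * s ^ 2 =
        (1 - g) / g * (h * H) * N := by
      field_simp
      ring
    have e6 : (1 - g) / g ≤ 2 * e / p := by
      rw [div_le_iff₀ hq0]
      have h1 : 1 - g ≤ e / p := by linarith
      have h2 : (0 : ℝ) ≤ e / p := by positivity
      have h3 : 2 * (e : ℝ) / p * g = (e / p) * (2 * g) := by ring
      rw [h3]
      nlinarith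
    have e7 : (1 - g) / g * (h * H) * N ≤ 2 * e / p * (h * H) * N := by
      have h1 : (0 : ℝ) ≤ h * H * N := by positivity
      nlinarith
    linarith
  have hndsum : ∑ c ∈ (Om n d p).filter (fun c => nd A F p c), x c ≤ e / (p : ℝ) ^ 2 * h * N ∧
      0 ≤ ∑ c ∈ (Om n d p).filter (fun c => nd A F p c), x c := by
    have e1 := Finset.sum_filter_add_sum_filter_not (Om n d p) (fun c => nd A F p c) x
    rw [hsum0] at e1
    have e2 : ∀ c ∈ (Om n d p).filter (fun c => ¬ nd A F p c), x c = -s := by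
      intro c hc
      rw [mem_filter] at hc
      have : m c = 0 := by
        rw [hm]
        simp only
        rw [Nat.cast_eq_zero, card_eq_zero, filter_eq_empty_iff]
        intro k _ hk
        exact hc.2 ⟨b + q * k, hk⟩
      rw [hx]
      simp only
      rw [this]
      ring
    rw [Finset.sum_congr rfl e2, Finset.sum_const, nsmul_eq_mul] at e1
    have e3 : (0 : ℝ) ≤ ((Om n d p).filter (fun c => ¬ nd A F p c)).card := Nat.cast_nonneg _
    have e4 : ∑ c ∈ (Om n d p).filter (fun c => nd A F p c), x c = ((Om n d p).filter (fun c => ¬ nd A F p c)).card * s := by linarith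
    rw [e4]
    refine ⟨?_, by positivity⟩
    calc (((Om n d p).filter (fun c => ¬ nd A F p c)).card : ℝ) * s ≤ (e / (p : ℝ) ^ 2 * N) * h :=
          mul_le_mul hnnd hsh hs0 (by positivity)
      _ = e / (p : ℝ) ^ 2 * h * N := by ring
  have hpt : ∀ c ∈ (Om n d p).filter (fun c => nd A F p c), Real.exp (σ * v * x c) ≤ 1 + σ * v * x c + v ^ 2 * x c ^ 2 := by
    intro c hc
    rw [mem_filter] at hc
    have hfb := few_bad p A F D hF hD c hc.2 a h b q hbq
    rw [← hH] at hfb
    obtain ⟨bb, hb⟩ : ∃ bb : ℝ, bb = ((S.filter (fun k => ¬ good A F p c (b + q * k))).card : ℝ) := ⟨_, rfl⟩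
    have hb0 : 0 ≤ bb := by rw [hb]; exact Nat.cast_nonneg _
    have hb1 : bb ≤ e * D * H := by
      rw [hb]
      have h1 : ((S.filter (fun k => ¬ good A F p c (b + q * k))).card : ℝ) ≤ ((Ioc a (a + h)).filter (fun k => ¬ good A F p c (b + q * k))).card := by
        exact_mod_cast card_le_card (filter_subset_filter _ hS)
      push_cast at hfb
      linarith
    have hmb : m c + bb = s := by
      rw [hm, hb, hsd]
      simp only
      have := card_filter_add_card_filter_not (s := S) (fun k => good A F p c (b + q * k))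
      exact_mod_cast this
    have hxb : |x c| ≤ 2 * e * (D + 1) * H := by
      have h1 : x c = s * ((1 - g) / g) - bb / g := by
        rw [hx]
        simp only
        have : m c = s - bb := by linarith
        rw [this]
        field_simp
        ring
      have h2 : 0 ≤ (1 - g) / g := div_nonneg (by linarith) hq0.le
      have h3 : s * ((1 - g) / g) ≤ 2 * e * H := by
        have e6 : (1 - g) / g ≤ 2 * e / p := by
          rw [div_le_iff₀ hq0]
          have h1 : 1 - g ≤ e / p := by linarith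
          have h2 : (0 : ℝ) ≤ e / p := by positivity
          have h3 : 2 * (e : ℝ) / p * g = (e / p) * (2 * g) := by ring
          rw [h3]
          nlinarith
        calc s * ((1 - g) / g) ≤ h * (2 * e / p) := mul_le_mul hsh e6 h2 (Nat.cast_nonneg _)
          _ = 2 * e * (h / p) := by ring
          _ ≤ 2 * e * H := mul_le_mul_of_nonneg_left hhp (by positivity)
      have h4 : bb / g ≤ 2 * (e * D * H) := by
        rw [div_le_iff₀ hq0]
        have : (0 : ℝ) ≤ e * D * H := by positivity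
        nlinarith
      have h5 : 0 ≤ s * ((1 - g) / g) := mul_nonneg hs0 h2
      have h6 : 0 ≤ bb / g := div_nonneg hb0 hq0.le
      have h7 : (0 : ℝ) ≤ 2 * e * H := by positivity
      have h8 : (0 : ℝ) ≤ 2 * (e * D * H) := by positivity
      have h9 : 2 * (e : ℝ) * (D + 1) * H = 2 * e * H + 2 * (e * D * H) := by ring
      rw [h1, h9, abs_le]
      constructor <;> linarith
    have habs : |σ * v * x c| ≤ 1 := by
      rw [abs_mul, abs_mul, hσ, one_mul, abs_of_nonneg hv]
      have h1 : v * |x c| ≤ U * (2 * e * (D + 1) * H) := mul_le_mul hvU hxb (abs_nonneg _) hU0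
      linarith
    have h1 := (abs_le.1 (Real.abs_exp_sub_one_sub_id_le habs)).2
    have h2 : (σ * v * x c) ^ 2 = v ^ 2 * x c ^ 2 := by
      have : σ ^ 2 = 1 := by rw [← sq_abs, hσ]; norm_num
      calc (σ * v * x c) ^ 2 = σ ^ 2 * (v ^ 2 * x c ^ 2) := by ring
        _ = _ := by rw [this, one_mul]
    rw [h2] at h1
    linarith
  have hfin : ∑ c ∈ (Om n d p).filter (fun c => nd A F p c), Real.exp (σ * v * x c) ≤
      (1 + (e / (p : ℝ) ^ 2 * (U * h) + U ^ 2 * (2 * e / p * (h * H)))) * N := by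
    refine (Finset.sum_le_sum hpt).trans ?_
    rw [Finset.sum_add_distrib, Finset.sum_add_distrib, Finset.sum_const, nsmul_eq_mul, mul_one, ← Finset.mul_sum, ← Finset.mul_sum]
    have h1 : (((Om n d p).filter (fun c => nd A F p c)).card : ℝ) ≤ N := by
      rw [hNd]
      exact_mod_cast card_filter_le _ _
    have h2 : σ * v * ∑ c ∈ (Om n d p).filter (fun c => nd A F p c), x c ≤ U * (e / (p : ℝ) ^ 2 * h * N) := by
      have hσ1 : σ ≤ 1 := by rw [← hσ]; exact le_abs_self σ
      have h3 : 0 ≤ v * ∑ c ∈ (Om n d p).filter (fun c => nd A F p c), x c := mul_nonneg hv hndsum.2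
      calc σ * v * ∑ c ∈ (Om n d p).filter (fun c => nd A F p c), x c = σ * (v * ∑ c ∈ (Om n d p).filter (fun c => nd A F p c), x c) := by ring
        _ ≤ 1 * (v * ∑ c ∈ (Om n d p).filter (fun c => nd A F p c), x c) := mul_le_mul_of_nonneg_right hσ1 h3
        _ = v * ∑ c ∈ (Om n d p).filter (fun c => nd A F p c), x c := one_mul _
        _ ≤ U * (e / (p : ℝ) ^ 2 * h * N) := mul_le_mul hvU hndsum.1 hndsum.2 hU0
    have h4 : v ^ 2 * ∑ c ∈ (Om n d p).filter (fun c => nd A F p c), x c ^ 2 ≤ U ^ 2 * (2 * e / p * (h * H) * N) := by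
      have h5 : ∑ c ∈ (Om n d p).filter (fun c => nd A F p c), x c ^ 2 ≤ ∑ c ∈ Om n d p, x c ^ 2 :=
        Finset.sum_le_sum_of_subset_of_nonneg (filter_subset _ _) fun c _ _ => sq_nonneg _
      exact mul_le_mul (pow_le_pow_left₀ hv hvU 2) (h5.trans hsum2) (Finset.sum_nonneg fun c _ => sq_nonneg _) (sq_nonneg _)
    have h6 : (1 + (e / (p : ℝ) ^ 2 * (U * h) + U ^ 2 * (2 * e / p * (h * H)))) * N =
        N + U * (e / (p : ℝ) ^ 2 * h * N) + U ^ 2 * (2 * e / p * (h * H) * N) := by ring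
    rw [h6]
    linarith
  have hfin2 : (∑ c ∈ (Om n d p).filter (fun c => nd A F p c),
      Real.exp (σ * v * (((S.filter (fun k => good A F p c (b + q * k))).card : ℝ) / g - s))) / N ≤
      1 + (e / (p : ℝ) ^ 2 * (U * h) + U ^ 2 * (2 * e / p * (h * H))) := by
    rw [div_le_iff₀ hN]
    refine le_trans (le_of_eq ?_) hfin
    apply Finset.sum_congr rfl
    intro c _
    rw [hx, hm]
  refine hfin2.trans ?_
  have := Real.add_one_le_exp (e / (p : ℝ) ^ 2 * (U * h) + U ^ 2 * (2 * e / p * (h * H)))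
  linarith

end Mod

end Pool.Agent.Q236.LG
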