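import Pool.Agent.Q236.LG.Final
import Pool.Agent.Q236.LG.Core
import Pool.Agent.Q236.MR.Mach

set_option autoImplicit false

/-!
# Bateman-Horn in short intervals for systems of complexity one
-/

namespace Pool.Agent.Q236.LG

open Finset Filter Polynomial
open Pool.Agent.Q236.RP (ev_log_ge ev_pow_log ev_loglog Box mem_Box card_Box)
open Pool.Agent.Q236.CG (BA mem_BA mi pri pri_nonneg pri_le DD PP MM)
open Pool.Agent.Q236.MR (pv ap mem_ap sum_ap)
open Pool.Agent.H373R2.T7 (pz mem_pz Vz)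

variable {n m d e : ℕ}

/-- the system for given parameters -/
def toLF (Q : LP n m e) (N : Fin m → ℤ) : LF n e := ⟨Q.s, fun t => ∑ j, Q.g t j * N j + Q.r t⟩

lemma lv_toLF (Q : LP n m e) (N : Fin m → ℤ) (v : Fin n → ℤ) (t : Fin e) : lv (toLF Q N) v t = lvp Q v N t := by
  unfold lv toLF lvp
  simp only
  ring

lemma ev_pv (F : Fin n → ℤ[X]) (c : Fin n → Fin d → ℤ) (k : ℕ) : ev (fun i k => (F i).eval (k : ℤ)) c k = pv F c k := by
  funext i
  rfl

/-- a prime dividing all the coefficients of a form is small -/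
lemma co_prime (s : Fin e → Fin n → ℤ) (g : Fin e → Fin m → ℤ) (hCO : CO s g) : ∀ t, ∀ p : ℕ, p.Prime → (∀ i, (p : ℤ) ∣ s t i) →
    p ≤ ∑ t, ∑ i, (s t i).natAbs := by
  intro t p _ h
  obtain ⟨u, _, _, hu, _, _⟩ := hCO t
  have : ∃ i, s t i ≠ 0 := by
    by_contra hno
    push Not at hno
    apply hu
    apply Finset.sum_eq_zero
    intro i _
    rw [hno i, zero_mul]
  obtain ⟨i, hi⟩ := this
  have h1 : p ≤ (s t i).natAbs := by
    apply Nat.le_of_dvd (Int.natAbs_pos.2 hi)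
    exact Int.natCast_dvd.1 (h i)
  have h2 : (s t i).natAbs ≤ ∑ i, (s t i).natAbs := Finset.single_le_sum (f := fun i => (s t i).natAbs) (fun _ _ => Nat.zero_le _) (mem_univ i)
  have h3 : ∑ i, (s t i).natAbs ≤ ∑ t, ∑ i, (s t i).natAbs :=
    Finset.single_le_sum (f := fun t => ∑ i, (s t i).natAbs) (fun _ _ => Nat.zero_le _) (mem_univ t)
  omega

open Classical in
/-- **Bateman-Horn in short intervals of arithmetic progressions, for systems of complexity one.** -/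
theorem machL (n m e B : ℕ) (he : 1 ≤ e) (η : ℝ) (hη : 0 < η) : ∃ d0 : ℕ, ∀ (s : Fin e → Fin n → ℤ) (g : Fin e → Fin m → ℤ), CO s g →
    ∀ C d : ℕ, d0 ≤ d → ∃ A0 : ℕ, ∀ D A' : ℕ, d ≤ D + 1 → ∀ ε : ℝ, 0 < ε → ∀ᶠ X : ℕ in atTop, ∀ b q z a h : ℕ, 1 ≤ q →
    Real.log X ^ A0 ≤ z → (z : ℝ) ≤ Real.log X ^ A' → Real.log X ^ ((e : ℝ) + η) ≤ h →
    ∀ (r : Fin e → ℤ) (F : Fin n → ℤ[X]) (Z : Fin n → Fin d → ℤ) (Y : Fin n → Fin d → ℕ) (Z' : Fin m → ℤ) (Y' : Fin m → ℕ),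
    (∀ i, (F i).natDegree ≤ D) → SZ C X (LP.mk s g r) (fun i k => (F i).eval (k : ℤ)) Z Y Z' Y' (ap b q a h) →
    (((BA Z Y ×ˢ Box Z' Y').filter (fun ω => ¬ |(((Ioc a (a + h)).filter (fun k => ∀ t,
      (lvp (LP.mk s g r) (pv F ω.1 (b + q * k)) ω.2 t).toNat.Prime)).card : ℝ) -
      PQ b q (toLF (LP.mk s g r) ω.2) F z ω.1 / Vz z ^ e * (h / Real.log X ^ e)| ≤
      ε * (PQ b q (toLF (LP.mk s g r) ω.2) F z ω.1 / Vz z ^ e * (h / Real.log X ^ e)))).card : ℝ) ≤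
      (BA Z Y ×ˢ Box Z' Y').card / Real.log X ^ B := by
  obtain ⟨d1, hd1⟩ := lg_main n m e (B + 1) 0 he (η / 4) (by positivity)
  refine ⟨max d1 2, ?_⟩
  intro s g hCO C d hd
  have hd1' : d1 ≤ d := (le_max_left _ _).trans hd
  have hd2 : 2 ≤ d := (le_max_right _ _).trans hd
  obtain ⟨A0, hA0⟩ := hd1 s g hCO C d hd1'
  refine ⟨A0 + 1, ?_⟩
  intro D A' hD ε hε
  obtain ⟨s0, hs0⟩ : ∃ s0 : ℕ, s0 = ∑ t, ∑ i, (s t i).natAbs := ⟨_, rfl⟩
  filter_upwards [hA0 A', count_main n d e D A' C s0 (B + 1) 1 (min ε 1 / 4) one_pos (by positivity) hd2 hD,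
    core n e D d A' C he hD η ε hη hε, ev_log_ge 2] with X hcg hcount hcore hL2 b q z a h hq hzC hz hh r F Z Y Z' Y' hF hSZ
  have he1 : (1 : ℝ) ≤ e := by exact_mod_cast he
  have hL1 : 1 ≤ Real.log X := by linarith
  have hLz : Real.log X ≤ z := by
    refine le_trans ?_ hzC
    calc Real.log X = Real.log X ^ 1 := (pow_one _).symm
      _ ≤ Real.log X ^ (A0 + 1) := pow_le_pow_right₀ hL1 (by omega)
  obtain ⟨Q, hQ⟩ : ∃ Q : LP n m e, Q = LP.mk s g r := ⟨_, rfl⟩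
  have h1 := hcg z ((pow_le_pow_right₀ hL1 (by omega)).trans hzC) hz r (fun i k => (F i).eval (k : ℤ)) Z Y Z' Y' (ap b q a h) hSZ 1
    (fun _ _ => 1) (by simp) (fun _ _ _ => by simp)
  rw [← hQ] at h1 hSZ ⊢
  have h2 : ∀ N : Fin m → ℤ, (((BA Z Y).filter (fun c => ¬ |((Sv b q (toLF Q N) F (Ioc a (a + h)) (pz z) c).card : ℝ) -
      h * PQ b q (toLF Q N) F z c| ≤ min ε 1 / 4 * (h * PQ b q (toLF Q N) F z c))).card : ℝ) ≤ (BA Z Y).card / Real.log X ^ (B + 1) := by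
    intro N
    apply hcount b q z a h hz hLz (by
      refine le_trans ?_ hh
      exact Real.rpow_le_rpow_of_exponent_le hL1 (by linarith)) Z Y hSZ.side (toLF Q N) F hF
    intro t p hp hdv
    rw [hs0]
    apply co_prime s g hCO t p hp
    intro i
    have := hdv i
    rw [hQ] at this
    exact this
  obtain ⟨W, hW⟩ : ∃ W, W = BA Z Y ×ˢ Box Z' Y' := ⟨_, rfl⟩
  rw [← hW] at h1 ⊢
  have hsub : W.filter (fun ω => ¬ |(((Ioc a (a + h)).filter (fun k => ∀ t, (lvp Q (pv F ω.1 (b + q * k)) ω.2 t).toNat.Prime)).card : ℝ) -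
      PQ b q (toLF Q ω.2) F z ω.1 / Vz z ^ e * (h / Real.log X ^ e)| ≤ ε * (PQ b q (toLF Q ω.2) F z ω.1 / Vz z ^ e * (h / Real.log X ^ e))) ⊆
      W.filter (fun ω => ∃ t < 1, Real.log X ^ (η / 4) * Real.sqrt (1 + (∑ k ∈ ap b q a h, |(1 : ℝ)|) / Real.log X ^ e) <
        |∑ k ∈ ap b q a h, (1 : ℝ) * DD z (lvp Q (ev (fun i k => (F i).eval (k : ℤ)) ω.1 k) ω.2)|) ∪
      W.filter (fun ω => ¬ |((Sv b q (toLF Q ω.2) F (Ioc a (a + h)) (pz z) ω.1).card : ℝ) - h * PQ b q (toLF Q ω.2) F z ω.1| ≤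
        min ε 1 / 4 * (h * PQ b q (toLF Q ω.2) F z ω.1)) := by
    intro ω hω
    rw [mem_filter] at hω
    by_contra hcon
    rw [mem_union, mem_filter, mem_filter] at hcon
    push Not at hcon
    obtain ⟨hcon1, hcon2⟩ := hcon
    apply hω.2
    have hωW := hω.1
    have g1 := hcon1 hωW 0 Nat.one_pos
    have g2 := hcon2 hωW
    rw [hW, mem_product] at hωW
    have hval : ∀ k ∈ Ioc a (a + h), ∀ t, (X : ℝ) / Real.log X ^ C ≤ lv (toLF Q ω.2) (pv F ω.1 (b + q * k)) t ∧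
        (lv (toLF Q ω.2) (pv F ω.1 (b + q * k)) t : ℝ) ≤ X * Real.log X ^ C := by
      intro k hk t
      have e1 := hSZ.low _ (mem_ap b q a h k hk) ω.1 hωW.1 ω.2 hωW.2 t
      have e2 := hSZ.up _ (mem_ap b q a h k hk) ω.1 hωW.1 ω.2 hωW.2 t
      rw [ev_pv] at e1 e2
      rw [lv_toLF]
      exact ⟨e1, e2⟩
    have hsum : ∑ k ∈ ap b q a h, (1 : ℝ) * DD z (lvp Q (ev (fun i k => (F i).eval (k : ℤ)) ω.1 k) ω.2) =
        ∑ k ∈ Ioc a (a + h), ∏ t, pri (lv (toLF Q ω.2) (pv F ω.1 (b + q * k)) t) -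
          ∑ k ∈ Ioc a (a + h), ∏ t, mi z (lv (toLF Q ω.2) (pv F ω.1 (b + q * k)) t) := by
      rw [sum_ap b q a h hq, ← Finset.sum_sub_distrib]
      apply Finset.sum_congr rfl
      intro k _
      rw [one_mul, ev_pv]
      unfold DD PP MM
      congr 1
      · apply Finset.prod_congr rfl
        intro i _
        rw [lv_toLF]
      · apply Finset.prod_congr rfl
        intro i _
        rw [lv_toLF]
    have hcard : (∑ _k ∈ ap b q a h, |(1 : ℝ)|) = h := by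
      rw [sum_ap b q a h hq (fun _ => |(1 : ℝ)|), abs_one, Finset.sum_const, nsmul_eq_mul, mul_one, Nat.card_Ioc,
        Nat.add_sub_cancel_left]
    rw [hsum, hcard] at g1
    have h3 := hcore b q z a h hz hLz hh (toLF Q ω.2) F ω.1 hF hval g1 g2
    simp only [lv_toLF] at h3
    exact h3
  have h5 := (card_le_card hsub).trans (card_union_le _ _)
  have h6 : ((W.filter (fun ω => ¬ |((Sv b q (toLF Q ω.2) F (Ioc a (a + h)) (pz z) ω.1).card : ℝ) - h * PQ b q (toLF Q ω.2) F z ω.1| ≤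
      min ε 1 / 4 * (h * PQ b q (toLF Q ω.2) F z ω.1))).card : ℝ) ≤ W.card / Real.log X ^ (B + 1) := by
    have e1 : (W.filter (fun ω => ¬ |((Sv b q (toLF Q ω.2) F (Ioc a (a + h)) (pz z) ω.1).card : ℝ) - h * PQ b q (toLF Q ω.2) F z ω.1| ≤
        min ε 1 / 4 * (h * PQ b q (toLF Q ω.2) F z ω.1))).card = ∑ N ∈ Box Z' Y', ((BA Z Y).filter (fun c =>
        ¬ |((Sv b q (toLF Q N) F (Ioc a (a + h)) (pz z) c).card : ℝ) - h * PQ b q (toLF Q N) F z c| ≤
        min ε 1 / 4 * (h * PQ b q (toLF Q N) F z c))).card := by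
      rw [hW, Finset.card_filter, Finset.sum_product_right]
      apply Finset.sum_congr rfl
      intro N _
      rw [Finset.card_filter]
    rw [e1, hW, card_product]
    push_cast
    calc ∑ N ∈ Box Z' Y', (((BA Z Y).filter (fun c => ¬ |((Sv b q (toLF Q N) F (Ioc a (a + h)) (pz z) c).card : ℝ) -
        h * PQ b q (toLF Q N) F z c| ≤ min ε 1 / 4 * (h * PQ b q (toLF Q N) F z c))).card : ℝ) ≤
        ∑ _N ∈ Box Z' Y', ((BA Z Y).card : ℝ) / Real.log X ^ (B + 1) := Finset.sum_le_sum fun N _ => h2 N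
      _ = (BA Z Y).card * (Box Z' Y').card / Real.log X ^ (B + 1) := by
          rw [Finset.sum_const, nsmul_eq_mul]
          ring
  have h7 : ((W.filter (fun ω => ¬ |(((Ioc a (a + h)).filter (fun k => ∀ t, (lvp Q (pv F ω.1 (b + q * k)) ω.2 t).toNat.Prime)).card : ℝ) -
      PQ b q (toLF Q ω.2) F z ω.1 / Vz z ^ e * (h / Real.log X ^ e)| ≤ ε * (PQ b q (toLF Q ω.2) F z ω.1 / Vz z ^ e * (h / Real.log X ^ e)))).card : ℝ) ≤
      W.card / Real.log X ^ (B + 1) + W.card / Real.log X ^ (B + 1) := by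
    have h8 := (Nat.cast_le (α := ℝ)).2 h5
    push_cast at h8
    linarith
  refine h7.trans ?_
  have hLB : 0 < Real.log (X : ℝ) ^ B := by positivity
  rw [pow_succ, ← two_mul, mul_div_assoc', div_le_div_iff₀ (by positivity) hLB]
  have hW0 : (0 : ℝ) ≤ W.card := Nat.cast_nonneg _
  nlinarith [mul_nonneg hW0 hLB.le]

end Pool.Agent.Q236.LG
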