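import Pool.Agent.Q236.LG.AllM

set_option autoImplicit false

/-!
# Tools for the theorems with parameters
-/

namespace Pool.Agent.Q236.LG

open Finset Filter Polynomial
open Pool.Agent.Q236.RP (Box mem_Box card_Box ev_log_ge ev_pow_log eval_mod)
open Pool.Agent.Q236.CG (BA mem_BA)
open Pool.Agent.Q236.MR (pv ap mem_ap sum_ap marg_count)
open Pool.Agent.H373R2.T7 (pz mem_pz Vz)

open Classical in
/-- from pairs to almost all fibres -/
lemma fub {α β : Type*} (A : Finset α) (B : Finset β) (P : α → β → Prop) (L : ℝ) (hL : 0 < L)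
    (h : (((A ×ˢ B).filter (fun ω => P ω.1 ω.2)).card : ℝ) ≤ ((A ×ˢ B).card : ℝ) / (L * L)) :
    ((A.filter (fun a => (B.card : ℝ) / L < (B.filter (P a)).card)).card : ℝ) ≤ A.card / L := by
  rcases Nat.eq_zero_or_pos B.card with h0 | hB
  · have : A.filter (fun a => (B.card : ℝ) / L < (B.filter (P a)).card) = ∅ := by
      rw [filter_eq_empty_iff]
      intro a _
      rw [h0]
      have : (B.filter (P a)).card = 0 := by
        rw [card_eq_zero] at h0 ⊢
        rw [h0, filter_empty]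
      rw [this]
      simp
    rw [this, card_empty, Nat.cast_zero]
    positivity
  · have hB0 : (0 : ℝ) < B.card := by exact_mod_cast hB
    obtain ⟨S, hS⟩ : ∃ S, S = A.filter (fun a => (B.card : ℝ) / L < (B.filter (P a)).card) := ⟨_, rfl⟩
    rw [← hS]
    have h1 : (((A ×ˢ B).filter (fun ω => P ω.1 ω.2)).card : ℝ) = ∑ a ∈ A, ((B.filter (P a)).card : ℝ) := by
      rw [Finset.card_filter, Finset.sum_product]
      push_cast
      apply Finset.sum_congr rfl
      intro a _
      rw [Finset.card_filter]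
      push_cast
      rfl
    have h2 : (S.card : ℝ) * ((B.card : ℝ) / L) ≤ ∑ a ∈ A, ((B.filter (P a)).card : ℝ) := by
      calc (S.card : ℝ) * ((B.card : ℝ) / L) = ∑ _a ∈ S, ((B.card : ℝ) / L) := by rw [Finset.sum_const, nsmul_eq_mul]
        _ ≤ ∑ a ∈ S, ((B.filter (P a)).card : ℝ) := by
            apply Finset.sum_le_sum
            intro a ha
            rw [hS, mem_filter] at ha
            exact ha.2.le
        _ ≤ ∑ a ∈ A, ((B.filter (P a)).card : ℝ) := by
            apply Finset.sum_le_sum_of_subset_of_nonneg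
            · rw [hS]; exact filter_subset _ _
            · intro _ _ _; positivity
    rw [h1, card_product] at h
    push_cast at h
    have h3 := h2.trans h
    rw [le_div_iff₀ hL]
    have h4 : (S.card : ℝ) * ((B.card : ℝ) / L) = (S.card : ℝ) * L * ((B.card : ℝ) / (L * L)) := by
      field_simp
    have h5 : (A.card : ℝ) * B.card / (L * L) = (A.card : ℝ) * ((B.card : ℝ) / (L * L)) := by ring
    rw [h4, h5] at h3
    exact le_of_mul_le_mul_right h3 (by positivity)

variable {m μ d e : ℕ}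

/-- the values of the forms modulo a prime -/
lemma fvl_mod (F : Fin m → ℤ[X]) (c : Fin m → Fin d → ℤ) (N : Fin μ → ℤ) (s : Fin e → Fin m → ℤ) (g : Fin e → Fin μ → ℤ)
    (r : Fin e → ℤ) (p k l : ℕ) (h : k ≡ l [MOD p]) (t : Fin e) : (p : ℤ) ∣ fvl F c N s g r k t - fvl F c N s g r l t := by
  have h2 : ∀ j : ℕ, (p : ℤ) ∣ (k : ℤ) ^ j - (l : ℤ) ^ j := by
    intro j
    have h3 : (p : ℤ) ∣ (k : ℤ) - (l : ℤ) := Nat.modEq_iff_dvd.1 h.symm
    exact h3.trans (sub_dvd_pow_sub_pow _ _ _)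
  have h4 : ∀ i, (p : ℤ) ∣ pv F c k i - pv F c l i := by
    intro i
    have hpv : ∀ k : ℕ, pv F c k i = (F i).eval (k : ℤ) + ∑ j, c i j * (k : ℤ) ^ (j : ℕ) := fun k => rfl
    rw [hpv, hpv]
    have e1 : ∀ x y u v : ℤ, x + u - (y + v) = (x - y) + (u - v) := by intros; ring
    rw [e1]
    apply dvd_add
    · exact eval_mod _ p _ _ h
    · rw [← Finset.sum_sub_distrib]
      apply Finset.dvd_sum
      intro j _
      rw [← mul_sub]
      exact Dvd.dvd.mul_left (h2 _) _
  unfold fvl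
  have e2 : ∀ x y u v : ℤ, x + u + v - (y + u + v) = x - y := by intros; ring
  rw [e2, ← Finset.sum_sub_distrib]
  apply Finset.dvd_sum
  intro i _
  rw [← mul_sub]
  exact Dvd.dvd.mul_left (h4 i) _

/-- the singular series of a system without a fixed divisor -/
lemma sgL_pos (F : Fin m → ℤ[X]) (c : Fin m → Fin d → ℤ) (N : Fin μ → ℤ) (s : Fin e → Fin m → ℤ) (g : Fin e → Fin μ → ℤ)
    (r : Fin e → ℤ) (b q z : ℕ) (h : ∀ p : ℕ, p.Prime → p ≤ z → ∃ k : ℕ, ∀ t, ¬ (p : ℤ) ∣ fvl F c N s g r (b + q * k) t) :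
    0 < sgL F c N s g r b q z := by
  classical
  unfold sgL
  apply Finset.prod_pos
  intro p hp
  rw [mem_pz] at hp
  obtain ⟨hpz, hpp⟩ := hp
  have hp0 : (0 : ℝ) < p := by exact_mod_cast hpp.pos
  have hp1 : (1 : ℝ) < p := by exact_mod_cast hpp.one_lt
  obtain ⟨k, hk⟩ := h p hpp (by omega)
  have hlt : omL F c N s g r b q p < p := by
    unfold omL
    have h1 : ((range p).filter (fun k => ∃ t, (p : ℤ) ∣ fvl F c N s g r (b + q * k) t)) ⊂ range p := by
      rw [Finset.ssubset_iff_of_subset (filter_subset _ _)]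
      refine ⟨k % p, mem_range.2 (Nat.mod_lt _ hpp.pos), ?_⟩
      rw [mem_filter, not_and]
      rintro _ ⟨t, hd⟩
      apply hk t
      have hkm : b + q * (k % p) ≡ b + q * k [MOD p] := Nat.ModEq.add_left b (Nat.ModEq.mul_left q (Nat.mod_modEq k p))
      have h6 := dvd_sub hd (fvl_mod F c N s g r p _ _ hkm t)
      rwa [sub_sub_cancel] at h6
    have h6 := card_lt_card h1
    rwa [card_range] at h6
  apply div_pos
  · rw [sub_pos, div_lt_one hp0]
    exact_mod_cast hlt
  · apply pow_pos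
    rw [sub_pos, div_lt_one hp0]
    exact hp1

/-- the conclusion for one system: the asymptotic formula with `min ε (1 / 2)` gives the formula with `ε` and a prime point -/
lemma concl {L ε η : ℝ} (hL : 0 < L) (hε : 0 < ε) (F : Fin m → ℤ[X]) (c : Fin m → Fin d → ℤ) (N : Fin μ → ℤ) (s : Fin e → Fin m → ℤ)
    (g : Fin e → Fin μ → ℤ) (r : Fin e → ℤ) (b q a h z : ℕ) (hh : L ^ ((e : ℝ) + η) ≤ h)
    (h3 : |(cntL F c N s g r b q a h : ℝ) - sgL F c N s g r b q z * (h / L ^ e)| ≤
        min ε (1 / 2) * (sgL F c N s g r b q z * (h / L ^ e))) :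
    |(cntL F c N s g r b q a h : ℝ) - sgL F c N s g r b q z * (h / L ^ e)| ≤ ε * (sgL F c N s g r b q z * (h / L ^ e)) ∧
    ((∀ p : ℕ, p.Prime → p ≤ z → ∃ k : ℕ, ∀ t, ¬ (p : ℤ) ∣ fvl F c N s g r (b + q * k) t) →
      ∃ k : ℕ, a < k ∧ k ≤ a + h ∧ ∀ t, (fvl F c N s g r (b + q * k) t).toNat.Prime) := by
  classical
  obtain ⟨G, hG⟩ : ∃ G, G = sgL F c N s g r b q z * (h / L ^ e) := ⟨_, rfl⟩
  rw [← hG] at h3 ⊢
  have hm : 0 < min ε (1 / 2) := by positivity
  have hG0 : 0 ≤ G := by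
    by_contra hlt
    push Not at hlt
    have h4 : min ε (1 / 2) * G < 0 := mul_neg_of_pos_of_neg hm hlt
    linarith [abs_nonneg ((cntL F c N s g r b q a h : ℝ) - G)]
  refine ⟨h3.trans (mul_le_mul_of_nonneg_right (min_le_left _ _) hG0), ?_⟩
  intro hadm
  have hs := sgL_pos F c N s g r b q z hadm
  have hh0 : (0 : ℝ) < h := lt_of_lt_of_le (Real.rpow_pos_of_pos hL _) hh
  have hGp : 0 < G := by rw [hG]; positivity
  have h5 : 0 < (cntL F c N s g r b q a h : ℝ) := by
    have h6 := (abs_le.1 h3).1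
    have h7 : min ε (1 / 2) * G ≤ 1 / 2 * G := mul_le_mul_of_nonneg_right (min_le_right _ _) hG0
    linarith
  have h8 : 0 < cntL F c N s g r b q a h := by exact_mod_cast h5
  unfold cntL at h8
  rw [card_pos] at h8
  obtain ⟨k, hk⟩ := h8
  rw [mem_filter, mem_Ioc] at hk
  exact ⟨k, hk.1.1, hk.1.2, hk.2⟩

/-- statements on the members of two finite sets -/
lemma forall_append {n : ℕ} (I S : Finset (Fin m)) (Q : Fin m → Prop) (Q' : Fin m → Prop) (T : Fin (I.card + S.card) → Prop)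
    (h1 : ∀ t : Fin I.card, T (Fin.castAdd S.card t) ↔ Q (I.orderEmbOfFin rfl t))
    (h2 : ∀ t : Fin S.card, T (Fin.natAdd I.card t) ↔ Q' (S.orderEmbOfFin rfl t)) (_hn : n = n) :
    (∀ t, T t) ↔ (∀ i ∈ I, Q i) ∧ ∀ i ∈ S, Q' i := by
  constructor
  · intro h
    constructor
    · intro i hi
      rw [← Finset.mem_coe, ← Finset.range_orderEmbOfFin I rfl] at hi
      obtain ⟨t, rfl⟩ := hi
      exact (h1 t).1 (h _)
    · intro i hi
      rw [← Finset.mem_coe, ← Finset.range_orderEmbOfFin S rfl] at hi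
      obtain ⟨t, rfl⟩ := hi
      exact (h2 t).1 (h _)
  · rintro ⟨ha, hb⟩ t
    refine Fin.addCases (fun t => ?_) (fun t => ?_) t
    · exact (h1 t).2 (ha _ (Finset.orderEmbOfFin_mem I rfl t))
    · exact (h2 t).2 (hb _ (Finset.orderEmbOfFin_mem S rfl t))

end Pool.Agent.Q236.LG
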