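import Pool.Agent.Q236.LG.LocC
import Pool.Agent.Q236.MR.BoxB

set_option autoImplicit false

/-!
# From the box to the product model
-/

namespace Pool.Agent.Q236.LG

open Finset Filter Polynomial
open Pool.Agent.Q236.MR (pv phi Fz rd Om mem_Om card_Om Om_pos class_ap Om_count pairs_le Per box_per crt_two crt_many box_sieve dvd_sub_emod prod_close pow_small card_BA_real ba_class TT TT_mono TT_sum TT_mul TT_congr TT_zero TT_const TT_le TT_nonneg qq TT_corr TT_exp TT_moment)
open Pool.Agent.Q236.RP (Box mem_Box card_Box ev_log_ge ev_pow_log)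
open Pool.Agent.Q236.CG (BA mem_BA)
open Pool.Agent.H373R2.T7 (pz mem_pz)

variable {n d e : ℕ}

lemma lv_per (A : LF n e) (F : Fin n → ℤ[X]) (p k : ℕ) (c c' : Fin n → Fin d → ℤ) (h : ∀ i j, (p : ℤ) ∣ c i j - c' i j)
    (t : Fin e) : (p : ℤ) ∣ lv A (pv F c k) t - lv A (pv F c' k) t := by
  unfold lv pv
  have e1 : ∑ i, A.s t i * ((F i).eval (k : ℤ) + ∑ j, c i j * (k : ℤ) ^ (j : ℕ)) + A.r t -
      (∑ i, A.s t i * ((F i).eval (k : ℤ) + ∑ j, c' i j * (k : ℤ) ^ (j : ℕ)) + A.r t) =
      ∑ i, A.s t i * ∑ j, (c i j - c' i j) * (k : ℤ) ^ (j : ℕ) := by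
    rw [add_sub_add_right_eq_sub, ← Finset.sum_sub_distrib]
    apply Finset.sum_congr rfl
    intro i _
    rw [Finset.sum_congr rfl (fun j _ => sub_mul (c i j) (c' i j) ((k : ℤ) ^ (j : ℕ))), Finset.sum_sub_distrib]
    ring
  rw [e1]
  apply Finset.dvd_sum
  intro i _
  apply Dvd.dvd.mul_left
  apply Finset.dvd_sum
  intro j _
  exact Dvd.dvd.mul_right (h i j) _

lemma good_per (A : LF n e) (F : Fin n → ℤ[X]) (p k : ℕ) : Per (n := n) (d := d) p (fun c => good A F p c k) := by
  intro c c' h
  unfold good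
  apply forall_congr'
  intro t
  rw [not_iff_not]
  exact (dvd_iff_dvd_of_dvd_sub (lv_per A F p k c c' h t))

/-- good at the point with index `k` of the progression -/
def gd (b q : ℕ) (A : LF n e) (F : Fin n → ℤ[X]) (p : ℕ) (c : Fin n → Fin d → ℤ) (k : ℕ) : Prop := good A F p c (b + q * k)

lemma gd_per (b q : ℕ) (A : LF n e) (F : Fin n → ℤ[X]) (p k : ℕ) : Per (n := n) (d := d) p (fun c => gd b q A F p c k) :=
  good_per A F p (b + q * k)

lemma nd_per (A : LF n e) (F : Fin n → ℤ[X]) (p : ℕ) : Per (n := n) (d := d) p (fun c => nd A F p c) := by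
  intro c c' h
  unfold nd
  apply exists_congr
  intro k
  exact good_per A F p k c c' h

/-- the excluded arrays -/
def EE (b q : ℕ) (A : LF n e) (F : Fin n → ℤ[X]) (y : ℕ) {m : ℕ} (κ : Fin m → ℕ) (B : Finset (Fin m)) (p : ℕ) (c : Fin n → Fin d → ℤ) : Prop :=
  if p ≤ y then ∃ i, ¬ gd b q A F p c (κ i) else if p ∣ q then False else (¬ nd A F p c ∨ ∃ i ∈ B, ¬ gd b q A F p c (κ i))

lemma EE_per (b q : ℕ) (A : LF n e) (F : Fin n → ℤ[X]) (y : ℕ) {m : ℕ} (κ : Fin m → ℕ) (B : Finset (Fin m)) (p : ℕ) :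
    Per (n := n) (d := d) p (EE b q A F y κ B p) := by
  intro c c' h
  unfold EE
  split_ifs
  · apply exists_congr
    intro i
    rw [not_iff_not]
    exact gd_per b q A F p (κ i) c c' h
  · rfl
  · apply or_congr
    · rw [not_iff_not]
      exact nd_per A F p c c' h
    · apply exists_congr
      intro i
      apply and_congr_right
      intro _
      rw [not_iff_not]
      exact gd_per b q A F p (κ i) c c' h

open Classical in
lemma not_good_dens (A : LF n e) (F : Fin n → ℤ[X]) (p : ℕ) [Fact p.Prime] (hs : ∀ t, ∃ i, (A.s t i : ZMod p) ≠ 0) (hd : 1 ≤ d) (k : ℕ) :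
    (((Om n d p).filter (fun c => ¬ good A F p c k)).card : ℝ) ≤ e / p * (Om n d p).card := by
  have h1 := card_filter_add_card_filter_not (s := Om n d p) (fun c => good A F p c k)
  have h2 : (((Om n d p).filter (fun c => good A F p c k)).card : ℝ) + ((Om n d p).filter (fun c => ¬ good A F p c k)).card = (Om n d p).card := by
    exact_mod_cast h1
  have h3 := om_one p A F hd k
  have h4 := qd_ge p A hs
  have h5 : (0 : ℝ) ≤ (Om n d p).card := Nat.cast_nonneg _
  nlinarith

open Classical in
lemma EE_dens (b q : ℕ) (A : LF n e) (F : Fin n → ℤ[X]) (D : ℕ) (hF : ∀ i, (F i).natDegree ≤ D) (hD : d ≤ D + 1) (y s0 : ℕ)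
    (hy : e * D ≤ y) (hs0 : s0 ≤ y) (hs : ∀ t, ∀ p : ℕ, p.Prime → (∀ i, (p : ℤ) ∣ A.s t i) → p ≤ s0) (hd : 2 ≤ d)
    {m : ℕ} (κ : Fin m → ℕ) (B : Finset (Fin m)) (p : ℕ) (hp : p.Prime) :
    (((Om n d p).filter (fun c => EE b q A F y κ B p c)).card : ℝ) ≤ ((m * e + e + s0 : ℕ) : ℝ) / p * (Om n d p).card := by
  haveI : Fact p.Prime := ⟨hp⟩
  have hp0 : (0 : ℝ) < p := by exact_mod_cast hp.pos
  have hp1 : (1 : ℝ) ≤ p := by exact_mod_cast hp.one_lt.le
  have hN : (0 : ℝ) ≤ (Om n d p).card := Nat.cast_nonneg _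
  by_cases hps : p ≤ s0
  · have h1 : (((Om n d p).filter (fun c => EE b q A F y κ B p c)).card : ℝ) ≤ 1 * (Om n d p).card := by
      rw [one_mul]
      exact_mod_cast card_filter_le _ _
    refine h1.trans (mul_le_mul_of_nonneg_right ?_ hN)
    rw [le_div_iff₀ hp0, one_mul]
    have : p ≤ m * e + e + s0 := by omega
    exact_mod_cast this
  · have hst : ∀ t, ∃ i, (A.s t i : ZMod p) ≠ 0 := by
      intro t
      by_contra h0
      push Not at h0
      exact hps (hs t p hp fun i => (ZMod.intCast_zmod_eq_zero_iff_dvd _ _).1 (h0 i))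
    have hpt : ∀ k, (((Om n d p).filter (fun c => ¬ gd b q A F p c k)).card : ℝ) ≤ e / p * (Om n d p).card := fun k =>
      not_good_dens A F p hst (by omega) (b + q * k)
    have hun : ∀ T : Finset (Fin m), (((T.biUnion fun i => (Om n d p).filter (fun c => ¬ gd b q A F p c (κ i)))).card : ℝ) ≤
        m * (e / p * (Om n d p).card) := by
      intro T
      calc (((T.biUnion fun i => (Om n d p).filter (fun c => ¬ gd b q A F p c (κ i)))).card : ℝ) ≤
          ∑ i ∈ T, (((Om n d p).filter (fun c => ¬ gd b q A F p c (κ i))).card : ℝ) := by exact_mod_cast card_biUnion_le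
        _ ≤ ∑ _i ∈ T, (e / p * ((Om n d p).card : ℝ)) := Finset.sum_le_sum fun i _ => hpt _
        _ = T.card * (e / p * (Om n d p).card) := by rw [Finset.sum_const, nsmul_eq_mul]
        _ ≤ m * (e / p * (Om n d p).card) := by
            apply mul_le_mul_of_nonneg_right _ (by positivity)
            have := card_le_univ T
            rw [Fintype.card_fin] at this
            exact_mod_cast this
    by_cases hpy : p ≤ y
    · have h1 : (Om n d p).filter (fun c => EE b q A F y κ B p c) ⊆
          (univ : Finset (Fin m)).biUnion (fun i => (Om n d p).filter (fun c => ¬ gd b q A F p c (κ i))) := by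
        intro c hc
        rw [mem_filter] at hc
        unfold EE at hc
        rw [if_pos hpy] at hc
        obtain ⟨h1, i, hi⟩ := hc
        rw [mem_biUnion]
        exact ⟨i, mem_univ _, mem_filter.2 ⟨h1, hi⟩⟩
      have h2 : (((Om n d p).filter (fun c => EE b q A F y κ B p c)).card : ℝ) ≤ m * (e / p * (Om n d p).card) := by
        refine le_trans ?_ (hun univ)
        exact_mod_cast card_le_card h1
      refine h2.trans ?_
      have h3 : ((m * e + e + s0 : ℕ) : ℝ) / p * ((Om n d p).card : ℝ) = m * (e / p * (Om n d p).card) + (e + s0) / p * (Om n d p).card := by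
        push_cast
        ring
      rw [h3]
      have : (0 : ℝ) ≤ (e + s0) / p * (Om n d p).card := by positivity
      linarith
    · have h1 : (Om n d p).filter (fun c => EE b q A F y κ B p c) ⊆
          (Om n d p).filter (fun c => ¬ nd A F p c) ∪
          B.biUnion (fun i => (Om n d p).filter (fun c => ¬ gd b q A F p c (κ i))) := by
        intro c hc
        rw [mem_filter] at hc
        unfold EE at hc
        rw [if_neg hpy] at hc
        have hpq : ¬ p ∣ q := by
          intro hpq
          rw [if_pos hpq] at hc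
          exact hc.2
        rw [if_neg hpq] at hc
        obtain ⟨h1, h2 | ⟨i, hiB, hi⟩⟩ := hc
        · exact mem_union_left _ (mem_filter.2 ⟨h1, h2⟩)
        · refine mem_union_right _ ?_
          rw [mem_biUnion]
          exact ⟨i, hiB, mem_filter.2 ⟨h1, hi⟩⟩
      have h2 := few_not_nd p A F D hF hD (by omega) hst hd
      have h3 : (((Om n d p).filter (fun c => EE b q A F y κ B p c)).card : ℝ) ≤
          e / (p : ℝ) ^ 2 * (Om n d p).card + m * (e / p * (Om n d p).card) := by
        have h4 : (((Om n d p).filter (fun c => EE b q A F y κ B p c)).card : ℝ) ≤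
            ((Om n d p).filter (fun c => ¬ nd A F p c)).card +
              ((B.biUnion (fun i => (Om n d p).filter (fun c => ¬ gd b q A F p c (κ i)))).card : ℝ) := by
          exact_mod_cast (card_le_card h1).trans (card_union_le _ _)
        exact h4.trans (add_le_add h2 (hun B))
      refine h3.trans ?_
      have h5 : (e : ℝ) / (p : ℝ) ^ 2 ≤ e / p := by
        apply div_le_div_of_nonneg_left (Nat.cast_nonneg _) hp0
        nlinarith
      have h6 : ((m * e + e + s0 : ℕ) : ℝ) / p * ((Om n d p).card : ℝ) =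
          m * (e / p * (Om n d p).card) + e / p * (Om n d p).card + s0 / p * (Om n d p).card := by
        push_cast
        ring
      rw [h6]
      have h7 : (0 : ℝ) ≤ s0 / p * (Om n d p).card := by positivity
      have h8 := mul_le_mul_of_nonneg_right h5 hN
      linarith

open Classical in
/-- the expansion of the moment -/
lemma expand (I S1 S2 : Finset ℕ) (h1 : S1 ⊆ I) (h2 : S2 ⊆ I) (r : ℝ) (m : ℕ) :
    ((S2.card : ℝ) / r - S1.card) ^ m =
      ∑ κ ∈ Fintype.piFinset (fun _ : Fin m => I), ∑ B ∈ (univ : Finset (Fin m)).powerset,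
        ((1 / r) ^ B.card * (-1) ^ (univ \ B).card) *
          ((if ∀ i ∈ B, κ i ∈ S2 then 1 else 0) * (if ∀ i ∈ univ \ B, κ i ∈ S1 then 1 else 0)) := by
  have hc : ∀ S : Finset ℕ, S ⊆ I → (S.card : ℝ) = ∑ k ∈ I, if k ∈ S then (1 : ℝ) else 0 := by
    intro S hS
    rw [← Finset.sum_filter, Finset.sum_const, nsmul_eq_mul, mul_one]
    congr 2
    ext k
    rw [mem_filter]
    exact ⟨fun h => ⟨hS h, h⟩, fun h => h.2⟩
  have e0 : (S2.card : ℝ) / r - S1.card = ∑ k ∈ I, ((1 / r) * (if k ∈ S2 then (1 : ℝ) else 0) + (-1) * (if k ∈ S1 then (1 : ℝ) else 0)) := by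
    rw [Finset.sum_add_distrib, ← Finset.mul_sum, ← Finset.mul_sum, ← hc S1 h1, ← hc S2 h2]
    ring
  have e1 : ((S2.card : ℝ) / r - S1.card) ^ m = ∏ _i : Fin m, ((S2.card : ℝ) / r - S1.card) := by
    rw [Finset.prod_const, card_univ, Fintype.card_fin]
  rw [e1, e0, Finset.prod_univ_sum]
  apply Finset.sum_congr rfl
  intro κ _
  rw [Finset.prod_add]
  apply Finset.sum_congr rfl
  intro B _
  rw [Finset.prod_mul_distrib, Finset.prod_mul_distrib, Finset.prod_const, Finset.prod_const, Finset.prod_ite_zero,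
    Finset.prod_ite_zero]
  simp only [Finset.prod_const_one]
  ring

/-- the primes between `y` and `z` not dividing `q` -/
def md (y z q : ℕ) : Finset ℕ := (pz z).filter (fun p => y < p ∧ ¬ p ∣ q)

/-- the primes between `y` and `z` dividing `q` -/
def mq (y z q : ℕ) : Finset ℕ := (pz z).filter (fun p => y < p ∧ p ∣ q)

lemma mem_md (y z q p : ℕ) : p ∈ md y z q ↔ (p ≤ z ∧ p.Prime) ∧ y < p ∧ ¬ p ∣ q := by
  unfold md
  rw [mem_filter, mem_pz]

lemma mem_mq (y z q p : ℕ) : p ∈ mq y z q ↔ (p ≤ z ∧ p.Prime) ∧ y < p ∧ p ∣ q := by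
  unfold mq
  rw [mem_filter, mem_pz]

lemma pz_split (y z q : ℕ) (hyz : y ≤ z) : pz z = (pz y ∪ md y z q) ∪ mq y z q := by
  ext p
  rw [mem_union, mem_union, mem_md, mem_mq, mem_pz, mem_pz]
  constructor
  · rintro ⟨h1, h2⟩
    by_cases h : p ≤ y
    · exact Or.inl (Or.inl ⟨h, h2⟩)
    · by_cases hq : p ∣ q
      · exact Or.inr ⟨⟨h1, h2⟩, by omega, hq⟩
      · exact Or.inl (Or.inr ⟨⟨h1, h2⟩, by omega, hq⟩)
  · rintro ((⟨h1, h2⟩ | ⟨⟨h1, h2⟩, _⟩) | ⟨⟨h1, h2⟩, _⟩)
    · exact ⟨h1.trans hyz, h2⟩
    · exact ⟨h1, h2⟩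
    · exact ⟨h1, h2⟩

lemma pz_disj (y z q : ℕ) : Disjoint (pz y) (md y z q) := by
  rw [Finset.disjoint_left]
  intro p hp hp'
  rw [mem_pz] at hp
  rw [mem_md] at hp'
  omega

lemma pz_disj2 (y z q : ℕ) : Disjoint (pz y ∪ md y z q) (mq y z q) := by
  rw [Finset.disjoint_left]
  intro p hp hp'
  rw [mem_union, mem_pz, mem_md] at hp
  rw [mem_mq] at hp'
  rcases hp with hp | hp
  · omega
  · exact hp.2.2 hp'.2.2

open Classical in
/-- the points of `I` surviving the primes in `P` -/
noncomputable def Sv (b q : ℕ) (A : LF n e) (F : Fin n → ℤ[X]) (I P : Finset ℕ) (c : Fin n → Fin d → ℤ) : Finset ℕ :=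
  I.filter (fun k => ∀ p ∈ P, gd b q A F p c k)

open Classical in
/-- **The moment over the box is at most the moment of the model, up to a small error.** -/
theorem box_moment (n d e D A' C s s0 U : ℕ) (hd : 2 ≤ d) (hD : d ≤ D + 1) : ∀ᶠ X : ℕ in atTop, ∀ b q y z : ℕ, (z : ℝ) ≤ Real.log X ^ A' → y ≤ z →
    e * D ≤ y → s0 ≤ y →
    ∀ (Z : Fin n → Fin d → ℤ) (Y : Fin n → Fin d → ℕ), (∀ i j, (X : ℝ) / Real.log X ^ C ≤ Y i j) →
    ∀ (A : LF n e) (F : Fin n → ℤ[X]), (∀ i, (F i).natDegree ≤ D) →
    (∀ t, ∀ p : ℕ, p.Prime → (∀ i, (p : ℤ) ∣ A.s t i) → p ≤ s0) →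
    ∀ (I : Finset ℕ) (r : ℝ), 0 < r → r ≤ 1 → ∀ K : ℝ, 0 ≤ K →
    (∀ S1 ⊆ I, TT (Om n d) (nd A F) (gd b q A F) (md y z q).toList (fun S2 => ((S2.card : ℝ) / r - S1.card) ^ (2 * s)) S1 ≤ K) →
    ∑ c ∈ (BA Z Y).filter (fun c => ∀ p ∈ md y z q, nd A F p c),
      (((Sv b q A F I (pz y ∪ md y z q) c).card : ℝ) / r - (Sv b q A F I (pz y) c).card) ^ (2 * s) ≤
      (K + (2 * I.card / r) ^ (2 * s) / Real.log X ^ U) * (BA Z Y).card := by
  filter_upwards [box_sieve n d (2 * s * e + e + s0) A' C U, ev_log_ge 1] with X hsieve hL1 b q y z hz hyz hy hs0 Z Y hY A F hF hs I r hr0 hr1 K hK0 hK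
  obtain ⟨L, hL⟩ : ∃ L, L = Real.log (X : ℝ) := ⟨_, rfl⟩
  rw [← hL] at hL1 hz hY hsieve ⊢
  have hL0 : 0 < L := by linarith
  have hLU : 0 < L ^ U := by positivity
  obtain ⟨W, hW⟩ : ∃ W, W = BA Z Y := ⟨_, rfl⟩
  have hsieve := hsieve z hz Z Y hY
  rw [← hW] at hsieve ⊢
  obtain ⟨w, hw⟩ : ∃ w : Finset (Fin (2 * s)) → ℝ, w = fun B => (1 / r) ^ B.card * (-1) ^ (univ \ B).card := ⟨_, rfl⟩
  obtain ⟨g, hg⟩ : ∃ g : (Fin (2 * s) → ℕ) → Finset (Fin (2 * s)) → ℕ → ℝ, g = fun κ B p =>
    (((Om n d p).filter (fun c => ¬ EE b q A F y κ B p c)).card : ℝ) / (Om n d p).card := ⟨_, rfl⟩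
  obtain ⟨N, hN⟩ : ∃ N : (Fin (2 * s) → ℕ) → Finset (Fin (2 * s)) → ℝ, N = fun κ B =>
    ((W.filter (fun c => ∀ p ∈ pz z, ¬ EE b q A F y κ B p c)).card : ℝ) := ⟨_, rfl⟩
  -- the box
  have hbox : ∑ c ∈ W.filter (fun c => ∀ p ∈ md y z q, nd A F p c),
      (((Sv b q A F I (pz y ∪ md y z q) c).card : ℝ) / r - (Sv b q A F I (pz y) c).card) ^ (2 * s) =
      ∑ κ ∈ Fintype.piFinset (fun _ : Fin (2 * s) => I), ∑ B ∈ (univ : Finset (Fin (2 * s))).powerset, w B * N κ B := by
    have h1 : ∀ c ∈ W.filter (fun c => ∀ p ∈ md y z q, nd A F p c),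
        (((Sv b q A F I (pz y ∪ md y z q) c).card : ℝ) / r - (Sv b q A F I (pz y) c).card) ^ (2 * s) =
        ∑ κ ∈ Fintype.piFinset (fun _ : Fin (2 * s) => I), ∑ B ∈ (univ : Finset (Fin (2 * s))).powerset,
          w B * ((if ∀ i ∈ B, κ i ∈ Sv b q A F I (pz y ∪ md y z q) c then 1 else 0) * (if ∀ i ∈ univ \ B, κ i ∈ Sv b q A F I (pz y) c then 1 else 0)) := by
      intro c _
      rw [hw]
      exact expand I (Sv b q A F I (pz y) c) (Sv b q A F I (pz y ∪ md y z q) c) (filter_subset _ _) (filter_subset _ _) r (2 * s)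
    rw [Finset.sum_congr rfl h1, Finset.sum_comm]
    apply Finset.sum_congr rfl
    intro κ hκ
    rw [Finset.sum_comm]
    apply Finset.sum_congr rfl
    intro B _
    rw [← Finset.mul_sum]
    congr 1
    rw [hN]
    simp only
    rw [Finset.card_filter, Finset.sum_filter]
    push_cast
    apply Finset.sum_congr rfl
    intro c _
    rw [Fintype.mem_piFinset] at hκ
    have hiff : (∀ p ∈ pz z, ¬ EE b q A F y κ B p c) ↔ ((∀ p ∈ md y z q, nd A F p c) ∧ (∀ i ∈ B, κ i ∈ Sv b q A F I (pz y ∪ md y z q) c) ∧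
        ∀ i ∈ univ \ B, κ i ∈ Sv b q A F I (pz y) c) := by
      constructor
      · intro h
        have hsm : ∀ p ∈ pz y, ∀ i, gd b q A F p c (κ i) := by
          intro p hp i
          have h2 := h p (by rw [pz_split y z q hyz]; exact mem_union_left _ (mem_union_left _ hp))
          unfold EE at h2
          rw [if_pos (mem_pz.1 hp).1] at h2
          push Not at h2
          exact h2 i
        have hmd : ∀ p ∈ md y z q, nd A F p c ∧ ∀ i ∈ B, gd b q A F p c (κ i) := by
          intro p hp
          have h2 := h p (by rw [pz_split y z q hyz]; exact mem_union_left _ (mem_union_right _ hp))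
          unfold EE at h2
          rw [if_neg (by have := ((mem_md y z q p).1 hp).2.1; omega), if_neg ((mem_md y z q p).1 hp).2.2] at h2
          push Not at h2
          exact h2
        refine ⟨fun p hp => (hmd p hp).1, ?_, ?_⟩
        · intro i hi
          unfold Sv
          rw [mem_filter]
          refine ⟨hκ i, ?_⟩
          intro p hp
          rw [mem_union] at hp
          rcases hp with hp | hp
          · exact hsm p hp i
          · exact (hmd p hp).2 i hi
        · intro i _
          unfold Sv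
          rw [mem_filter]
          exact ⟨hκ i, fun p hp => hsm p hp i⟩
      · rintro ⟨h1, h2, h3⟩ p hp
        have hall : ∀ p ∈ pz y, ∀ i, gd b q A F p c (κ i) := by
          intro p hp i
          by_cases hi : i ∈ B
          · have := h2 i hi
            unfold Sv at this
            rw [mem_filter] at this
            exact this.2 p (mem_union_left _ hp)
          · have := h3 i (mem_sdiff.2 ⟨mem_univ _, hi⟩)
            unfold Sv at this
            rw [mem_filter] at this
            exact this.2 p hp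
        unfold EE
        by_cases hpy : p ≤ y
        · rw [if_pos hpy]
          push Not
          intro i
          exact hall p (mem_pz.2 ⟨hpy, (mem_pz.1 hp).2⟩) i
        · rw [if_neg hpy]
          by_cases hpq : p ∣ q
          · rw [if_pos hpq]
            exact not_false
          rw [if_neg hpq]
          push Not
          have hpm : p ∈ md y z q := by
            rw [mem_md]
            exact ⟨mem_pz.1 hp, by omega, hpq⟩
          refine ⟨h1 p hpm, ?_⟩
          intro i hi
          have := h2 i hi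
          unfold Sv at this
          rw [mem_filter] at this
          exact this.2 p (mem_union_right _ hpm)
    by_cases ha : ∀ p ∈ md y z q, nd A F p c
    · by_cases hb : ∀ i ∈ B, κ i ∈ Sv b q A F I (pz y ∪ md y z q) c
      · by_cases hc : ∀ i ∈ univ \ B, κ i ∈ Sv b q A F I (pz y) c
        · rw [if_pos ha, if_pos hb, if_pos hc, if_pos (hiff.2 ⟨ha, hb, hc⟩), mul_one]
        · rw [if_pos ha, if_neg hc, if_neg (fun h => hc (hiff.1 h).2.2), mul_zero]
      · rw [if_pos ha, if_neg hb, if_neg (fun h => hb (hiff.1 h).2.1), zero_mul]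
    · rw [if_neg ha, if_neg (fun h => ha (hiff.1 h).1)]
  -- the model
  obtain ⟨Mo, hMo⟩ : ∃ Mo : ℝ, Mo = TT (Om n d) (fun _ _ => True) (gd b q A F) (pz y).toList (fun S1 =>
    TT (Om n d) (nd A F) (gd b q A F) (md y z q).toList (fun S2 => ((S2.card : ℝ) / r - S1.card) ^ (2 * s)) S1) I := ⟨_, rfl⟩
  have hMoK : Mo ≤ K := by
    rw [hMo]
    exact TT_le _ _ _ _ _ K hK0 I hK
  have hmodel : Mo = ∑ κ ∈ Fintype.piFinset (fun _ : Fin (2 * s) => I), ∑ B ∈ (univ : Finset (Fin (2 * s))).powerset,
      w B * ∏ p ∈ pz z, g κ B p := by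
    have hinner : ∀ S1 ⊆ I, TT (Om n d) (nd A F) (gd b q A F) (md y z q).toList (fun S2 => ((S2.card : ℝ) / r - S1.card) ^ (2 * s)) S1 =
        ∑ κ ∈ Fintype.piFinset (fun _ : Fin (2 * s) => I), ∑ B ∈ (univ : Finset (Fin (2 * s))).powerset,
          (w B * ((md y z q).toList.map (fun p => qq (Om n d) (nd A F) (gd b q A F) p (B.image κ))).prod) *
            (if univ.image κ ⊆ S1 then 1 else 0) := by
      intro S1 hS1
      have h1 : TT (Om n d) (nd A F) (gd b q A F) (md y z q).toList (fun S2 => ((S2.card : ℝ) / r - S1.card) ^ (2 * s)) S1 =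
          TT (Om n d) (nd A F) (gd b q A F) (md y z q).toList (fun S2 =>
            ∑ x ∈ Fintype.piFinset (fun _ : Fin (2 * s) => I) ×ˢ (univ : Finset (Fin (2 * s))).powerset,
              (w x.2 * (if ∀ i ∈ univ \ x.2, x.1 i ∈ S1 then 1 else 0)) * (if x.2.image x.1 ⊆ S2 then 1 else 0)) S1 := by
        apply TT_congr
        intro S2 hS2
        rw [expand I S1 S2 hS1 (hS2.trans hS1) r (2 * s), Finset.sum_product]
        apply Finset.sum_congr rfl
        intro κ _
        apply Finset.sum_congr rfl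
        intro B _
        have e1 : (B.image κ ⊆ S2) ↔ ∀ i ∈ B, κ i ∈ S2 := by
          rw [Finset.image_subset_iff]
        simp only [e1]
        rw [hw]
        ring
      rw [h1, TT_sum, Finset.sum_product]
      apply Finset.sum_congr rfl
      intro κ _
      apply Finset.sum_congr rfl
      intro B _
      rw [TT_corr]
      dsimp only
      have e2 : (univ.image κ ⊆ S1) ↔ (B.image κ ⊆ S1 ∧ ∀ i ∈ univ \ B, κ i ∈ S1) := by
        rw [Finset.image_subset_iff, Finset.image_subset_iff]
        constructor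
        · intro h
          exact ⟨fun i _ => h i (mem_univ _), fun i _ => h i (mem_univ _)⟩
        · rintro ⟨h1, h2⟩ i _
          by_cases hi : i ∈ B
          · exact h1 i hi
          · exact h2 i (mem_sdiff.2 ⟨mem_univ _, hi⟩)
      by_cases ha : B.image κ ⊆ S1
      · by_cases hb : ∀ i ∈ univ \ B, κ i ∈ S1
        · rw [if_pos ha, if_pos (e2.2 ⟨ha, hb⟩), if_pos hb]
          ring
        · rw [if_neg (fun h => hb (e2.1 h).2), if_neg hb]
          ring
      · rw [if_neg ha, if_neg (fun h => ha (e2.1 h).1)]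
        ring
    have h2 : Mo = TT (Om n d) (fun _ _ => True) (gd b q A F) (pz y).toList (fun S1 =>
        ∑ x ∈ Fintype.piFinset (fun _ : Fin (2 * s) => I) ×ˢ (univ : Finset (Fin (2 * s))).powerset,
          (w x.2 * ((md y z q).toList.map (fun p => qq (Om n d) (nd A F) (gd b q A F) p (x.2.image x.1))).prod) *
            (if univ.image x.1 ⊆ S1 then 1 else 0)) I := by
      rw [hMo]
      apply TT_congr
      intro S1 hS1
      rw [hinner S1 hS1, Finset.sum_product]
    rw [h2, TT_sum, Finset.sum_product]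
    apply Finset.sum_congr rfl
    intro κ hκ
    rw [Fintype.mem_piFinset] at hκ
    apply Finset.sum_congr rfl
    intro B _
    rw [TT_corr, if_pos (by
      rw [Finset.image_subset_iff]
      intro i _
      exact hκ i), mul_assoc]
    congr 1
    have hmq : ∏ p ∈ mq y z q, g κ B p = 1 := by
      apply Finset.prod_eq_one
      intro p hp
      rw [mem_mq] at hp
      rw [hg]
      simp only
      have : (Om n d p).filter (fun c => ¬ EE b q A F y κ B p c) = Om n d p := by
        rw [Finset.filter_true_of_mem]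
        intro c _
        unfold EE
        rw [if_neg (by omega), if_pos hp.2.2]
        exact not_false
      rw [this, div_self (Om_pos p hp.1.2.pos).ne']
    rw [Finset.prod_map_toList, Finset.prod_map_toList, pz_split y z q hyz, Finset.prod_union (pz_disj2 y z q), hmq, mul_one,
      Finset.prod_union (pz_disj y z q), mul_comm]
    congr 1
    · apply Finset.prod_congr rfl
      intro p hp
      unfold qq
      rw [hg]
      simp only
      congr 2
      congr 1
      ext c
      simp only [mem_filter]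
      apply and_congr_right
      intro _
      unfold EE
      rw [if_pos (mem_pz.1 hp).1]
      push Not
      constructor
      · intro h i
        exact h.2 _ (mem_image_of_mem κ (mem_univ i))
      · intro h
        refine ⟨trivial, ?_⟩
        intro k hk
        rw [mem_image] at hk
        obtain ⟨i, _, rfl⟩ := hk
        exact h i
    · apply Finset.prod_congr rfl
      intro p hp
      unfold qq
      rw [hg]
      simp only
      congr 2
      congr 1
      ext c
      simp only [mem_filter]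
      apply and_congr_right
      intro _
      unfold EE
      rw [if_neg (by have := ((mem_md y z q p).1 hp).2.1; omega), if_neg ((mem_md y z q p).1 hp).2.2]
      push Not
      constructor
      · intro h
        exact ⟨h.1, fun i hi => h.2 _ (mem_image_of_mem κ hi)⟩
      · intro h
        refine ⟨h.1, ?_⟩
        intro k hk
        rw [mem_image] at hk
        obtain ⟨i, hi, rfl⟩ := hk
        exact h.2 i hi
  -- comparison
  have hclose : ∀ κ B, |N κ B - W.card * ∏ p ∈ pz z, g κ B p| ≤ W.card / L ^ U := by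
    intro κ B
    rw [hN, hg]
    exact hsieve (fun p c => EE b q A F y κ B p c) (fun p => EE_per b q A F y κ B p) (fun p hp =>
      EE_dens b q A F D hF hD y s0 hy hs0 hs hd κ B p (mem_pz.1 hp).2)
  have hwabs : ∀ B, |w B| ≤ (1 / r) ^ (2 * s) := by
    intro B
    rw [hw]
    simp only
    rw [abs_mul, abs_pow, abs_pow, abs_neg, abs_one, one_pow, mul_one, abs_of_pos (by positivity)]
    apply pow_le_pow_right₀
    · rw [le_div_iff₀ hr0, one_mul]
      exact hr1
    · have := card_le_univ B
      rwa [Fintype.card_fin] at this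
  have hdiff : |∑ c ∈ W.filter (fun c => ∀ p ∈ md y z q, nd A F p c),
      (((Sv b q A F I (pz y ∪ md y z q) c).card : ℝ) / r - (Sv b q A F I (pz y) c).card) ^ (2 * s) - W.card * Mo| ≤
      (2 * I.card / r) ^ (2 * s) / L ^ U * W.card := by
    rw [hbox, hmodel, Finset.mul_sum, ← Finset.sum_sub_distrib]
    have h1 : ∀ κ ∈ Fintype.piFinset (fun _ : Fin (2 * s) => I),
        |∑ B ∈ (univ : Finset (Fin (2 * s))).powerset, w B * N κ B - W.card * ∑ B ∈ (univ : Finset (Fin (2 * s))).powerset,
          w B * ∏ p ∈ pz z, g κ B p| ≤ 2 ^ (2 * s) * ((1 / r) ^ (2 * s) * (W.card / L ^ U)) := by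
      intro κ _
      rw [Finset.mul_sum, ← Finset.sum_sub_distrib]
      refine (Finset.abs_sum_le_sum_abs _ _).trans ?_
      have h2 : ∀ B ∈ (univ : Finset (Fin (2 * s))).powerset, |w B * N κ B - W.card * (w B * ∏ p ∈ pz z, g κ B p)| ≤
          (1 / r) ^ (2 * s) * (W.card / L ^ U) := by
        intro B _
        have e1 : w B * N κ B - W.card * (w B * ∏ p ∈ pz z, g κ B p) = w B * (N κ B - W.card * ∏ p ∈ pz z, g κ B p) := by ring
        rw [e1, abs_mul]
        exact mul_le_mul (hwabs B) (hclose κ B) (abs_nonneg _) (by positivity)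
      refine (Finset.sum_le_sum h2).trans ?_
      rw [Finset.sum_const, card_powerset, card_univ, Fintype.card_fin, nsmul_eq_mul]
      push_cast
      exact le_rfl
    refine (Finset.abs_sum_le_sum_abs _ _).trans ((Finset.sum_le_sum h1).trans ?_)
    rw [Finset.sum_const, Fintype.card_piFinset, Finset.prod_const, card_univ, Fintype.card_fin, nsmul_eq_mul]
    apply le_of_eq
    push_cast
    rw [div_pow (2 * (I.card : ℝ)) r, mul_pow 2 (I.card : ℝ), one_div_pow]
    ring
  have h3 := (abs_le.1 hdiff).2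
  have h4 : (W.card : ℝ) * Mo ≤ K * W.card := by
    rw [mul_comm]
    exact mul_le_mul_of_nonneg_right hMoK (Nat.cast_nonneg _)
  linarith

end Pool.Agent.Q236.LG
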